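import Pool.Agent.H24.Deg

set_option autoImplicit false
set_option linter.unusedSectionVars false

namespace Pool.Agent.H24

open Module

universe u v w

section beta

variable {k : Type u} [Field k] {ι : Type w} [Fintype ι] [DecidableEq ι]

/-- The beta invariant. -/
noncomputable def beta (L : Submodule k (ι → k)) : ℤ :=
  (-1) ^ (finrank k L + 1) * ∑ S : Finset ι, (-1) ^ S.card * (kd L S : ℤ)

lemma sum_split (j : ι) (f : Set ι → ℤ) : ∑ S : Finset ι, (-1) ^ S.card * f S =
    ∑ S : Finset {i // i ≠ j}, (-1) ^ S.card *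
      (f (Subtype.val '' (S : Set {i // i ≠ j})) - f (Subtype.val '' (S : Set {i // i ≠ j}) ∪ {j})) := by
  rw [← Finset.powerset_univ, ← Finset.insert_erase (Finset.mem_univ j),
    Finset.sum_powerset_insert (Finset.notMem_erase j _), ← Finset.sum_add_distrib]
  symm
  apply Finset.sum_bij (fun S _ => S.map (Function.Embedding.subtype _))
  · intro S _
    rw [Finset.mem_powerset]
    intro i hi
    rw [Finset.mem_map] at hi
    obtain ⟨a, _, rfl⟩ := hi
    exact Finset.mem_erase.mpr ⟨a.2, Finset.mem_univ _⟩
  · intro S _ T _ h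
    exact Finset.map_injective _ h
  · intro S hS
    rw [Finset.mem_powerset] at hS
    refine ⟨S.subtype (fun i => i ≠ j), Finset.mem_univ _, ?_⟩
    ext i
    rw [Finset.mem_map]
    constructor
    · rintro ⟨a, ha, rfl⟩
      exact Finset.mem_subtype.mp ha
    · intro hi
      exact ⟨⟨i, (Finset.mem_erase.mp (hS hi)).1⟩, Finset.mem_subtype.mpr hi, rfl⟩
  · intro S _
    have hj : j ∉ S.map (Function.Embedding.subtype (fun i => i ≠ j)) := by
      intro h
      rw [Finset.mem_map] at h
      obtain ⟨a, _, ha⟩ := h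
      exact a.2 ha
    rw [Finset.card_insert_of_notMem hj, Finset.card_map]
    have h1 : ((S.map (Function.Embedding.subtype (fun i => i ≠ j)) : Finset ι) : Set ι) =
        Subtype.val '' (S : Set {i // i ≠ j}) := by
      rw [Finset.coe_map]
      rfl
    have h2 : ((insert j (S.map (Function.Embedding.subtype (fun i => i ≠ j))) : Finset ι) : Set ι) =
        Subtype.val '' (S : Set {i // i ≠ j}) ∪ {j} := by
      rw [Finset.coe_insert, h1, Set.union_singleton]
    rw [h1, h2, pow_succ]
    ring

lemma sum_eq_zero_of_indep (j : ι) (f : Set ι → ℤ) (h : ∀ S, f (S ∪ {j}) = f S) :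
    ∑ S : Finset ι, (-1) ^ S.card * f S = 0 := by
  rw [sum_split j]
  refine Finset.sum_eq_zero (fun S _ => ?_)
  rw [h, sub_self, mul_zero]

lemma beta_loop (L : Submodule k (ι → k)) (e : ι) (he : ∀ y ∈ L, y e = 0) : beta L = 0 := by
  rw [beta, sum_eq_zero_of_indep e (fun S => (kd L S : ℤ)), mul_zero]
  intro S
  rw [kd_singleton_of_loop L e he]

lemma beta_rec (L : Submodule k (ι → k)) (j : ι) (hj : ∃ y ∈ L, y j ≠ 0)
    (hcol : Pi.single j 1 ∉ L) : beta L = beta (del L j) + beta (con L j) := by
  rw [beta, beta, beta, sum_split j (fun S => (kd L S : ℤ)), finrank_del L j hcol]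
  have h1 := finrank_con L j hj
  have h2 : ∑ S : Finset {i // i ≠ j}, (-1) ^ S.card *
      ((kd L (Subtype.val '' (S : Set {i // i ≠ j})) : ℤ) -
        (kd L (Subtype.val '' (S : Set {i // i ≠ j}) ∪ {j}) : ℤ)) =
      ∑ S : Finset {i // i ≠ j}, (-1) ^ S.card * (kd (del L j) S : ℤ) -
      ∑ S : Finset {i // i ≠ j}, (-1) ^ S.card * (kd (con L j) S : ℤ) := by
    rw [← Finset.sum_sub_distrib]
    refine Finset.sum_congr rfl (fun S _ => ?_)
    rw [kd_del L j hcol, kd_con]
    ring
  rw [h2, ← h1]
  ring

lemma beta_disconn (L : Submodule k (ι → k)) (h : ¬ Conn L) : beta L = 0 := by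
  unfold Conn at h
  push Not at h
  obtain ⟨A, ⟨a, ha⟩, ⟨b, hb⟩, hA⟩ := h
  have key : ∀ S : Set ι, (kd L S : ℤ) = (kd L (S ∪ A) : ℤ) + (kd L (S ∪ Aᶜ) : ℤ) := by
    intro S
    have e1 := kd_super L (S ∪ A) (S ∪ Aᶜ)
    have s1 : (S ∪ A) ∩ (S ∪ Aᶜ) = S := by
      rw [← Set.union_inter_distrib_left, Set.inter_compl_self, Set.union_empty]
    have s2 : (S ∪ A) ∪ (S ∪ Aᶜ) = Set.univ := by
      ext i
      simp only [Set.mem_union, Set.mem_univ, iff_true, Set.mem_compl_iff]
      tauto
    rw [s1, s2, kd_univ] at e1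
    have e2 := kd_super L S A
    have e3 := kd_super L S Aᶜ
    have e4 := kd_super L (S ∩ A) (S ∩ Aᶜ)
    have s3 : (S ∩ A) ∩ (S ∩ Aᶜ) = ∅ := by
      ext i
      simp only [Set.mem_inter_iff, Set.mem_compl_iff, Set.mem_empty_iff_false, iff_false]
      tauto
    have s4 : (S ∩ A) ∪ (S ∩ Aᶜ) = S := by
      rw [← Set.inter_union_distrib_left, Set.union_compl_self, Set.inter_univ]
    rw [s3, s4, kd_empty] at e4
    omega
  rw [beta]
  have h1 : ∑ S : Finset ι, (-1) ^ S.card * (kd L S : ℤ) =
      ∑ S : Finset ι, (-1) ^ S.card * (kd L (S ∪ A) : ℤ) +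
      ∑ S : Finset ι, (-1) ^ S.card * (kd L (S ∪ Aᶜ) : ℤ) := by
    rw [← Finset.sum_add_distrib]
    refine Finset.sum_congr rfl (fun S _ => ?_)
    rw [key S]
    ring
  rw [h1, sum_eq_zero_of_indep a (fun S => (kd L (S ∪ A) : ℤ)),
    sum_eq_zero_of_indep b (fun S => (kd L (S ∪ Aᶜ) : ℤ)), add_zero, mul_zero]
  · intro S
    congr 2
    ext i
    simp only [Set.mem_union, Set.mem_singleton_iff, Set.mem_compl_iff]
    constructor
    · rintro ((h | rfl) | h)
      · exact Or.inl h
      · exact Or.inr hb
      · exact Or.inr h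
    · rintro (h | h)
      · exact Or.inl (Or.inl h)
      · exact Or.inr h
  · intro S
    congr 2
    ext i
    simp only [Set.mem_union, Set.mem_singleton_iff]
    constructor
    · rintro ((h | rfl) | h)
      · exact Or.inl h
      · exact Or.inr ha
      · exact Or.inr h
    · rintro (h | h)
      · exact Or.inl (Or.inl h)
      · exact Or.inr h

/-- For a disconnected matroid the `u_i` are algebraically dependent. -/
lemma not_indep_of_disconn (s : ℕ) (hs : s ≠ 0) (L : Submodule k (ι → k)) (e : ι)
    (he : ∃ y ∈ L, y e ≠ 0) (h : ¬ Conn L) :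
    ¬ AlgebraicIndependent k (fun i : {i // i ≠ e} => uP s L e i) := by
  classical
  intro hind
  have hdom : IsDomain (PRing L e) := PRing.isDomain he
  unfold Conn at h
  push Not at h
  -- WLOG `e ∉ A`
  obtain ⟨A, hAne, heA, hA⟩ : ∃ A : Set ι, A.Nonempty ∧ e ∉ A ∧ finrank k L ≤ kd L A + kd L Aᶜ := by
    obtain ⟨A, h1, h2, h3⟩ := h
    by_cases heA : e ∈ A
    · exact ⟨Aᶜ, h2, fun h => h heA, by rw [compl_compl, add_comm]; exact h3⟩
    · exact ⟨A, h1, heA, h3⟩
  -- decomposition
  have hdec : ∀ y ∈ L, ∃ z ∈ L, (∀ i ∈ A, z i = y i) ∧ (∀ i, i ∉ A → z i = 0) := by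
    intro y hy
    have h1 : (L ⊓ supported Aᶜ) ⊔ (L ⊓ supported Aᶜᶜ) = L := by
      apply Submodule.eq_of_le_of_finrank_le (sup_le inf_le_left inf_le_left)
      have h2 := Submodule.finrank_sup_add_finrank_inf_eq (L ⊓ supported Aᶜ) (L ⊓ supported Aᶜᶜ)
      have h3 : (L ⊓ supported Aᶜ) ⊓ (L ⊓ supported Aᶜᶜ) = (⊥ : Submodule k (ι → k)) := by
        rw [eq_bot_iff]
        rintro z ⟨⟨_, hz1⟩, ⟨_, hz2⟩⟩
        rw [Submodule.mem_bot]
        funext i
        by_cases hi : i ∈ A
        · exact hz1 i (fun h => h hi)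
        · exact hz2 i (fun h => h hi)
      rw [h3, finrank_bot] at h2
      unfold kd at hA
      omega
    rw [← h1, Submodule.mem_sup] at hy
    obtain ⟨a, ha, b, hb, rfl⟩ := hy
    refine ⟨b, hb.1, fun i hi => ?_, fun i hi => ?_⟩
    · rw [Pi.add_apply, ha.2 i (fun h => h hi), zero_add]
    · exact hb.2 i (fun h => h hi)
  let K := FractionRing (PRing L e)
  have hPK : Function.Injective (algebraMap (PRing L e) K) := IsFractionRing.injective _ K
  let F : Finset ι := Finset.univ.filter (fun i => i ∈ A)
  have hF : ∀ i, i ∈ F ↔ i ∈ A := fun i => by simp [F]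
  let N : Submodule k (F → k) := L.map (LinearMap.funLeft k k (fun i : F => (i : ι)))
  let x : F → K := fun i => algebraMap (PRing L e) K (xP L e i)
  let w : F → K := fun i => algebraMap (PRing L e) K (wP L e i)
  have hx : InExt N x := by
    intro c hc
    let c' : ι → k := fun i => if h : i ∈ F then c ⟨i, h⟩ else 0
    have h1 : c' ∈ perp L := by
      intro y hy
      have h2 := hc _ ⟨y, hy, rfl⟩
      rw [← h2, ← Finset.sum_subset (Finset.subset_univ F)]
      · rw [← Finset.sum_attach]
        refine Finset.sum_congr rfl (fun i _ => ?_)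
        simp [c', LinearMap.funLeft_apply]
      · intro i _ hi
        simp [c', hi]
    have h3 := ((inExt_xP L e).map (IsScalarTower.toAlgHom k (PRing L e) K)) _ h1
    rw [← h3, ← Finset.sum_subset (Finset.subset_univ F)
      (f := fun i => c' i • (IsScalarTower.toAlgHom k (PRing L e) K) (xP L e i))]
    · rw [← Finset.sum_attach F]
      refine Finset.sum_congr rfl (fun i _ => ?_)
      simp [c', x]
    · intro i _ hi
      simp [c', hi]
  have hw : InExt (perp N) w := by
    rw [inExt_perp]
    rintro _ ⟨y, hy, rfl⟩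
    obtain ⟨z, hz, hz1, hz2⟩ := hdec y hy
    have h3 := (inExt_perp.mp ((inExt_wP L e).map (IsScalarTower.toAlgHom k (PRing L e) K))) _ hz
    rw [← h3, ← Finset.sum_subset (Finset.subset_univ F)
      (f := fun i => z i • (IsScalarTower.toAlgHom k (PRing L e) K) (wP L e i))]
    · rw [← Finset.sum_attach F]
      refine Finset.sum_congr rfl (fun i _ => ?_)
      rw [hz1 i ((hF i).mp i.2)]
      rfl
    · intro i _ hi
      rw [hz2 i (fun h => hi ((hF i).mpr h)), zero_smul]
  have hFe : ∀ i : F, (i : ι) ≠ e := fun i h => heA (h ▸ (hF i).mp i.2)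
  have hindK : AlgebraicIndependent k (fun i : F => x i ^ s * w i) := by
    have h1 : AlgebraicIndependent k (fun i : F => uP s L e i) :=
      hind.comp (fun i : F => (⟨i, hFe i⟩ : {i // i ≠ e})) (by
        intro a b hab
        exact Subtype.ext (congrArg (Subtype.val : {i // i ≠ e} → ι) hab))
    have h2 := h1.map' (f := IsScalarTower.toAlgHom k (PRing L e) K) hPK
    have h3 : (fun i : F => x i ^ s * w i) =
        (IsScalarTower.toAlgHom k (PRing L e) K) ∘ (fun i : F => uP s L e i) := by
      funext i
      change _ = algebraMap (PRing L e) K (uP s L e i)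
      rw [uP, map_mul, map_pow]
    rw [h3]
    exact h2
  by_cases hx0 : ∃ i₀ : F, x i₀ ≠ 0
  · obtain ⟨i₀, hi₀⟩ := hx0
    exact lemmaG N x w hx hw i₀ hi₀ s hindK
  · push Not at hx0
    obtain ⟨a, ha⟩ := hAne
    have h1 := hindK.ne_zero ⟨a, (hF a).mpr ha⟩
    rw [hx0, zero_pow hs, zero_mul] at h1
    exact h1 rfl

/-- **The degree formula.** -/
theorem D_eq (s : ℕ) (hs : s ≠ 0) : ∀ (n : ℕ) {ι : Type w} [Fintype ι] [DecidableEq ι]
    (L : Submodule k (ι → k)) (e : ι), Fintype.card ι = n → (∃ y ∈ L, y e ≠ 0) →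
    ∃ b : ℕ, (b : ℤ) = beta L ∧ D s L e = ((s ^ (finrank k L - 1) * b : ℕ) : Cardinal) := by
  intro n
  induction n with
  | zero =>
    intro ι _ _ L e hcard _
    rw [Fintype.card_eq_zero_iff] at hcard
    exact hcard.elim e
  | succ n ih =>
    intro ι _ _ L e hcard he
    have hdom : IsDomain (PRing L e) := PRing.isDomain he
    by_cases hconn : Conn L
    · by_cases hex : ∃ j, e ≠ j
      · obtain ⟨j, hej⟩ := hex
        have hjne : ({j}ᶜ : Set ι).Nonempty := ⟨e, by simpa using hej⟩
        have hcard' : Fintype.card {i // i ≠ j} = n := by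
          rw [Fintype.card_subtype_compl, Fintype.card_subtype_eq, hcard]
          rfl
        have hcol := hconn.noncoloop j hjne
        have hnl := hconn.nonloop j hjne
        have hall : ∀ i, ∃ y ∈ L, y i ≠ 0 := by
          intro i
          by_cases hi : i = e
          · rw [hi]; exact he
          · exact hconn.nonloop i ⟨e, by simpa using Ne.symm hi⟩
        have hind := indep_of_conn (k := k) s hs (n + 1) L e hcard hconn he
        have hrec := D_rec L e j hej s hs hall hcol hind
        have hbrec := beta_rec L j hnl hcol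
        obtain ⟨b₁, hb₁, hD₁⟩ := ih (del L j) ⟨e, hej⟩ hcard' (nonloop_del L e j hej he)
        rw [finrank_del L j hcol] at hD₁
        have hfc := finrank_con L j hnl
        by_cases hec : ∃ y ∈ con L j, y ⟨e, hej⟩ ≠ 0
        · obtain ⟨b₂, hb₂, hD₂⟩ := ih (con L j) ⟨e, hej⟩ hcard' hec
          refine ⟨b₁ + b₂, by rw [hbrec, ← hb₁, ← hb₂, Nat.cast_add], ?_⟩
          rw [hrec, hD₁, hD₂, ← Nat.cast_mul, ← Nat.cast_add]
          congr 1
          have hpos : 0 < finrank k (con L j) := by
            obtain ⟨y, hy, hye⟩ := hec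
            apply Module.finrank_pos_iff_exists_ne_zero.mpr
            refine ⟨⟨y, hy⟩, ?_⟩
            intro h0
            apply hye
            have := congrArg Subtype.val h0
            exact congrFun this _
          have h1 : finrank k L - 1 = (finrank k (con L j) - 1) + 1 := by omega
          rw [h1, pow_succ]
          ring
        · push Not at hec
          refine ⟨b₁, by rw [hbrec, ← hb₁, beta_loop (con L j) ⟨e, hej⟩ hec, add_zero], ?_⟩
          rw [hrec, hD₁, D_loop (con L j) ⟨e, hej⟩ s hec, mul_zero, zero_add]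
      · push Not at hex
        have hemp : IsEmpty {i // i ≠ e} := ⟨fun i => i.2 (hex i).symm⟩
        have hfr : finrank k L = 1 := by
          apply le_antisymm
          · calc finrank k L ≤ finrank k (ι → k) := Submodule.finrank_le _
              _ = Fintype.card ι := Module.finrank_fintype_fun_eq_card k
              _ = 1 := by
                rw [Fintype.card_eq_one_iff]
                exact ⟨e, fun i => (hex i).symm⟩
          · have h1 := kd_singleton_of_nonloop L e he
            omega
        have hbeta : beta L = 1 := by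
          have h1 := kd_singleton_of_nonloop L e he
          rw [hfr] at h1
          have h2 : kd L {e} = 0 := by omega
          rw [beta, hfr, sum_split e (fun S => (kd L S : ℤ)), Fintype.sum_unique]
          have h3 : ((default : Finset {i // i ≠ e}) : Set {i // i ≠ e}) = ∅ := by
            rw [Finset.eq_empty_of_isEmpty (default : Finset {i // i ≠ e})]
            exact Finset.coe_empty
          rw [h3, Set.image_empty, Set.empty_union, kd_empty, hfr, h2,
            Finset.eq_empty_of_isEmpty (default : Finset {i // i ≠ e}), Finset.card_empty]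
          norm_num
        refine ⟨1, by rw [hbeta, Nat.cast_one], ?_⟩
        rw [hfr, mul_one, Nat.sub_self, pow_zero, Nat.cast_one]
        have hbij : Function.Bijective (uMap s L e) := by
          refine ⟨indep_of_conn (k := k) s hs (n + 1) L e hcard hconn he, ?_⟩
          rw [← AlgHom.range_eq_top, eq_top_iff, ← PRing.adjoin_eq_top, Algebra.adjoin_le_iff]
          rintro z (⟨i, rfl⟩ | ⟨i, rfl⟩)
          · rw [← hex i, xP_e]
            exact Subalgebra.one_mem _
          · rw [← hex i]
            obtain ⟨y, hy, hye⟩ := he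
            have h1 := (inExt_perp.mp (inExt_wP L e)) y hy
            rw [Finset.sum_eq_single e (fun i _ hi => absurd (hex i).symm hi) (by simp)] at h1
            rw [(smul_eq_zero.mp h1).resolve_left hye]
            exact Subalgebra.zero_mem _
        have h1 : D s L e = hrank (RingHom.id (PRing L e)) := by
          refine hrank_congr _ _ (RingEquiv.ofBijective (uMap s L e) hbij) (RingEquiv.refl _)
            (fun a => rfl)
        rw [h1]
        exact (hrank_eq_rank (A := PRing L e) (P := PRing L e)).trans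
          (CommSemiring.rank_self (PRing L e))
    · refine ⟨0, by rw [beta_disconn L hconn, Nat.cast_zero], ?_⟩
      rw [mul_zero, Nat.cast_zero]
      exact D_eq_zero L e s (not_indep_of_disconn s hs L e he hconn)

end beta

end Pool.Agent.H24
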