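import Pool.Agent.H24.Beta

set_option autoImplicit false
set_option linter.unusedSectionVars false

namespace Pool.Agent.H24

open Module

universe u v w

section deriv

variable {k : Type u} [Field k] {ι : Type w} [Fintype ι] [DecidableEq ι]
variable {L : Submodule k (ι → k)} {e : ι}
variable {K : Type v} [Field K] [Algebra k K] [Algebra (PRing L e) K]
  [IsScalarTower k (PRing L e) K]

/-- Derivations of `PRing L e` with prescribed values on generators. -/
theorem exists_derivation (a b : ι → K) (ha : InExt L a) (hb : InExt (perp L) b) (hae : a e = 0) :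
    ∃ D : Derivation k (PRing L e) K, (∀ i, D (xP L e i) = a i) ∧ (∀ i, D (wP L e i) = b i) := by
  let g : PRing L e →ₐ[k] K := IsScalarTower.toAlgHom k (PRing L e) K
  have key : ∀ (M : Submodule k (ι → k)) (x y : ι → K), InExt M x → InExt M y →
      InExt (R := TrivSqZeroExt K K) M (fun i => TrivSqZeroExt.inl (x i) + TrivSqZeroExt.inr (y i)) := by
    intro M x y hx hy c hc
    have h1 := hx c hc
    have h2 := hy c hc
    apply TrivSqZeroExt.ext
    · simp only [TrivSqZeroExt.fst_sum, TrivSqZeroExt.fst_smul, TrivSqZeroExt.fst_add,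
        TrivSqZeroExt.fst_inl, TrivSqZeroExt.fst_inr, add_zero, TrivSqZeroExt.fst_zero]
      exact h1
    · simp only [TrivSqZeroExt.snd_sum, TrivSqZeroExt.snd_smul, TrivSqZeroExt.snd_add,
        TrivSqZeroExt.snd_inl, TrivSqZeroExt.snd_inr, zero_add, TrivSqZeroExt.snd_zero]
      exact h2
  let f : PRing L e →ₐ[k] TrivSqZeroExt K K :=
    liftP (fun i => TrivSqZeroExt.inl (g (xP L e i)) + TrivSqZeroExt.inr (a i))
      (fun i => TrivSqZeroExt.inl (g (wP L e i)) + TrivSqZeroExt.inr (b i))
      (key L _ _ ((inExt_xP L e).map g) ha) (key (perp L) _ _ ((inExt_wP L e).map g) hb)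
      (by rw [xP_e, map_one, hae, TrivSqZeroExt.inr_zero, add_zero]; rfl)
  have hfst : ∀ p, (f p).fst = algebraMap (PRing L e) K p := by
    intro p
    have h : (TrivSqZeroExt.fstHom k K K).comp f = g := by
      apply PRing.hom_ext
      · intro i
        rw [AlgHom.comp_apply, liftP_xP]
        simp
      · intro i
        rw [AlgHom.comp_apply, liftP_wP]
        simp
    exact DFunLike.congr_fun h p
  refine ⟨Derivation.mk'
    { toFun := fun p => (f p).snd
      map_add' := fun p q => by rw [map_add, TrivSqZeroExt.snd_add]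
      map_smul' := fun c p => by rw [map_smul, TrivSqZeroExt.snd_smul]; rfl } ?_, ?_, ?_⟩
  · intro p q
    change (f (p * q)).snd = p • (f q).snd + q • (f p).snd
    rw [map_mul, TrivSqZeroExt.snd_mul, hfst, hfst, smul_eq_mul, op_smul_eq_mul,
      Algebra.smul_def p, Algebra.smul_def q]
    ring
  · intro i
    change (f (xP L e i)).snd = a i
    rw [liftP_xP]
    simp
  · intro i
    change (f (wP L e i)).snd = b i
    rw [liftP_wP]
    simp

omit [Fintype ι] [DecidableEq ι] in
/-- Chain rule for multivariate polynomials. -/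
lemma derivation_aeval {P : Type*} [CommRing P] [Algebra k P] {M : Type*} [AddCommGroup M]
    [Module k M] [Module P M] [IsScalarTower k P M] [Fintype ι] (D : Derivation k P M) (u : ι → P)
    (G : MvPolynomial ι k) :
    D (MvPolynomial.aeval u G) = ∑ i, MvPolynomial.aeval u (MvPolynomial.pderiv i G) • D (u i) := by
  classical
  induction G using MvPolynomial.induction_on with
  | C c =>
    rw [MvPolynomial.aeval_C, Derivation.map_algebraMap]
    simp
  | add p q hp hq =>
    rw [map_add, map_add, hp, hq, ← Finset.sum_add_distrib]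
    refine Finset.sum_congr rfl (fun i _ => ?_)
    rw [map_add, map_add, add_smul]
  | mul_X p j hp =>
    rw [map_mul, MvPolynomial.aeval_X, Derivation.leibniz, hp]
    have h1 : ∀ i, MvPolynomial.aeval u (MvPolynomial.pderiv i (p * MvPolynomial.X j)) • D (u i) =
        (if i = j then MvPolynomial.aeval u p • D (u j) else 0) +
          u j • (MvPolynomial.aeval u (MvPolynomial.pderiv i p) • D (u i)) := by
      intro i
      rw [MvPolynomial.pderiv_mul, map_add, map_mul, map_mul, MvPolynomial.aeval_X, add_smul,
        MvPolynomial.pderiv_X, add_comm]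
      congr 1
      · by_cases hij : i = j
        · subst hij
          simp
        · simp [hij]
      · rw [mul_comm, mul_smul]
    rw [Finset.sum_congr rfl (fun i _ => h1 i), Finset.sum_add_distrib, Finset.sum_ite_eq',
      if_pos (Finset.mem_univ _), Finset.smul_sum]

open Polynomial in
/-- A derivation which kills a subring kills everything algebraic over it (characteristic zero). -/
lemma derivation_eq_zero {R₁ P M : Type*} [CommRing R₁] [IsDomain R₁] [CharZero R₁] [CommRing P]
    [Algebra k P] [Algebra R₁ P] [AddCommGroup M] [Module k M] [Module P M]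
    (D : Derivation k P M) (hR : ∀ r : R₁, D (algebraMap R₁ P r) = 0)
    (hinj : Function.Injective (algebraMap R₁ P))
    (htors : ∀ (a : P) (m : M), a • m = 0 → a = 0 ∨ m = 0) (p : P)
    (hp : IsAlgebraic R₁ p) : D p = 0 := by
  have hD : ∀ m : R₁[X], D (aeval p m) = aeval p (derivative m) • D p := by
    intro m
    induction m using Polynomial.induction_on' with
    | add f g hf hg => rw [map_add, map_add, derivative_add, map_add, hf, hg, add_smul]
    | monomial n a =>
      rw [aeval_monomial, Derivation.leibniz, hR, smul_zero, add_zero, Derivation.leibniz_pow,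
        derivative_monomial, aeval_monomial, ← Nat.cast_smul_eq_nsmul P, smul_smul, smul_smul,
        map_mul, map_natCast, mul_assoc]
  obtain ⟨m, ⟨hm0, hm⟩, hmin⟩ : ∃ m : R₁[X], (m ≠ 0 ∧ aeval p m = 0) ∧
      ∀ m' : R₁[X], (m' ≠ 0 ∧ aeval p m' = 0) → m.natDegree ≤ m'.natDegree := by
    classical
    have hex : ∃ n, ∃ m : R₁[X], (m ≠ 0 ∧ aeval p m = 0) ∧ m.natDegree = n := by
      obtain ⟨m, h1, h2⟩ := hp
      exact ⟨_, m, ⟨h1, h2⟩, rfl⟩
    obtain ⟨m, hm, hmn⟩ := Nat.find_spec hex
    refine ⟨m, hm, fun m' hm' => ?_⟩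
    rw [hmn]
    exact Nat.find_min' hex ⟨m', hm', rfl⟩
  have h1 := hD m
  rw [hm, map_zero] at h1
  rcases htors _ _ h1.symm with h2 | h2
  · exfalso
    by_cases hd : derivative m = 0
    · rw [eq_C_of_derivative_eq_zero hd, aeval_C] at hm
      have h3 : m.coeff 0 = 0 := hinj (by rw [hm, map_zero])
      rw [eq_C_of_derivative_eq_zero hd, h3, C_0] at hm0
      exact hm0 rfl
    · have h3 := hmin _ ⟨hd, h2⟩
      have h4 : (derivative m).natDegree < m.natDegree := by
        apply natDegree_derivative_lt
        intro h5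
        exact hd (derivative_eq_zero.mpr h5)
      omega
  · exact h2

end deriv

section grad

variable {k : Type u} [Field k] [CharZero k] {ι : Type w} [Fintype ι] [DecidableEq ι]
variable {L : Submodule k (ι → k)} {e : ι}
variable (K : Type v) [Field K] [Algebra k K] [Algebra (PRing L e) K]
  [IsScalarTower k (PRing L e) K]

omit [CharZero k] in
lemma derivation_uP (s : ℕ) (D : Derivation k (PRing L e) K) (i : ι) :
    D (uP s L e i) = (s : K) * algebraMap (PRing L e) K (xP L e i) ^ (s - 1) *
      algebraMap (PRing L e) K (wP L e i) * D (xP L e i) +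
      algebraMap (PRing L e) K (xP L e i) ^ s * D (wP L e i) := by
  rw [uP, Derivation.leibniz, Derivation.leibniz_pow, ← Nat.cast_smul_eq_nsmul (PRing L e),
    smul_smul, smul_smul, Algebra.smul_def, Algebra.smul_def, map_mul, map_mul, map_pow, map_pow,
    map_natCast]
  ring

/-- The gradient relation. -/
theorem grad_relation (s : ℕ) (hs : s ≠ 0) (hPK : Function.Injective (algebraMap (PRing L e) K))
    (_hdom : IsDomain (PRing L e))
    (hind : AlgebraicIndependent k (fun i : {i // i ≠ e} => uP s L e i))
    (halg : ∀ p : PRing L e, @IsAlgebraic (MvPolynomial {i // i ≠ e} k) (PRing L e) _ _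
      (uMap s L e).toRingHom.toAlgebra p)
    (F : MvPolynomial ι k) (hF : MvPolynomial.aeval (uP s L e) F = 0) (i : ι) :
    MvPolynomial.aeval (uP s L e) (MvPolynomial.pderiv i F) * xP L e i ^ s =
      MvPolynomial.aeval (uP s L e) (MvPolynomial.pderiv e F) * xP L e i := by
  have hs0 : (s : K) ≠ 0 := by
    have h1 : CharZero K := charZero_of_injective_algebraMap (algebraMap k K).injective
    exact_mod_cast hs
  have hCZ : CharZero K := charZero_of_injective_algebraMap (algebraMap k K).injective
  set X : ι → K := fun i => algebraMap (PRing L e) K (xP L e i) with hX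
  set W : ι → K := fun i => algebraMap (PRing L e) K (wP L e i) with hW
  set Fi : ι → K := fun i => algebraMap (PRing L e) K
    (MvPolynomial.aeval (uP s L e) (MvPolynomial.pderiv i F)) with hFi
  have hXe : X e = 1 := by
    change algebraMap (PRing L e) K (xP L e e) = 1
    rw [xP_e, map_one]
  have hXL : InExt L X := (inExt_xP L e).map (IsScalarTower.toAlgHom k (PRing L e) K)
  have hWL : InExt (perp L) W := (inExt_wP L e).map (IsScalarTower.toAlgHom k (PRing L e) K)
  have hpow : ∀ i, X i ^ s = X i ^ (s - 1) * X i := by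
    intro i
    rw [← pow_succ, Nat.sub_add_cancel (Nat.one_le_iff_ne_zero.mpr hs)]
  have hDF : ∀ D : Derivation k (PRing L e) K, ∑ i, Fi i * D (uP s L e i) = 0 := by
    intro D
    have h1 := derivation_aeval D (uP s L e) F
    rw [hF, map_zero] at h1
    rw [h1]
    refine Finset.sum_congr rfl (fun i _ => ?_)
    rw [Algebra.smul_def]
  -- first: `q ∈ L`
  have hq : InExt L (fun i => Fi i * X i ^ s) := by
    intro c hc
    obtain ⟨D, hD1, hD2⟩ := exists_derivation (L := L) (e := e) (K := K) (fun _ => 0)
      (fun i => algebraMap k K (c i)) (by intro c _; simp) (InExt.of_mem hc) rfl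
    rw [← hDF D]
    refine Finset.sum_congr rfl (fun i _ => ?_)
    rw [derivation_uP, hD1, hD2, Algebra.smul_def]
    ring
  have hqw : ∑ i, Fi i * X i ^ s * W i = 0 := hq.pairing hWL
  -- second: `q' ∈ L^⊥`
  have hq' : InExt (perp L) (fun i => Fi i * X i ^ (s - 1) * W i) := by
    rw [inExt_perp]
    intro y hy
    obtain ⟨D, hD1, hD2⟩ := exists_derivation (L := L) (e := e) (K := K)
      (fun i => algebraMap k K (y i) - algebraMap k K (y e) * X i)
      (fun _ => 0) ((InExt.of_mem hy).sub (hXL.smul _)) (by intro c _; simp)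
      (by rw [hXe, mul_one, sub_self])
    have h1 := hDF D
    have h2 : ∑ i, Fi i * D (uP s L e i) =
        (s : K) * (∑ i, y i • (Fi i * X i ^ (s - 1) * W i)) -
        (s : K) * algebraMap k K (y e) * ∑ i, Fi i * X i ^ s * W i := by
      rw [Finset.mul_sum, Finset.mul_sum, ← Finset.sum_sub_distrib]
      refine Finset.sum_congr rfl (fun i _ => ?_)
      rw [derivation_uP, hD1, hD2, Algebra.smul_def]
      change Fi i * (↑s * X i ^ (s - 1) * W i *
        ((algebraMap k K) (y i) - (algebraMap k K) (y e) * X i) + X i ^ s * 0) = _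
      rw [hpow]
      ring
    rw [h2, hqw, mul_zero, sub_zero] at h1
    exact (mul_eq_zero.mp h1).resolve_left hs0
  -- third: the derivation which kills everything
  obtain ⟨D, hD1, hD2⟩ := exists_derivation (L := L) (e := e) (K := K)
    (fun i => Fi i * X i ^ s - Fi e * X i)
    (fun i => -(s : K) * (Fi i * X i ^ (s - 1) * W i - Fi e * W i))
    (hq.sub (hXL.smul _)) ((hq'.sub (hWL.smul _)).smul _)
    (by rw [hXe, one_pow, mul_one, sub_self])
  have hDu : ∀ i, D (uP s L e i) = 0 := by
    intro i
    rw [derivation_uP, hD1, hD2]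
    change ↑s * X i ^ (s - 1) * W i * (Fi i * X i ^ s - Fi e * X i) +
      X i ^ s * (-↑s * (Fi i * X i ^ (s - 1) * W i - Fi e * W i)) = 0
    rw [hpow]
    ring
  have hDR : ∀ r : MvPolynomial {i // i ≠ e} k, D (uMap s L e r) = 0 := by
    intro r
    rw [uMap, derivation_aeval]
    exact Finset.sum_eq_zero (fun i _ => by rw [hDu, smul_zero])
  have hDx : D (xP L e i) = 0 := by
    let _ : Algebra (MvPolynomial {i // i ≠ e} k) (PRing L e) := (uMap s L e).toRingHom.toAlgebra
    have hcz : CharZero (MvPolynomial {i // i ≠ e} k) :=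
      charZero_of_injective_algebraMap (algebraMap k (MvPolynomial {i // i ≠ e} k)).injective
    exact derivation_eq_zero D hDR hind (fun a m h => by
      rw [Algebra.smul_def, mul_eq_zero] at h
      rcases h with h | h
      · exact Or.inl (hPK (by rw [h, map_zero]))
      · exact Or.inr h) _ (halg _)
  rw [hD1, sub_eq_zero] at hDx
  apply hPK
  rw [map_mul, map_mul, map_pow]
  exact hDx

end grad

end Pool.Agent.H24
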