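import Pool.Agent.H24.Mat

set_option autoImplicit false
set_option linter.unusedSectionVars false

namespace Pool.Agent.H24

open Module

universe u v w

section indep

open Polynomial in
/-- Injectivity can be checked after reduction. -/
lemma injective_of_reduction {R₀ P P' : Type*} [CommRing R₀] [IsDomain R₀] [CommRing P] [IsDomain P]
    [CommRing P'] (f : R₀[X] →+* P) (ψ : P →+* P') (hT : f X ≠ 0) (hψ : ψ (f X) = 0)
    (hinj : ∀ r : R₀, ψ (f (C r)) = 0 → r = 0) : Function.Injective f := by
  rw [injective_iff_map_eq_zero]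
  have key : ∀ n : ℕ, ∀ r : R₀[X], f r = 0 → X ^ n ∣ r := by
    intro n
    induction n with
    | zero => intro r _; rw [pow_zero]; exact one_dvd _
    | succ n ih =>
      intro r hr
      have h1 : r = X * r.divX + C (r.coeff 0) := (X_mul_divX_add r).symm
      have h2 : r.coeff 0 = 0 := by
        apply hinj
        have h3 : ψ (f r) = 0 := by rw [hr, map_zero]
        rw [h1, map_add, map_add, map_mul, map_mul, hψ, zero_mul, zero_add] at h3
        exact h3
      have h4 : r = X * r.divX := by
        conv_lhs => rw [h1, h2, C_0, add_zero]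
      have h5 : f (r.divX) = 0 := by
        rw [h4, map_mul] at hr
        exact (mul_eq_zero.mp hr).resolve_left hT
      rw [h4, pow_succ, mul_comm]
      exact mul_dvd_mul_left _ (ih _ h5)
  intro r hr
  have h1 := key (r.natDegree + 1) r hr
  by_contra hne
  have h2 := natDegree_le_of_dvd h1 hne
  rw [natDegree_X_pow] at h2
  omega

variable {k : Type u} [Field k] {ι : Type w} [Fintype ι] [DecidableEq ι]
variable (L : Submodule k (ι → k)) (e j : ι) (hej : e ≠ j)

include hej in
open Polynomial in
lemma indep_of_reduction (s : ℕ) (hdom : IsDomain (PRing L e)) {P' : Type*} [CommRing P']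
    [Algebra k P'] (ψ : PRing L e →ₐ[k] P') (hT : uP s L e j ≠ 0) (hψ : ψ (uP s L e j) = 0)
    (hinj : Function.Injective (ψ.comp (uMap2 L e j s))) :
    AlgebraicIndependent k (fun i : {i // i ≠ e} => uP s L e i) := by
  classical
  let τ := {i // i ≠ e ∧ i ≠ j}
  let R₀ := MvPolynomial τ k
  let alg0 : Algebra R₀ (PRing L e) := (uMap2 L e j s).toRingHom.toAlgebra
  have halg0 : ∀ p : R₀, algebraMap R₀ (PRing L e) p = uMap2 L e j s p := fun _ => rfl
  let f : R₀[X] →+* PRing L e :=
    (Polynomial.aeval (uP s L e j) : R₀[X] →ₐ[R₀] PRing L e).toRingHom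
  have hf : ∀ r, f r = Polynomial.aeval (uP s L e j) r := fun _ => rfl
  have h1 : Function.Injective f := by
    apply injective_of_reduction f ψ.toRingHom
    · rw [hf, aeval_X]; exact hT
    · rw [hf, aeval_X]; exact hψ
    · intro r hr
      rw [hf, aeval_C, halg0] at hr
      exact hinj (by rw [map_zero]; exact hr)
  let E : MvPolynomial {i // i ≠ e} k ≃ₐ[k] R₀[X] :=
    (MvPolynomial.renameEquiv k (splitEquiv e j hej)).trans (MvPolynomial.optionEquivLeft k τ)
  have hE : ∀ a, f (E a) = uMap s L e a := by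
    intro a
    induction a using MvPolynomial.induction_on with
    | C c =>
      have h2 : E (MvPolynomial.C c) = Polynomial.C (MvPolynomial.C c) := by
        change MvPolynomial.optionEquivLeft k τ (MvPolynomial.rename _ (MvPolynomial.C c)) = _
        rw [MvPolynomial.rename_C, MvPolynomial.optionEquivLeft_C]
      rw [h2, hf, aeval_C, halg0, uMap2, uMap, MvPolynomial.aeval_C, MvPolynomial.aeval_C]
    | add p q hp hq => rw [map_add, map_add, map_add, hp, hq]
    | mul_X p i hp =>
      rw [map_mul, map_mul, map_mul, hp]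
      congr 1
      have h1 : (E (MvPolynomial.X i)) = MvPolynomial.optionEquivLeft k τ
          (MvPolynomial.X (splitEquiv e j hej i)) := by
        change MvPolynomial.optionEquivLeft k τ (MvPolynomial.rename _ (MvPolynomial.X i)) = _
        rw [MvPolynomial.rename_X]
      rw [h1, uMap, MvPolynomial.aeval_X, hf]
      by_cases hi : (i : ι) = j
      · have h2 : i = ⟨j, hej.symm⟩ := Subtype.ext hi
        rw [h2, splitEquiv_j, MvPolynomial.optionEquivLeft_X_none, Polynomial.aeval_X]
      · rw [splitEquiv_ne e j hej i hi, MvPolynomial.optionEquivLeft_X_some, Polynomial.aeval_C,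
          halg0, uMap2, MvPolynomial.aeval_X]
  intro a b hab
  have h2 : f (E a) = f (E b) := by rw [hE, hE]; exact hab
  exact E.injective (h1 h2)

lemma uMap2_del (s : ℕ) (c : ι → k) (hc : c ∈ perp L) (hcj : c j = 1) :
    ((delMap L e j hej c hc hcj).comp (uMap2 L e j s)) =
      (uMap s (del L j) ⟨e, hej⟩).comp (MvPolynomial.rename (minorEquiv e j hej)) := by
  apply MvPolynomial.algHom_ext
  intro i
  rw [AlgHom.comp_apply, AlgHom.comp_apply, uMap2, uMap, MvPolynomial.aeval_X,
    MvPolynomial.rename_X, MvPolynomial.aeval_X, uP, uP, map_mul, map_pow,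
    delMap_x L e j hej c hc hcj ⟨i, i.2.2⟩, delMap_w L e j hej c hc hcj ⟨i, i.2.2⟩]
  rfl

lemma uMap2_con (s : ℕ) (y₁ : ι → k) (hy₁ : y₁ ∈ L) (hy₁j : y₁ j = 1) :
    ((conMap L e j hej y₁ hy₁ hy₁j).comp (uMap2 L e j s)) =
      (uMap s (con L j) ⟨e, hej⟩).comp (MvPolynomial.rename (minorEquiv e j hej)) := by
  apply MvPolynomial.algHom_ext
  intro i
  rw [AlgHom.comp_apply, AlgHom.comp_apply, uMap2, uMap, MvPolynomial.aeval_X,
    MvPolynomial.rename_X, MvPolynomial.aeval_X, uP, uP, map_mul, map_pow,
    conMap_x L e j hej y₁ hy₁ hy₁j ⟨i, i.2.2⟩, conMap_w L e j hej y₁ hy₁ hy₁j ⟨i, i.2.2⟩]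
  rfl

lemma nonloop_del (he : ∃ y ∈ L, y e ≠ 0) : ∃ y ∈ del L j, y ⟨e, hej⟩ ≠ 0 := by
  obtain ⟨y, hy, hye⟩ := he
  exact ⟨resj k j y, ⟨y, hy, rfl⟩, hye⟩

/-- Algebraic independence for connected matroids. -/
theorem indep_of_conn (s : ℕ) (hs : s ≠ 0) : ∀ (n : ℕ) {ι : Type w} [Fintype ι] [DecidableEq ι]
    (L : Submodule k (ι → k)) (e : ι), Fintype.card ι = n → Conn L → (∃ y ∈ L, y e ≠ 0) →
    AlgebraicIndependent k (fun i : {i // i ≠ e} => uP s L e i) := by
  intro n
  induction n with
  | zero =>
    intro ι _ _ L e hcard _ _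
    rw [Fintype.card_eq_zero_iff] at hcard
    exact hcard.elim e
  | succ n ih =>
    intro ι _ _ L e hcard hconn he
    have hdom : IsDomain (PRing L e) := PRing.isDomain he
    by_cases hex : ∃ j, e ≠ j
    · obtain ⟨j, hej⟩ := hex
      have hjne : ({j}ᶜ : Set ι).Nonempty := ⟨e, by simpa using hej⟩
      have hcard' : Fintype.card {i // i ≠ j} = n := by
        rw [Fintype.card_subtype_compl, Fintype.card_subtype_eq, hcard]
        rfl
      have hcol := hconn.noncoloop j hjne
      obtain ⟨y, hy, hyj⟩ := hconn.nonloop j hjne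
      have hy₁ : (y j)⁻¹ • y ∈ L := L.smul_mem _ hy
      have hy₁j : ((y j)⁻¹ • y) j = 1 := by simp [hyj]
      obtain ⟨c, hc, hcj⟩ := exists_perp_of_single_notMem hcol
      have hx0 : xP L e j ≠ 0 := xP_ne_zero he j ⟨y, hy, hyj⟩
      have hw0 : wP L e j ≠ 0 := wP_ne_zero he j ⟨c, hc, by rw [hcj]; exact one_ne_zero⟩
      have hT : uP s L e j ≠ 0 := mul_ne_zero (pow_ne_zero _ hx0) hw0
      by_cases hdel : Conn (del L j)
      · have h1 : Function.Injective (uMap s (del L j) ⟨e, hej⟩) :=
          ih (del L j) ⟨e, hej⟩ hcard' hdel (nonloop_del L e j hej he)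
        apply indep_of_reduction L e j hej s hdom (delMap L e j hej c hc hcj) hT
        · rw [uP, map_mul, delMap_wj, mul_zero]
        · rw [uMap2_del]
          rw [AlgHom.coe_comp]
          exact h1.comp (MvPolynomial.rename_injective _ (minorEquiv e j hej).injective)
      · have hcon : Conn (con L j) := (hconn.minor j hjne).resolve_left hdel
        have hne : ({(⟨e, hej⟩ : {i // i ≠ j})}ᶜ : Set {i // i ≠ j}).Nonempty := by
          by_contra hem
          rw [Set.not_nonempty_iff_eq_empty, Set.compl_empty_iff] at hem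
          apply hdel
          intro S hS hS'
          obtain ⟨a, ha⟩ := hS
          obtain ⟨b, hb⟩ := hS'
          have ha' : a ∈ ({(⟨e, hej⟩ : {i // i ≠ j})} : Set {i // i ≠ j}) := by
            rw [hem]; exact Set.mem_univ _
          have hb' : b ∈ ({(⟨e, hej⟩ : {i // i ≠ j})} : Set {i // i ≠ j}) := by
            rw [hem]; exact Set.mem_univ _
          rw [Set.mem_singleton_iff] at ha' hb'
          rw [ha'] at ha
          rw [hb'] at hb
          exact absurd ha hb
        have h1 : Function.Injective (uMap s (con L j) ⟨e, hej⟩) :=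
          ih (con L j) ⟨e, hej⟩ hcard' hcon (hcon.nonloop _ hne)
        apply indep_of_reduction L e j hej s hdom (conMap L e j hej _ hy₁ hy₁j) hT
        · rw [uP, map_mul, map_pow, conMap_xj, zero_pow hs, zero_mul]
        · rw [uMap2_con]
          rw [AlgHom.coe_comp]
          exact h1.comp (MvPolynomial.rename_injective _ (minorEquiv e j hej).injective)
    · push Not at hex
      have hemp : IsEmpty {i // i ≠ e} := ⟨fun i => i.2 (hex i).symm⟩
      rw [algebraicIndependent_empty_type_iff]
      exact (algebraMap k (PRing L e)).injective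

end indep

end Pool.Agent.H24
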