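import Mathlib

/-!
# The degree of the dual variety of a reciprocal linear space

For linear forms `ℓ_0, …, ℓ_n` on `ℂ^{d+1}` which span the dual space and whose matroid is
connected, the dual variety of the reciprocal linear space is an irreducible hypersurface of
degree `2 ^ d * β`.
-/

set_option autoImplicit false

namespace Pool.Agent.H24.DualDegree

open Module MvPolynomial

/-- The rank function `r(S) = dim span {ℓ_i : i ∈ S}` of the matroid represented by
`ℓ_0, …, ℓ_n`. -/
noncomputable def rk {d n : ℕ} (l : Fin (n + 1) → Dual ℂ (Fin (d + 1) → ℂ))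
    (S : Finset (Fin (n + 1))) : ℕ :=
  finrank ℂ (Submodule.span ℂ (l '' (S : Set (Fin (n + 1)))))

/-- The matroid is connected: there is no separator, that is, no subset `S` other than the empty
set and the whole ground set `E` with `r(S) + r(E \ S) = r(E)`. -/
def IsConnectedMatroid {d n : ℕ} (l : Fin (n + 1) → Dual ℂ (Fin (d + 1) → ℂ)) : Prop :=
  ∀ S : Finset (Fin (n + 1)), S ≠ ∅ → S ≠ Finset.univ →
    rk l S + rk l (Finset.univ \ S) ≠ rk l Finset.univ

/-- The beta invariant `β = (-1)^{r(E)} ∑_S (-1)^{|S|} r(S)`. -/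
noncomputable def beta {d n : ℕ} (l : Fin (n + 1) → Dual ℂ (Fin (d + 1) → ℂ)) : ℤ :=
  (-1) ^ rk l Finset.univ * ∑ S : Finset (Fin (n + 1)), (-1) ^ S.card * (rk l S : ℤ)

/-- Complex projective space `ℙⁿ`. -/
abbrev PSpace (n : ℕ) : Type := Projectivization ℂ (Fin (n + 1) → ℂ)

/-- `f` is a homogeneous polynomial which vanishes at every point of `X ⊆ ℙⁿ`. -/
def VanishesOn {n : ℕ} (f : MvPolynomial (Fin (n + 1)) ℂ) (X : Set (PSpace n)) : Prop :=
  (∃ m : ℕ, f.IsHomogeneous m) ∧ ∀ p ∈ X, eval p.rep f = 0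

/-- The Zariski closure of a subset of `ℙⁿ`: the common zeros of all homogeneous polynomials
which vanish on it. -/
def zariskiClosure {n : ℕ} (X : Set (PSpace n)) : Set (PSpace n) :=
  {p | ∀ f : MvPolynomial (Fin (n + 1)) ℂ, VanishesOn f X → eval p.rep f = 0}

/-- The homogeneous ideal of `X ⊆ ℙⁿ`. -/
noncomputable def homIdeal {n : ℕ} (X : Set (PSpace n)) : Ideal (MvPolynomial (Fin (n + 1)) ℂ) :=
  Ideal.span {f | VanishesOn f X}

/-- The reciprocal linear space `L⁻¹ ⊆ ℙⁿ`: the Zariski closure of the set of the points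
`(ℓ_0(t)⁻¹ : … : ℓ_n(t)⁻¹)` with all `ℓ_i(t) ≠ 0`. -/
def recipSpace {d n : ℕ} (l : Fin (n + 1) → Dual ℂ (Fin (d + 1) → ℂ)) : Set (PSpace n) :=
  zariskiClosure {p | ∃ t : Fin (d + 1) → ℂ, (∀ i, l i t ≠ 0) ∧
    ∃ h : (fun i => (l i t)⁻¹) ≠ 0, p = Projectivization.mk ℂ (fun i => (l i t)⁻¹) h}

/-- The embedded tangent space of `X ⊆ ℙⁿ` at `p`, as a linear subspace of `ℂ^{n+1}`: all `v` with
`∑ (∂f/∂y_i)(p) v_i = 0` for every homogeneous `f` which vanishes on `X`. -/
noncomputable def embTangent {n : ℕ} (X : Set (PSpace n)) (p : PSpace n) :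
    Submodule ℂ (Fin (n + 1) → ℂ) where
  carrier := {v | ∀ f : MvPolynomial (Fin (n + 1)) ℂ, VanishesOn f X →
    ∑ i, eval p.rep (pderiv i f) * v i = 0}
  add_mem' := by
    intro a b ha hb f hf
    have h1 := ha f hf
    have h2 := hb f hf
    simp only [Pi.add_apply, mul_add, Finset.sum_add_distrib]
    rw [h1, h2, add_zero]
  zero_mem' := by
    intro f _
    simp
  smul_mem' := by
    intro c a ha f hf
    have h1 := ha f hf
    have h2 : ∑ i, eval p.rep (pderiv i f) * (c • a) i =
        c * ∑ i, eval p.rep (pderiv i f) * a i := by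
      rw [Finset.mul_sum]
      refine Finset.sum_congr rfl (fun i _ => ?_)
      rw [Pi.smul_apply, smul_eq_mul]
      ring
    rw [h2, h1, mul_zero]

/-- `p` is a smooth point of the irreducible projective variety `X`: the dimension of the
embedded tangent space (as a linear subspace of `ℂ^{n+1}`) is `dim X + 1`, the transcendence
degree over `ℂ` of the homogeneous coordinate ring of `X`. -/
def IsSmoothPoint {n : ℕ} (X : Set (PSpace n)) (p : PSpace n) : Prop :=
  p ∈ X ∧ (finrank ℂ (embTangent X p) : Cardinal) =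
    Algebra.trdeg ℂ (MvPolynomial (Fin (n + 1)) ℂ ⧸ homIdeal X)

/-- The dual variety `∇(X)`: the Zariski closure in the dual projective space of the set of
hyperplanes `h = {∑ h_i y_i = 0}` which are tangent to `X` at some smooth point `p`, that is,
contain the embedded tangent space of `X` at `p`. -/
def dualVariety {n : ℕ} (X : Set (PSpace n)) : Set (PSpace n) :=
  zariskiClosure {h | ∃ p, IsSmoothPoint X p ∧ ∀ v ∈ embTangent X p, ∑ i, h.rep i * v i = 0}

/-- `X ⊆ ℙⁿ` is an irreducible hypersurface of degree `D`: the zero set of an irreducible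
homogeneous polynomial of degree `D`. -/
def IsIrreducibleHypersurface {n : ℕ} (X : Set (PSpace n)) (D : ℕ) : Prop :=
  ∃ F : MvPolynomial (Fin (n + 1)) ℂ, Irreducible F ∧ F.IsHomogeneous D ∧
    X = {p | eval p.rep F = 0}

end Pool.Agent.H24.DualDegree
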