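import Pool.Agent.H24.Geo
import Pool.Agent.H24.DualDefs

set_option autoImplicit false

namespace Pool.Agent.H24.DualDegree

open Module MvPolynomial

/-! ### The matroid -/

section matroid

variable {d n : ℕ} (l : Fin (n + 1) → Dual ℂ (Fin (d + 1) → ℂ))

/-- The linear map `t ↦ (ℓ_i(t))`. -/
def LMap : (Fin (d + 1) → ℂ) →ₗ[ℂ] (Fin (n + 1) → ℂ) := LinearMap.pi l

lemma LMap_apply (t : Fin (d + 1) → ℂ) (i : Fin (n + 1)) : LMap l t i = l i t := rfl

/-- The linear space. -/
def LSpace : Submodule ℂ (Fin (n + 1) → ℂ) := LinearMap.range (LMap l)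

variable {l} (hspan : Submodule.span ℂ (Set.range l) = ⊤)

include hspan

lemma LMap_injective : Function.Injective (LMap l) := by
  rw [← LinearMap.ker_eq_bot, LinearMap.ker_eq_bot']
  intro t ht
  rw [← Module.forall_dual_apply_eq_zero_iff ℂ]
  intro φ
  have hφ : φ ∈ Submodule.span ℂ (Set.range l) := by rw [hspan]; trivial
  induction hφ using Submodule.span_induction with
  | mem x hx =>
    obtain ⟨i, rfl⟩ := hx
    exact congrFun ht i
  | zero => rfl
  | add x y _ _ hx hy => rw [LinearMap.add_apply, hx, hy, add_zero]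
  | smul a x _ hx => rw [LinearMap.smul_apply, hx, smul_zero]

lemma finrank_LSpace : finrank ℂ (LSpace l) = d + 1 := by
  rw [LSpace, LinearMap.finrank_range_of_inj (LMap_injective hspan)]
  simp

lemma rk_add_kd (S : Finset (Fin (n + 1))) :
    rk l S + Pool.Agent.H24.kd (LSpace l) (S : Set (Fin (n + 1))) = d + 1 := by
  have h1 := Subspace.finrank_add_finrank_dualCoannihilator_eq
    (Submodule.span ℂ (l '' (S : Set (Fin (n + 1)))))
  have h2 : finrank ℂ (Fin (d + 1) → ℂ) = d + 1 := by simp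
  have h3 : LSpace l ⊓ Pool.Agent.H24.supported (S : Set (Fin (n + 1)))ᶜ =
      (Submodule.span ℂ (l '' (S : Set (Fin (n + 1))))).dualCoannihilator.map (LMap l) := by
    ext y
    constructor
    · rintro ⟨⟨t, rfl⟩, ht⟩
      refine ⟨t, ?_, rfl⟩
      rw [SetLike.mem_coe, Submodule.mem_dualCoannihilator]
      intro φ hφ
      induction hφ using Submodule.span_induction with
      | mem x hx =>
        obtain ⟨i, hi, rfl⟩ := hx
        exact ht i (fun h => h hi)
      | zero => rfl
      | add x y _ _ hx hy => rw [LinearMap.add_apply, hx, hy, add_zero]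
      | smul a x _ hx => rw [LinearMap.smul_apply, hx, smul_zero]
    · rintro ⟨t, ht, rfl⟩
      refine ⟨⟨t, rfl⟩, ?_⟩
      intro i hi
      rw [SetLike.mem_coe, Submodule.mem_dualCoannihilator] at ht
      rw [Set.mem_compl_iff, not_not] at hi
      exact ht (l i) (Submodule.subset_span ⟨i, hi, rfl⟩)
  have h4 : finrank ℂ ((Submodule.span ℂ (l '' (S : Set (Fin (n + 1))))).dualCoannihilator.map
      (LMap l)) = finrank ℂ (Submodule.span ℂ (l '' (S : Set (Fin (n + 1))))).dualCoannihilator :=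
    ((Submodule.equivMapOfInjective (LMap l) (LMap_injective hspan) _).finrank_eq).symm
  rw [Pool.Agent.H24.kd, h3, h4, rk]
  rw [h2] at h1
  exact h1

lemma conn (hconn : IsConnectedMatroid l) : Pool.Agent.H24.Conn (LSpace l) := by
  classical
  intro S hS hS'
  have h1 := Pool.Agent.H24.kd_super (LSpace l) S Sᶜ
  rw [Set.inter_compl_self, Set.union_compl_self, Pool.Agent.H24.kd_empty,
    Pool.Agent.H24.kd_univ, add_zero] at h1
  refine lt_of_le_of_ne h1 ?_
  intro h2
  have e1 : ((S.toFinset : Finset (Fin (n + 1))) : Set (Fin (n + 1))) = S := Set.coe_toFinset S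
  have e2 : (((S.toFinset)ᶜ : Finset (Fin (n + 1))) : Set (Fin (n + 1))) = Sᶜ := by
    rw [Finset.coe_compl, e1]
  have e3 := rk_add_kd hspan S.toFinset
  have e4 := rk_add_kd hspan (S.toFinset)ᶜ
  have e5 := rk_add_kd hspan Finset.univ
  rw [e1] at e3
  rw [e2] at e4
  rw [Finset.coe_univ, Pool.Agent.H24.kd_univ] at e5
  rw [finrank_LSpace hspan] at h2
  have hne1 : S.toFinset ≠ ∅ := by
    obtain ⟨a, ha⟩ := hS
    exact Finset.ne_empty_of_mem (Set.mem_toFinset.mpr ha)
  have hne2 : S.toFinset ≠ Finset.univ := by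
    obtain ⟨a, ha⟩ := hS'
    intro h
    apply ha
    rw [← Set.mem_toFinset, h]
    exact Finset.mem_univ a
  apply hconn S.toFinset hne1 hne2
  rw [← Finset.compl_eq_univ_sdiff]
  omega

lemma beta_eq : beta l = Pool.Agent.H24.beta (LSpace l) := by
  have e5 := rk_add_kd hspan Finset.univ
  rw [Finset.coe_univ, Pool.Agent.H24.kd_univ, add_zero] at e5
  rw [beta, Pool.Agent.H24.beta, finrank_LSpace hspan, e5]
  have h1 : ∑ S : Finset (Fin (n + 1)), (-1 : ℤ) ^ S.card = 0 := by
    rw [← Finset.powerset_univ]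
    exact Finset.sum_powerset_neg_one_pow_card_of_nonempty Finset.univ_nonempty
  have h2 : ∑ S : Finset (Fin (n + 1)), (-1 : ℤ) ^ S.card * (rk l S : ℤ) =
      ((d : ℤ) + 1) * (∑ S : Finset (Fin (n + 1)), (-1 : ℤ) ^ S.card) -
      ∑ S : Finset (Fin (n + 1)), (-1 : ℤ) ^ S.card *
        (Pool.Agent.H24.kd (LSpace l) (S : Set (Fin (n + 1))) : ℤ) := by
    rw [Finset.mul_sum, ← Finset.sum_sub_distrib]
    refine Finset.sum_congr rfl (fun S _ => ?_)
    have h3 := rk_add_kd hspan S
    have h4 : (rk l S : ℤ) = (d : ℤ) + 1 -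
        (Pool.Agent.H24.kd (LSpace l) (S : Set (Fin (n + 1))) : ℤ) := by
      have h5 : ((rk l S + Pool.Agent.H24.kd (LSpace l) (S : Set (Fin (n + 1))) : ℕ) : ℤ) =
        ((d + 1 : ℕ) : ℤ) := by rw [h3]
      push_cast at h5
      linarith
    rw [h4]
    ring
  rw [h2, h1, mul_zero, zero_sub, pow_succ ((-1 : ℤ)) (d + 1)]
  ring

lemma noloops (hconn : IsConnectedMatroid l) : ∀ i, ∃ y ∈ LSpace l, y i ≠ 0 := by
  intro i
  by_cases hne : ({i}ᶜ : Set (Fin (n + 1))).Nonempty
  · exact (conn hspan hconn).nonloop i hne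
  · have h1 : 0 < finrank ℂ (LSpace l) := by rw [finrank_LSpace hspan]; omega
    obtain ⟨⟨y, hy⟩, hy0⟩ := Module.finrank_pos_iff_exists_ne_zero.mp h1
    refine ⟨y, hy, ?_⟩
    intro hyi
    apply hy0
    apply Subtype.ext
    funext j
    rw [Set.not_nonempty_iff_eq_empty, Set.compl_empty_iff] at hne
    have hj : j ∈ ({i} : Set (Fin (n + 1))) := by rw [hne]; exact Set.mem_univ j
    rw [Set.mem_singleton_iff] at hj
    rw [hj]
    exact hyi

end matroid

/-! ### Projective geometry -/

section proj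

variable {n : ℕ}

lemma exists_rep (v : Fin (n + 1) → ℂ) (hv : v ≠ 0) :
    ∃ a : ℂ, a ≠ 0 ∧ (Projectivization.mk ℂ v hv).rep = fun i => a * v i := by
  obtain ⟨a, ha⟩ := Projectivization.exists_smul_eq_mk_rep ℂ v hv
  refine ⟨a, a.ne_zero, ?_⟩
  rw [← ha]
  rfl

lemma eval_rep {f : MvPolynomial (Fin (n + 1)) ℂ} {m : ℕ} (hf : f.IsHomogeneous m)
    (v : Fin (n + 1) → ℂ) (hv : v ≠ 0) :
    eval (Projectivization.mk ℂ v hv).rep f = 0 ↔ eval v f = 0 := by
  obtain ⟨a, ha, hrep⟩ := exists_rep v hv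
  rw [hrep, Pool.Agent.H24.eval_scale hf, mul_eq_zero]
  constructor
  · rintro (h | h)
    · exact absurd h (pow_ne_zero _ ha)
    · exact h
  · intro h
    exact Or.inr h

lemma vanishesOn_closure {f : MvPolynomial (Fin (n + 1)) ℂ} {X : Set (PSpace n)} :
    VanishesOn f (zariskiClosure X) ↔ VanishesOn f X := by
  constructor
  · rintro ⟨h1, h2⟩
    exact ⟨h1, fun p hp => h2 p (fun g hg => hg.2 p hp)⟩
  · rintro ⟨h1, h2⟩
    exact ⟨h1, fun p hp => hp f ⟨h1, h2⟩⟩

variable {d : ℕ} (l : Fin (n + 1) → Dual ℂ (Fin (d + 1) → ℂ))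

/-- The set of reciprocal points. -/
def recipPoints : Set (PSpace n) :=
  {p | ∃ t : Fin (d + 1) → ℂ, (∀ i, l i t ≠ 0) ∧
    ∃ h : (fun i => (l i t)⁻¹) ≠ 0, p = Projectivization.mk ℂ (fun i => (l i t)⁻¹) h}

lemma inv_ne_zero' (x : Fin (n + 1) → ℂ) (hx : ∀ i, x i ≠ 0) : (fun i => (x i)⁻¹) ≠ 0 := by
  intro h
  exact inv_ne_zero (hx 0) (congrFun h 0)

lemma mk_mem_recipPoints (x : Fin (n + 1) → ℂ) (hx : x ∈ LSpace l) (hx0 : ∀ i, x i ≠ 0) :
    Projectivization.mk ℂ (fun i => (x i)⁻¹) (inv_ne_zero' x hx0) ∈ recipPoints l := by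
  obtain ⟨t, rfl⟩ := hx
  exact ⟨t, hx0, inv_ne_zero' _ hx0, rfl⟩

lemma vanishesOn_recip {f : MvPolynomial (Fin (n + 1)) ℂ} :
    VanishesOn f (recipSpace l) ↔
      (∃ m : ℕ, f.IsHomogeneous m) ∧ Pool.Agent.H24.VR (LSpace l) f := by
  rw [recipSpace, vanishesOn_closure]
  constructor
  · rintro ⟨⟨m, hm⟩, h2⟩
    refine ⟨⟨m, hm⟩, ?_⟩
    intro x hx hx0
    rw [← eval_rep hm _ (inv_ne_zero' x hx0)]
    exact h2 _ (mk_mem_recipPoints l x hx hx0)
  · rintro ⟨⟨m, hm⟩, h2⟩
    refine ⟨⟨m, hm⟩, ?_⟩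
    rintro p ⟨t, ht, h, rfl⟩
    rw [eval_rep hm]
    exact h2 _ ⟨t, rfl⟩ ht

/-- The tangent space at a reciprocal point. -/
lemma mem_embTangent (x : Fin (n + 1) → ℂ) (hx : x ∈ LSpace l) (hx0 : ∀ i, x i ≠ 0)
    (v : Fin (n + 1) → ℂ) :
    v ∈ embTangent (recipSpace l)
      (Projectivization.mk ℂ (fun i => (x i)⁻¹) (inv_ne_zero' x hx0)) ↔
    (fun i => x i ^ 2 * v i) ∈ LSpace l := by
  obtain ⟨a, ha, hrep⟩ := exists_rep (fun i => (x i)⁻¹) (inv_ne_zero' x hx0)
  have hscale : ∀ (f : MvPolynomial (Fin (n + 1)) ℂ) (m : ℕ), f.IsHomogeneous m →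
      ∑ i, eval (Projectivization.mk ℂ (fun i => (x i)⁻¹) (inv_ne_zero' x hx0)).rep
        (pderiv i f) * v i = a ^ (m - 1) * Pool.Agent.H24.dirD (fun i => (x i)⁻¹) v f := by
    intro f m hm
    rw [Pool.Agent.H24.dirD, Finset.mul_sum]
    refine Finset.sum_congr rfl (fun i _ => ?_)
    rw [hrep, Pool.Agent.H24.eval_scale (hm.pderiv), mul_assoc]
  constructor
  · intro hv
    apply Pool.Agent.H24.mem_of_dirD (LSpace l) x hx hx0
    intro c hc
    have h1 := Pool.Agent.H24.relPoly_isHomogeneous (k := ℂ) c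
    have h2 := hv (Pool.Agent.H24.relPoly c) ((vanishesOn_recip l).mpr
      ⟨⟨_, h1⟩, Pool.Agent.H24.relPoly_VR (LSpace l) c hc⟩)
    rw [hscale _ _ h1] at h2
    exact (mul_eq_zero.mp h2).resolve_left (pow_ne_zero _ ha)
  · intro hv f hf
    obtain ⟨⟨m, hm⟩, hVR⟩ := (vanishesOn_recip l).mp hf
    rw [hscale f m hm]
    have h1 := Pool.Agent.H24.dirD_eq_zero (LSpace l) hm hVR x hx hx0 _ hv
    have h2 : (fun i => (x i ^ 2 * v i) / x i ^ 2) = v := by
      funext i
      rw [mul_div_cancel_left₀ _ (pow_ne_zero 2 (hx0 i))]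
    rw [h2] at h1
    rw [h1, mul_zero]

lemma finrank_embTangent (hspan : Submodule.span ℂ (Set.range l) = ⊤)
    (x : Fin (n + 1) → ℂ) (hx : x ∈ LSpace l) (hx0 : ∀ i, x i ≠ 0) :
    finrank ℂ (embTangent (recipSpace l)
      (Projectivization.mk ℂ (fun i => (x i)⁻¹) (inv_ne_zero' x hx0))) = d + 1 := by
  let g : (Fin (n + 1) → ℂ) →ₗ[ℂ] (Fin (n + 1) → ℂ) :=
    { toFun := fun y i => y i / x i ^ 2
      map_add' := fun y z => by funext i; simp only [Pi.add_apply]; ring
      map_smul' := fun c y => by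
        funext i; simp only [Pi.smul_apply, smul_eq_mul, RingHom.id_apply]; ring }
  have hg : Function.Injective g := by
    intro y z hyz
    funext i
    have h1 : y i / x i ^ 2 = z i / x i ^ 2 := congrFun hyz i
    have h2 := pow_ne_zero 2 (hx0 i)
    rwa [div_left_inj' h2] at h1
  have h1 : embTangent (recipSpace l)
      (Projectivization.mk ℂ (fun i => (x i)⁻¹) (inv_ne_zero' x hx0)) = (LSpace l).map g := by
    ext v
    rw [mem_embTangent l x hx hx0]
    constructor
    · intro hv
      refine ⟨_, hv, ?_⟩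
      funext i
      change (x i ^ 2 * v i) / x i ^ 2 = v i
      rw [mul_div_cancel_left₀ _ (pow_ne_zero 2 (hx0 i))]
    · rintro ⟨y, hy, rfl⟩
      have h2 : (fun i => x i ^ 2 * g y i) = y := by
        funext i
        change x i ^ 2 * (y i / x i ^ 2) = y i
        rw [mul_div_cancel₀ _ (pow_ne_zero 2 (hx0 i))]
      rw [h2]
      exact hy
  rw [h1, ← finrank_LSpace hspan]
  exact ((Submodule.equivMapOfInjective g hg _).finrank_eq).symm

/-- Homogeneous components of a polynomial vanishing on the reciprocals vanish there too. -/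
lemma VR_component {f : MvPolynomial (Fin (n + 1)) ℂ} (hf : Pool.Agent.H24.VR (LSpace l) f)
    (m : ℕ) : Pool.Agent.H24.VR (LSpace l) (homogeneousComponent m f) := by
  intro x hx hx0
  have h1 : aeval (fun i => (Polynomial.X : Polynomial ℂ) * Polynomial.C ((x i)⁻¹)) f = 0 := by
    apply Polynomial.eq_zero_of_infinite_isRoot
    apply Set.Infinite.mono (s := {t : ℂ | t ≠ 0})
    · intro t ht
      rw [Set.mem_ofPred_eq, Polynomial.IsRoot.def]
      have h2 : Polynomial.eval t (aeval (fun i => (Polynomial.X : Polynomial ℂ) *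
          Polynomial.C ((x i)⁻¹)) f) = eval (fun i => (t⁻¹ * x i)⁻¹) f := by
        have h3 : (Polynomial.aeval t).comp (aeval (fun i => (Polynomial.X : Polynomial ℂ) *
            Polynomial.C ((x i)⁻¹)) : MvPolynomial (Fin (n + 1)) ℂ →ₐ[ℂ] Polynomial ℂ) =
            aeval (fun i => (t⁻¹ * x i)⁻¹) := by
          apply MvPolynomial.algHom_ext
          intro i
          rw [AlgHom.comp_apply, aeval_X, aeval_X, map_mul, Polynomial.aeval_X,
            Polynomial.aeval_C, mul_inv, inv_inv]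
          rfl
        have h4 := DFunLike.congr_fun h3 f
        rw [AlgHom.comp_apply, aeval_eq_eval] at h4
        exact h4
      rw [h2]
      exact hf _ ((LSpace l).smul_mem t⁻¹ hx) (fun i => mul_ne_zero (inv_ne_zero ht) (hx0 i))
    · exact Set.infinite_of_finite_compl (by
        have : {t : ℂ | t ≠ 0}ᶜ = {0} := by
          ext t
          simp
        rw [this]
        exact Set.finite_singleton 0)
  have h2 := Pool.Agent.H24.coeff_aeval_scale (k := ℂ) (fun i => (x i)⁻¹) f m
  rw [h1, Polynomial.coeff_zero, aeval_eq_eval] at h2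
  exact h2.symm

lemma mem_homIdeal {f : MvPolynomial (Fin (n + 1)) ℂ} :
    f ∈ homIdeal (recipSpace l) ↔ Pool.Agent.H24.VR (LSpace l) f := by
  constructor
  · intro hf x hx hx0
    induction hf using Submodule.span_induction with
    | mem g hg => exact ((vanishesOn_recip l).mp hg).2 x hx hx0
    | zero => rw [map_zero]
    | add a b _ _ ha hb => rw [map_add, ha, hb, add_zero]
    | smul a b _ hb => rw [smul_eq_mul, map_mul, hb, mul_zero]
  · intro hf
    rw [← MvPolynomial.sum_homogeneousComponent f]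
    apply Submodule.sum_mem
    intro m _
    apply Submodule.subset_span
    exact (vanishesOn_recip l).mpr
      ⟨⟨m, homogeneousComponent_isHomogeneous m f⟩, VR_component l hf m⟩

/-- The linear polynomial attached to a linear form. -/
noncomputable def linPoly : Dual ℂ (Fin (d + 1) → ℂ) →ₗ[ℂ] MvPolynomial (Fin (d + 1)) ℂ where
  toFun φ := ∑ j, C (φ (Pi.single j 1)) * X j
  map_add' φ ψ := by
    rw [← Finset.sum_add_distrib]
    refine Finset.sum_congr rfl (fun j _ => ?_)
    rw [LinearMap.add_apply, C_add, add_mul]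
  map_smul' c φ := by
    rw [RingHom.id_apply, Finset.smul_sum]
    refine Finset.sum_congr rfl (fun j _ => ?_)
    rw [LinearMap.smul_apply, smul_eq_mul, C_mul, mul_assoc, smul_eq_C_mul]

lemma eval_linPoly (φ : Dual ℂ (Fin (d + 1) → ℂ)) (t : Fin (d + 1) → ℂ) :
    eval t (linPoly φ) = φ t := by
  have h1 : t = ∑ j, t j • (Pi.single j (1 : ℂ) : Fin (d + 1) → ℂ) := by
    funext i
    rw [Finset.sum_apply, Finset.sum_eq_single i]
    · simp
    · intro j _ hj
      simp [Ne.symm hj]
    · simp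
  conv_rhs => rw [h1]
  rw [map_sum]
  change eval t (∑ j, C (φ (Pi.single j 1)) * X j) = _
  rw [map_sum]
  refine Finset.sum_congr rfl (fun j _ => ?_)
  rw [map_mul, eval_C, eval_X, map_smul, smul_eq_mul, mul_comm]

lemma trdeg_recip (hspan : Submodule.span ℂ (Set.range l) = ⊤)
    (hnl : ∀ i, ∃ y ∈ LSpace l, y i ≠ 0) :
    Algebra.trdeg ℂ (MvPolynomial (Fin (n + 1)) ℂ ⧸ homIdeal (recipSpace l)) =
      ((d + 1 : ℕ) : Cardinal) := by
  let lin : Fin (n + 1) → MvPolynomial (Fin (d + 1)) ℂ := fun i => linPoly (l i)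
  have hlin : ∀ i, lin i ≠ 0 := by
    intro i h0
    obtain ⟨_, ⟨t, rfl⟩, ht⟩ := hnl i
    apply ht
    rw [LMap_apply, ← eval_linPoly]
    change eval t (lin i) = 0
    rw [h0, map_zero]
  have hgen : ∀ j, X j ∈ Algebra.adjoin ℂ (Set.range lin) := by
    intro j
    have h1 : linPoly (d := d) (LinearMap.proj j) = X j := by
      change ∑ j', C ((LinearMap.proj j : (Fin (d + 1) → ℂ) →ₗ[ℂ] ℂ) (Pi.single j' 1)) * X j' = X j
      rw [Finset.sum_eq_single j]
      · simp
      · intro j' _ hj'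
        simp [Ne.symm hj']
      · simp
    rw [← h1]
    have h2 : (LinearMap.proj j : (Fin (d + 1) → ℂ) →ₗ[ℂ] ℂ) ∈
        Submodule.span ℂ (Set.range l) := by rw [hspan]; trivial
    have h3 : ∀ φ ∈ Submodule.span ℂ (Set.range l), linPoly φ ∈
        Algebra.adjoin ℂ (Set.range lin) := by
      intro φ hφ
      induction hφ using Submodule.span_induction with
      | mem x hx =>
        obtain ⟨i, rfl⟩ := hx
        exact Algebra.subset_adjoin ⟨i, rfl⟩
      | zero => rw [map_zero]; exact Subalgebra.zero_mem _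
      | add a b _ _ ha hb => rw [map_add]; exact Subalgebra.add_mem _ ha hb
      | smul a b _ hb => rw [map_smul]; exact Subalgebra.smul_mem _ hb a
    exact h3 _ h2
  have hker : homIdeal (recipSpace l) = RingHom.ker (Pool.Agent.H24.recMap lin) := by
    ext f
    rw [mem_homIdeal, RingHom.mem_ker, Pool.Agent.H24.recMap_eq_zero_iff lin hlin]
    simp only [lin, eval_linPoly]
    constructor
    · intro h t ht
      exact h _ ⟨t, rfl⟩ ht
    · rintro h _ ⟨t, rfl⟩ ht
      exact h t ht
  have e := (Ideal.quotientKerEquivRange (Pool.Agent.H24.recMap lin)).trdeg_eq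
  rw [hker]
  rw [e, Pool.Agent.H24.recMap_trdeg lin hgen, Pool.Agent.H24.trdeg_fractionRing_mvPolynomial]
  simp

lemma isSmoothPoint (hspan : Submodule.span ℂ (Set.range l) = ⊤)
    (hnl : ∀ i, ∃ y ∈ LSpace l, y i ≠ 0)
    (x : Fin (n + 1) → ℂ) (hx : x ∈ LSpace l) (hx0 : ∀ i, x i ≠ 0) :
    IsSmoothPoint (recipSpace l)
      (Projectivization.mk ℂ (fun i => (x i)⁻¹) (inv_ne_zero' x hx0)) := by
  refine ⟨fun f hf => hf.2 _ (mk_mem_recipPoints l x hx hx0), ?_⟩
  rw [finrank_embTangent l hspan x hx hx0, trdeg_recip l hspan hnl]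

/-- The gradient at a reciprocal point of a polynomial in the ideal. -/
lemma gradient_mem {f : MvPolynomial (Fin (n + 1)) ℂ} (hf : Pool.Agent.H24.VR (LSpace l) f)
    (x : Fin (n + 1) → ℂ) (hx : x ∈ LSpace l) (hx0 : ∀ i, x i ≠ 0) :
    ∃ w ∈ Pool.Agent.H24.perp (LSpace l),
      (fun i => eval (fun i => (x i)⁻¹) (pderiv i f)) = fun i => x i ^ 2 * w i := by
  refine ⟨fun i => eval (fun i => (x i)⁻¹) (pderiv i f) / x i ^ 2, ?_, ?_⟩
  · intro z hz
    have h1 : Pool.Agent.H24.dirD (fun i => (x i)⁻¹) (fun i => z i / x i ^ 2) f = 0 := by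
      rw [← MvPolynomial.sum_homogeneousComponent f, Pool.Agent.H24.dirD_sum]
      refine Finset.sum_eq_zero (fun m _ => ?_)
      exact Pool.Agent.H24.dirD_eq_zero (LSpace l) (homogeneousComponent_isHomogeneous m f)
        (VR_component l hf m) x hx hx0 z hz
    rw [← h1, Pool.Agent.H24.dirD]
    refine Finset.sum_congr rfl (fun i _ => ?_)
    ring
  · funext i
    rw [mul_div_cancel₀ _ (pow_ne_zero 2 (hx0 i))]

end proj

/-- **Main theorem** (affirmative answer to Q1). Let `ℓ_0, …, ℓ_n` be linear forms on `ℂ^{d+1}`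
which span the dual space and whose matroid is connected. Then the dual variety of the
reciprocal linear space `L⁻¹` is an irreducible hypersurface of degree `2^d β`. -/
theorem main {d n : ℕ} (l : Fin (n + 1) → Dual ℂ (Fin (d + 1) → ℂ))
    (hspan : Submodule.span ℂ (Set.range l) = ⊤) (hconn : IsConnectedMatroid l) :
    ∃ D : ℕ, IsIrreducibleHypersurface (dualVariety (recipSpace l)) D ∧
      (D : ℤ) = 2 ^ d * beta l := by
  have hnl := noloops hspan hconn
  obtain ⟨F, N, hirr, hhom, hdeg, hdvd⟩ :=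
    Pool.Agent.H24.exists_hyp (L := LSpace l) (e := (0 : Fin (n + 1))) hnl (conn hspan hconn)
  refine ⟨N, ⟨F, hirr, hhom, ?_⟩, ?_⟩
  swap
  · rw [hdeg, finrank_LSpace hspan, beta_eq hspan, Nat.add_sub_cancel]
  have hFker : aeval (Pool.Agent.H24.uP 2 (LSpace l) (0 : Fin (n + 1))) F = 0 :=
    (hdvd F).mpr dvd_rfl
  apply Set.Subset.antisymm
  · -- the dual variety is contained in the hypersurface
    intro h hh
    refine hh F ⟨⟨N, hhom⟩, ?_⟩
    rintro u ⟨p, ⟨hpX, _⟩, hu⟩
    -- `u` is a gradient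
    let S : Set (Fin (n + 1) → ℂ) :=
      {g | ∃ f, VanishesOn f (recipSpace l) ∧ g = fun i => eval p.rep (pderiv i f)}
    have h1 : embTangent (recipSpace l) p = Pool.Agent.H24.perp (Submodule.span ℂ S) := by
      ext v
      constructor
      · intro hv g hg
        induction hg using Submodule.span_induction with
        | mem g hg =>
          obtain ⟨f, hf, rfl⟩ := hg
          rw [← hv f hf]
          exact Finset.sum_congr rfl (fun i _ => mul_comm _ _)
        | zero => simp
        | add a b _ _ ha hb =>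
          simp only [Pi.add_apply, mul_add, Finset.sum_add_distrib]
          rw [ha, hb, add_zero]
        | smul c a _ ha =>
          have h2 : ∑ i, v i * (c • a) i = c * ∑ i, v i * a i := by
            rw [Finset.mul_sum]
            refine Finset.sum_congr rfl (fun i _ => ?_)
            rw [Pi.smul_apply, smul_eq_mul]
            ring
          rw [h2, ha, mul_zero]
      · intro hv f hf
        rw [← hv _ (Submodule.subset_span ⟨f, hf, rfl⟩)]
        exact Finset.sum_congr rfl (fun i _ => mul_comm _ _)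
    have h2 : u.rep ∈ Submodule.span ℂ S := by
      rw [← Pool.Agent.H24.perp_perp (Submodule.span ℂ S), ← h1]
      intro v hv
      exact hu v hv
    have h2' : ∀ g ∈ Submodule.span ℂ S, ∃ f ∈ homIdeal (recipSpace l),
        g = fun i => eval p.rep (pderiv i f) := by
      intro g hg
      induction hg using Submodule.span_induction with
      | mem g hg =>
        obtain ⟨f, hf, rfl⟩ := hg
        exact ⟨f, Submodule.subset_span hf, rfl⟩
      | zero => exact ⟨0, Submodule.zero_mem _, by funext i; simp⟩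
      | add a b _ _ ha hb =>
        obtain ⟨f, hf, rfl⟩ := ha
        obtain ⟨g, hg, rfl⟩ := hb
        exact ⟨f + g, Submodule.add_mem _ hf hg, by funext i; simp⟩
      | smul c a _ ha =>
        obtain ⟨f, hf, rfl⟩ := ha
        refine ⟨C c * f, Ideal.mul_mem_left _ _ hf, ?_⟩
        funext i
        rw [pderiv_C_mul, map_mul, eval_C]
        rfl
    obtain ⟨f, hf, hfu⟩ := h2' u.rep h2
    let H : MvPolynomial (Fin (n + 1)) ℂ := aeval (fun i => pderiv i f) F
    have hHeval : ∀ y : Fin (n + 1) → ℂ, eval y H = eval (fun i => eval y (pderiv i f)) F := by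
      intro y
      have h3 : (aeval y).comp (aeval (fun i => pderiv i f) :
          MvPolynomial (Fin (n + 1)) ℂ →ₐ[ℂ] MvPolynomial (Fin (n + 1)) ℂ) =
          aeval (fun i => eval y (pderiv i f)) := by
        apply MvPolynomial.algHom_ext
        intro i
        rw [AlgHom.comp_apply, aeval_X, aeval_X, aeval_eq_eval]
      have h4 := DFunLike.congr_fun h3 F
      rw [AlgHom.comp_apply, aeval_eq_eval, aeval_eq_eval] at h4
      exact h4
    have hH : H ∈ homIdeal (recipSpace l) := by
      rw [mem_homIdeal]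
      intro x hx hx0
      obtain ⟨w, hw, hgw⟩ := gradient_mem l ((mem_homIdeal l).mp hf) x hx hx0
      rw [hHeval, hgw]
      exact Pool.Agent.H24.eval_of_aeval_uP (LSpace l) 0 F hFker x hx hx0 w hw
    have hvan : ∀ g ∈ homIdeal (recipSpace l), eval p.rep g = 0 := by
      intro g hg
      induction hg using Submodule.span_induction with
      | mem g hg => exact hg.2 p hpX
      | zero => rw [map_zero]
      | add a b _ _ ha hb => rw [map_add, ha, hb, add_zero]
      | smul a b _ hb => rw [smul_eq_mul, map_mul, hb, mul_zero]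
    have h5 := hvan H hH
    rw [hHeval, ← hfu] at h5
    exact h5
  · -- the hypersurface is contained in the dual variety
    intro h hh G hG
    obtain ⟨⟨m, hm⟩, hGB⟩ := hG
    obtain ⟨i, hi⟩ : ∃ i, h.rep i ≠ 0 := by
      by_contra hcon
      push Not at hcon
      exact h.rep_nonzero (funext hcon)
    have h1 : aeval (Pool.Agent.H24.uP 2 (LSpace l) (0 : Fin (n + 1))) (G * X i) = 0 := by
      apply Pool.Agent.H24.aeval_uP_eq_zero (LSpace l) 0 hnl
      intro x hx hx0 w hw
      rw [map_mul, eval_X]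
      by_cases hu0 : (fun i => x i ^ 2 * w i) = 0
      · have h2 : x i ^ 2 * w i = 0 := congrFun hu0 i
        rw [h2, mul_zero]
      · have h2 := hGB (Projectivization.mk ℂ (fun i => x i ^ 2 * w i) hu0) ⟨_,
          isSmoothPoint l hspan hnl x hx hx0, by
            intro v hv
            rw [mem_embTangent l x hx hx0] at hv
            obtain ⟨a, ha, hrep⟩ := exists_rep (fun i => x i ^ 2 * w i) hu0
            rw [hrep]
            have h3 := hw _ hv
            have h4 : ∑ i, a * (x i ^ 2 * w i) * v i = a * ∑ i, w i * (x i ^ 2 * v i) := by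
              rw [Finset.mul_sum]
              exact Finset.sum_congr rfl (fun i _ => by ring)
            rw [h4, h3, mul_zero]⟩
        rw [eval_rep hm] at h2
        rw [h2, zero_mul]
    obtain ⟨q, hq⟩ := (hdvd _).mp h1
    have h2 : eval h.rep (G * X i) = 0 := by
      have hh' : eval h.rep F = 0 := hh
      rw [hq, map_mul, hh', zero_mul]
    rw [map_mul, eval_X] at h2
    exact (mul_eq_zero.mp h2).resolve_right hi

end Pool.Agent.H24.DualDegree
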