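import Pool.Agent.H24.Hyp

set_option autoImplicit false
set_option linter.unusedSectionVars false

namespace Pool.Agent.H24

open Module MvPolynomial

universe u v w

section geo

variable {k : Type u} [Field k] {ι : Type w} [Fintype ι] [DecidableEq ι]

omit [DecidableEq ι] in
lemma aeval_scale {A : Type*} [CommRing A] [Algebra k A] {f : MvPolynomial ι k} {m : ℕ}
    (hf : f.IsHomogeneous m) (c : A) (v : ι → A) :
    aeval (fun i => c * v i) f = c ^ m * aeval v f := by
  rw [aeval_def, aeval_def, eval₂_eq', eval₂_eq', Finset.mul_sum]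
  refine Finset.sum_congr rfl (fun d hd => ?_)
  have h1 : ∑ i, d i = m := by
    rw [← hf (mem_support_iff.mp hd), ← Finsupp.degree_eq_sum, Finsupp.degree_eq_weight_one]
    rfl
  simp_rw [mul_pow]
  rw [Finset.prod_mul_distrib, Finset.prod_pow_eq_pow_sum, h1]
  ring

omit [DecidableEq ι] in
lemma eval_scale {f : MvPolynomial ι k} {m : ℕ} (hf : f.IsHomogeneous m) (c : k) (v : ι → k) :
    eval (fun i => c * v i) f = c ^ m * eval v f := by
  have := aeval_scale (A := k) hf c v
  rw [aeval_eq_eval, aeval_eq_eval] at this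
  exact this

/-- `f` vanishes on the reciprocals of `L`. -/
def VR (L : Submodule k (ι → k)) (f : MvPolynomial ι k) : Prop :=
  ∀ x ∈ L, (∀ i, x i ≠ 0) → eval (fun i => (x i)⁻¹) f = 0

/-- Directional derivative at a point. -/
noncomputable def dirD (y v : ι → k) (f : MvPolynomial ι k) : k :=
  ∑ i, eval y (pderiv i f) * v i

lemma dirD_mul (y v : ι → k) (f g : MvPolynomial ι k) :
    dirD y v (f * g) = dirD y v f * eval y g + eval y f * dirD y v g := by
  unfold dirD
  rw [Finset.sum_mul, Finset.mul_sum, ← Finset.sum_add_distrib]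
  refine Finset.sum_congr rfl (fun i _ => ?_)
  rw [pderiv_mul, map_add, map_mul, map_mul]
  ring

lemma dirD_add (y v : ι → k) (f g : MvPolynomial ι k) :
    dirD y v (f + g) = dirD y v f + dirD y v g := by
  unfold dirD
  rw [← Finset.sum_add_distrib]
  refine Finset.sum_congr rfl (fun i _ => ?_)
  rw [map_add, map_add, add_mul]

lemma dirD_C_mul (y v : ι → k) (c : k) (f : MvPolynomial ι k) :
    dirD y v (C c * f) = c * dirD y v f := by
  unfold dirD
  rw [Finset.mul_sum]
  refine Finset.sum_congr rfl (fun i _ => ?_)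
  rw [pderiv_C_mul, map_mul, eval_C]
  ring

lemma dirD_sum {α : Type*} (s : Finset α) (y v : ι → k) (f : α → MvPolynomial ι k) :
    dirD y v (∑ a ∈ s, f a) = ∑ a ∈ s, dirD y v (f a) := by
  classical
  induction s using Finset.induction_on with
  | empty => simp [dirD]
  | insert a s ha ih => rw [Finset.sum_insert ha, Finset.sum_insert ha, dirD_add, ih]

lemma dirD_X (y v : ι → k) (i : ι) : dirD y v (X i) = v i := by
  unfold dirD
  rw [Finset.sum_eq_single i]
  · rw [pderiv_X_self, map_one, one_mul]
  · intro j _ hj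
    rw [pderiv_X_of_ne (Ne.symm hj), map_zero, zero_mul]
  · intro h
    exact absurd (Finset.mem_univ i) h

/-- The equation attached to a linear relation. -/
noncomputable def relPoly (c : ι → k) : MvPolynomial ι k :=
  ∑ i, C (c i) * ∏ j ∈ Finset.univ.erase i, X j

lemma relPoly_isHomogeneous (c : ι → k) : (relPoly c).IsHomogeneous (Fintype.card ι - 1) := by
  apply IsHomogeneous.sum
  intro i _
  apply IsHomogeneous.C_mul
  have h1 := IsHomogeneous.prod (R := k) (Finset.univ.erase i) (fun j : ι => X j) (fun _ => 1)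
    (fun j _ => isHomogeneous_X k j)
  rw [Finset.sum_const, Finset.card_erase_of_mem (Finset.mem_univ i), smul_eq_mul, mul_one] at h1
  exact h1

lemma prod_erase_eval (x : ι → k) (hx : ∀ i, x i ≠ 0) (i : ι) :
    eval (fun i => (x i)⁻¹) (∏ j ∈ Finset.univ.erase i, X j : MvPolynomial ι k) =
      (∏ j, (x j)⁻¹) * x i := by
  rw [map_prod]
  simp only [eval_X]
  rw [← Finset.mul_prod_erase Finset.univ (fun j => (x j)⁻¹) (Finset.mem_univ i)]
  have := hx i
  field_simp

lemma relPoly_VR (L : Submodule k (ι → k)) (c : ι → k) (hc : c ∈ perp L) : VR L (relPoly c) := by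
  intro x hx hx0
  have h1 := hc x hx
  rw [relPoly, map_sum]
  calc ∑ i, eval (fun i => (x i)⁻¹) (C (c i) * ∏ j ∈ Finset.univ.erase i, X j)
      = ∑ i, (∏ j, (x j)⁻¹) * (c i * x i) := by
        refine Finset.sum_congr rfl (fun i _ => ?_)
        rw [map_mul, eval_C, prod_erase_eval x hx0]
        ring
    _ = 0 := by rw [← Finset.mul_sum, h1, mul_zero]

lemma relPoly_dirD (L : Submodule k (ι → k)) (c : ι → k) (hc : c ∈ perp L) (x : ι → k)
    (hx : x ∈ L) (hx0 : ∀ i, x i ≠ 0) (v : ι → k) :
    dirD (fun i => (x i)⁻¹) v (relPoly c) = -(∏ j, (x j)⁻¹) * ∑ i, c i * (x i ^ 2 * v i) := by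
  set y : ι → k := fun i => (x i)⁻¹ with hy
  set δ := dirD y v (∏ j, X j) with hδ
  have h1 : ∀ i, dirD y v (∏ j ∈ Finset.univ.erase i, X j) =
      x i * δ - (∏ j, (x j)⁻¹) * (x i ^ 2 * v i) := by
    intro i
    have h2 : δ = v i * ((∏ j, (x j)⁻¹) * x i) +
        (x i)⁻¹ * dirD y v (∏ j ∈ Finset.univ.erase i, X j) := by
      rw [hδ, ← Finset.mul_prod_erase Finset.univ (fun j => (X j : MvPolynomial ι k))
        (Finset.mem_univ i), dirD_mul, dirD_X, eval_X, prod_erase_eval x hx0]
    rw [h2]
    have := hx0 i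
    field_simp
    ring
  rw [relPoly, dirD_sum]
  calc ∑ i, dirD y v (C (c i) * ∏ j ∈ Finset.univ.erase i, X j)
      = ∑ i, (δ * (c i * x i) - (∏ j, (x j)⁻¹) * (c i * (x i ^ 2 * v i))) := by
        refine Finset.sum_congr rfl (fun i _ => ?_)
        rw [dirD_C_mul, h1]
        ring
    _ = _ := by
        rw [Finset.sum_sub_distrib, ← Finset.mul_sum, ← Finset.mul_sum, hc x hx]
        ring

/-- The tangent space at a reciprocal point, first inclusion. -/
lemma mem_of_dirD (L : Submodule k (ι → k)) (x : ι → k) (hx : x ∈ L) (hx0 : ∀ i, x i ≠ 0)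
    (v : ι → k) (hv : ∀ c ∈ perp L, dirD (fun i => (x i)⁻¹) v (relPoly c) = 0) :
    (fun i => x i ^ 2 * v i) ∈ L := by
  rw [← perp_perp L, mem_perp]
  intro c hc
  have h1 := hv c hc
  rw [relPoly_dirD L c hc x hx hx0 v] at h1
  have h2 : (∏ j, (x j)⁻¹) ≠ 0 := Finset.prod_ne_zero_iff.mpr (fun i _ => inv_ne_zero (hx0 i))
  have h3 := (mul_eq_zero.mp h1).resolve_left (neg_ne_zero.mpr h2)
  rw [← h3]
  exact Finset.sum_congr rfl (fun i _ => mul_comm _ _)

/-- The tangent space at a reciprocal point, second inclusion. -/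
lemma dirD_eq_zero [Infinite k] (L : Submodule k (ι → k)) {f : MvPolynomial ι k} {m : ℕ}
    (hf : f.IsHomogeneous m) (hfL : VR L f) (x : ι → k) (hx : x ∈ L) (hx0 : ∀ i, x i ≠ 0)
    (z : ι → k) (hz : z ∈ L) :
    dirD (fun i => (x i)⁻¹) (fun i => z i / x i ^ 2) f = 0 := by
  let q : Polynomial k := ∏ j, (1 + Polynomial.C (z j / x j) * Polynomial.X)
  let y : ι → Polynomial k := fun i =>
    Polynomial.C (x i)⁻¹ * ∏ j ∈ Finset.univ.erase i, (1 + Polynomial.C (z j / x j) * Polynomial.X)
  have hyq : ∀ i, y i * (1 + Polynomial.C (z i / x i) * Polynomial.X) =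
      Polynomial.C (x i)⁻¹ * q := by
    intro i
    simp only [y, q]
    rw [← Finset.mul_prod_erase Finset.univ
      (fun j => (1 + Polynomial.C (z j / x j) * Polynomial.X : Polynomial k)) (Finset.mem_univ i)]
    ring
  have hq0 : q.eval 0 = 1 := by
    simp only [q]
    rw [Polynomial.eval_prod]
    simp
  have hq : q ≠ 0 := by
    intro h
    rw [h, Polynomial.eval_zero] at hq0
    exact zero_ne_one hq0
  have hevy : ∀ (t : k) (p : MvPolynomial ι k), (aeval y p).eval t =
      eval (fun i => (y i).eval t) p := by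
    intro t p
    have h1 : (Polynomial.aeval t).comp (aeval y : MvPolynomial ι k →ₐ[k] Polynomial k) =
        aeval (fun i => (y i).eval t) := by
      apply MvPolynomial.algHom_ext
      intro i
      rw [AlgHom.comp_apply, aeval_X, aeval_X]
      exact Polynomial.coe_aeval_eq_eval t ▸ rfl
    have h2 := DFunLike.congr_fun h1 p
    rw [AlgHom.comp_apply, aeval_eq_eval] at h2
    exact h2
  have hg : aeval y f = 0 := by
    have h1 : q * aeval y f = 0 := by
      apply Polynomial.funext
      intro t
      rw [Polynomial.eval_mul, Polynomial.eval_zero]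
      by_cases hqt : q.eval t = 0
      · rw [hqt, zero_mul]
      · have hfac : ∀ i, 1 + z i / x i * t ≠ 0 := by
          intro i h0
          apply hqt
          simp only [q]
          rw [Polynomial.eval_prod]
          apply Finset.prod_eq_zero (Finset.mem_univ i)
          simpa using h0
        have hmem : (fun i => x i + t * z i) ∈ L := L.add_mem hx (L.smul_mem t hz)
        have hne : ∀ i, x i + t * z i ≠ 0 := by
          intro i h0
          apply hfac i
          have := hx0 i
          field_simp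
          linear_combination h0
        have hval : (fun i => (y i).eval t) = fun i => q.eval t * (x i + t * z i)⁻¹ := by
          funext i
          have h2 := congrArg (Polynomial.eval t) (hyq i)
          simp only [Polynomial.eval_mul, Polynomial.eval_add, Polynomial.eval_one,
            Polynomial.eval_C, Polynomial.eval_X] at h2
          have h3 := hx0 i
          have h4 := hne i
          have h5 : x i + t * z i = x i * (1 + z i / x i * t) := by field_simp
          rw [h5, eq_mul_inv_iff_mul_eq₀ (mul_ne_zero h3 (hfac i))]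
          calc Polynomial.eval t (y i) * (x i * (1 + z i / x i * t))
              = x i * (Polynomial.eval t (y i) * (1 + z i / x i * t)) := by ring
            _ = x i * ((x i)⁻¹ * Polynomial.eval t q) := by rw [h2]
            _ = Polynomial.eval t q := by rw [← mul_assoc, mul_inv_cancel₀ h3, one_mul]
        rw [hevy, hval, eval_scale hf, hfL _ hmem hne, mul_zero, mul_zero]
    exact (mul_eq_zero.mp h1).resolve_left hq
  -- differentiate
  have hder := derivation_aeval (k := k) Polynomial.derivative' y f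
  rw [hg, map_zero] at hder
  have hder0 := congrArg (Polynomial.eval 0) hder
  rw [Polynomial.eval_zero, Polynomial.eval_finsetSum] at hder0
  have hy0 : (fun i => (y i).eval 0) = fun i => (x i)⁻¹ := by
    funext i
    have h2 := congrArg (Polynomial.eval 0) (hyq i)
    simp only [Polynomial.eval_mul, Polynomial.eval_add, Polynomial.eval_one,
      Polynomial.eval_C, Polynomial.eval_X, hq0, mul_zero, add_zero, mul_one] at h2
    exact h2
  have hy' : ∀ i, (Polynomial.derivative (y i)).eval 0 =
      (x i)⁻¹ * (Polynomial.derivative q).eval 0 - (x i)⁻¹ * (z i / x i) := by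
    intro i
    have h2 := congrArg (fun p => Polynomial.eval 0 (Polynomial.derivative p)) (hyq i)
    simp only [Polynomial.derivative_mul, Polynomial.derivative_add, Polynomial.derivative_one,
      Polynomial.derivative_C, Polynomial.derivative_X, Polynomial.eval_mul, Polynomial.eval_add,
      Polynomial.eval_one, Polynomial.eval_C, Polynomial.eval_X, mul_zero,
      add_zero, zero_mul, zero_add, mul_one] at h2
    have h3 : (y i).eval 0 = (x i)⁻¹ := congrFun hy0 i
    rw [h3] at h2
    linear_combination h2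
  have hE := congrArg (eval (fun i => (x i)⁻¹)) hf.sum_X_mul_pderiv
  rw [map_sum, map_nsmul, hfL x hx hx0, nsmul_zero] at hE
  simp only [map_mul, eval_X] at hE
  have hsum : ∑ i, eval (fun i => (x i)⁻¹) (pderiv i f) *
      ((x i)⁻¹ * (Polynomial.derivative q).eval 0 - (x i)⁻¹ * (z i / x i)) = 0 := by
    refine Eq.trans ?_ hder0.symm
    refine Finset.sum_congr rfl (fun i _ => ?_)
    rw [smul_eq_mul, Polynomial.eval_mul, hevy, hy0, ← hy']
    rfl
  have hfin : dirD (fun i => (x i)⁻¹) (fun i => z i / x i ^ 2) f =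
      (Polynomial.derivative q).eval 0 *
        (∑ i, (x i)⁻¹ * eval (fun i => (x i)⁻¹) (pderiv i f)) -
      ∑ i, eval (fun i => (x i)⁻¹) (pderiv i f) *
        ((x i)⁻¹ * (Polynomial.derivative q).eval 0 - (x i)⁻¹ * (z i / x i)) := by
    unfold dirD
    rw [Finset.mul_sum, ← Finset.sum_sub_distrib]
    refine Finset.sum_congr rfl (fun i _ => ?_)
    have := hx0 i
    field_simp
    ring
  rw [hfin, hE, hsum, mul_zero, sub_zero]

/-- Polynomials which vanish on `{x² w}` are in the kernel. -/
lemma aeval_uP_eq_zero [Infinite k] (L : Submodule k (ι → k)) (e : ι)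
    (hall : ∀ i, ∃ y ∈ L, y i ≠ 0) (G : MvPolynomial ι k)
    (hG : ∀ x ∈ L, (∀ i, x i ≠ 0) → ∀ w ∈ perp L, eval (fun i => x i ^ 2 * w i) G = 0) :
    aeval (uP 2 L e) G = 0 := by
  have hdom : IsDomain (PRing L e) := PRing.isDomain (hall e)
  obtain ⟨a, c, _, ⟨f⟩⟩ := PRing.exists_equiv (hall e)
  have h1 : f (aeval (uP 2 L e) G * ∏ i, xP L e i) = 0 := by
    apply MvPolynomial.funext
    intro τ
    rw [map_zero]
    let ev : PRing L e →ₐ[k] k := (MvPolynomial.aeval τ).comp (f : PRing L e →ₐ[k] _)
    have hev : ∀ p, eval τ (f p) = ev p := by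
      intro p
      change _ = MvPolynomial.aeval τ (f p)
      rw [aeval_eq_eval]
    rw [hev, map_mul, map_prod]
    have hx : (fun i => ev (xP L e i)) ∈ L := inExt_self.mp ((inExt_xP L e).map ev)
    have hw : (fun i => ev (wP L e i)) ∈ perp L := inExt_self.mp ((inExt_wP L e).map ev)
    by_cases h0 : ∀ i, ev (xP L e i) ≠ 0
    · have h2 := hG _ hx h0 _ hw
      have h3 : ev (aeval (uP 2 L e) G) =
          eval (fun i => ev (xP L e i) ^ 2 * ev (wP L e i)) G := by
        have h4 : ev.comp (aeval (uP 2 L e)) =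
            aeval (fun i => ev (xP L e i) ^ 2 * ev (wP L e i)) := by
          apply MvPolynomial.algHom_ext
          intro i
          rw [AlgHom.comp_apply, aeval_X, aeval_X, uP, map_mul, map_pow]
        have h5 := DFunLike.congr_fun h4 G
        rw [AlgHom.comp_apply, aeval_eq_eval] at h5
        exact h5
      rw [h3, h2, zero_mul]
    · push Not at h0
      obtain ⟨i, hi⟩ := h0
      rw [Finset.prod_eq_zero (Finset.mem_univ i) hi, mul_zero]
  have h2 : aeval (uP 2 L e) G * ∏ i, xP L e i = 0 := f.injective (by rw [h1, map_zero])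
  refine (mul_eq_zero.mp h2).resolve_right ?_
  exact Finset.prod_ne_zero_iff.mpr (fun i _ => xP_ne_zero (hall e) i (hall i))

lemma eval_of_aeval_uP (L : Submodule k (ι → k)) (e : ι) (G : MvPolynomial ι k)
    (hG : aeval (uP 2 L e) G = 0) (x : ι → k) (hx : x ∈ L) (hx0 : ∀ i, x i ≠ 0)
    (w : ι → k) (hw : w ∈ perp L) : eval (fun i => x i ^ 2 * w i) G = 0 := by
  have hx' : (fun i => (x e)⁻¹ * x i) ∈ L := L.smul_mem (x e)⁻¹ hx
  have hw' : (fun i => (x e) ^ 2 * w i) ∈ perp L := (perp L).smul_mem ((x e) ^ 2) hw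
  let ev : PRing L e →ₐ[k] k := liftP (fun i => (x e)⁻¹ * x i) (fun i => (x e) ^ 2 * w i)
    (inExt_self.mpr hx') (inExt_self.mpr hw') (inv_mul_cancel₀ (hx0 e))
  have h4 : ev.comp (aeval (uP 2 L e)) = aeval (fun i => x i ^ 2 * w i) := by
    apply MvPolynomial.algHom_ext
    intro i
    rw [AlgHom.comp_apply, aeval_X, aeval_X, uP, map_mul, map_pow, liftP_xP, liftP_wP]
    have := hx0 e
    field_simp
  have h5 := DFunLike.congr_fun h4 G
  rw [AlgHom.comp_apply, hG, map_zero, aeval_eq_eval] at h5
  exact h5.symm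

end geo

section trdeg

variable {k : Type u} [Field k] [Infinite k] {ι : Type w} [Fintype ι] [DecidableEq ι]
variable {κ : Type v} [Fintype κ] (lin : ι → MvPolynomial κ k)

/-- The map `y_i ↦ 1 / lin_i`. -/
noncomputable def recMap : MvPolynomial ι k →ₐ[k] FractionRing (MvPolynomial κ k) :=
  aeval (fun i => (algebraMap (MvPolynomial κ k) (FractionRing (MvPolynomial κ k)) (lin i))⁻¹)

lemma recMap_clear (hlin : ∀ i, lin i ≠ 0) (f : MvPolynomial ι k) :
    ∃ (N : ℕ) (g : MvPolynomial κ k),
      recMap lin f * algebraMap (MvPolynomial κ k) (FractionRing (MvPolynomial κ k))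
        (∏ i, lin i) ^ N = algebraMap _ _ g ∧
      ∀ t : κ → k, (∀ i, eval t (lin i) ≠ 0) →
        eval (fun i => (eval t (lin i))⁻¹) f * (∏ i, eval t (lin i)) ^ N = eval t g := by
  have hlin' : ∀ i, algebraMap (MvPolynomial κ k) (FractionRing (MvPolynomial κ k)) (lin i) ≠ 0 := by
    intro i h
    apply hlin i
    exact IsFractionRing.injective (MvPolynomial κ k) _ (by rw [h, map_zero])
  induction f using MvPolynomial.induction_on with
  | C c =>
    refine ⟨0, C c, ?_, fun t _ => ?_⟩
    · rw [recMap, aeval_C, pow_zero, mul_one, ← MvPolynomial.algebraMap_eq,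
        ← IsScalarTower.algebraMap_apply]
    · rw [eval_C, pow_zero, mul_one, eval_C]
  | add p q hp hq =>
    obtain ⟨N₁, g₁, h₁, h₁'⟩ := hp
    obtain ⟨N₂, g₂, h₂, h₂'⟩ := hq
    refine ⟨N₁ + N₂, g₁ * (∏ i, lin i) ^ N₂ + g₂ * (∏ i, lin i) ^ N₁, ?_, fun t ht => ?_⟩
    · rw [map_add, map_add, map_mul, map_mul, map_pow, map_pow, ← h₁, ← h₂]
      ring
    · rw [map_add, map_add, map_mul, map_mul, map_pow, map_pow, ← h₁' t ht, ← h₂' t ht, map_prod]
      ring
  | mul_X p i hp =>
    obtain ⟨N, g, h, h'⟩ := hp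
    refine ⟨N + 1, g * ∏ j ∈ Finset.univ.erase i, lin j, ?_, fun t ht => ?_⟩
    · rw [map_mul, map_mul, ← h, recMap, aeval_X, pow_succ]
      have h3 : algebraMap (MvPolynomial κ k) (FractionRing (MvPolynomial κ k)) (∏ i, lin i) =
          algebraMap _ _ (lin i) * algebraMap _ _ (∏ j ∈ Finset.univ.erase i, lin j) := by
        rw [← map_mul, Finset.mul_prod_erase Finset.univ lin (Finset.mem_univ i)]
      have h4 := hlin' i
      rw [h3]
      field_simp
    · rw [map_mul, map_mul, ← h' t ht, eval_X, pow_succ, map_prod,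
        ← Finset.mul_prod_erase Finset.univ (fun i => eval t (lin i)) (Finset.mem_univ i)]
      have h4 := ht i
      field_simp

lemma recMap_eq_zero_iff (hlin : ∀ i, lin i ≠ 0) (f : MvPolynomial ι k) :
    recMap lin f = 0 ↔ ∀ t : κ → k, (∀ i, eval t (lin i) ≠ 0) →
      eval (fun i => (eval t (lin i))⁻¹) f = 0 := by
  obtain ⟨N, g, h, h'⟩ := recMap_clear lin hlin f
  have hπ : (∏ i, lin i) ≠ 0 := Finset.prod_ne_zero_iff.mpr (fun i _ => hlin i)
  have hinj := IsFractionRing.injective (MvPolynomial κ k) (FractionRing (MvPolynomial κ k))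
  constructor
  · intro h0 t ht
    rw [h0, zero_mul] at h
    have hg : g = 0 := hinj (by rw [← h, map_zero])
    have h1 := h' t ht
    rw [hg, map_zero] at h1
    exact (mul_eq_zero.mp h1).resolve_right
      (pow_ne_zero _ (Finset.prod_ne_zero_iff.mpr (fun i _ => ht i)))
  · intro h0
    have hg : g * ∏ i, lin i = 0 := by
      apply MvPolynomial.funext
      intro t
      rw [map_zero, map_mul, map_prod]
      by_cases ht : ∀ i, eval t (lin i) ≠ 0
      · rw [← h' t ht, h0 t ht, zero_mul, zero_mul]
      · push Not at ht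
        obtain ⟨i, hi⟩ := ht
        rw [Finset.prod_eq_zero (Finset.mem_univ i) hi, mul_zero]
    have hg0 : g = 0 := (mul_eq_zero.mp hg).resolve_right hπ
    rw [hg0, map_zero] at h
    refine (mul_eq_zero.mp h).resolve_right (pow_ne_zero _ ?_)
    rw [map_ne_zero_iff _ hinj]
    exact hπ

/-- The transcendence degree of the ring generated by the reciprocals. -/
lemma recMap_trdeg
    (hgen : ∀ j : κ, X j ∈ Algebra.adjoin k (Set.range lin)) :
    Algebra.trdeg k (recMap lin).range = Algebra.trdeg k (FractionRing (MvPolynomial κ k)) := by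
  let K := FractionRing (MvPolynomial κ k)
  have hinj := IsFractionRing.injective (MvPolynomial κ k) K
  let S := (recMap lin).range
  have hSK : Algebra.IsAlgebraic S K := by
    have hlinalg : ∀ i, IsAlgebraic S (algebraMap (MvPolynomial κ k) K (lin i)) := by
      intro i
      have h1 : (algebraMap (MvPolynomial κ k) K (lin i))⁻¹ ∈ S := ⟨X i, by
        change recMap lin (X i) = _
        rw [recMap, aeval_X]⟩
      have h2 : IsAlgebraic S ((algebraMap (MvPolynomial κ k) K (lin i))⁻¹) :=
        isAlgebraic_algebraMap (⟨_, h1⟩ : S)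
      rw [← inv_inv (algebraMap (MvPolynomial κ k) K (lin i))]
      exact h2.inv
    have hlinalg' : ∀ p ∈ Algebra.adjoin k (Set.range lin),
        IsAlgebraic S (algebraMap (MvPolynomial κ k) K p) := by
      intro p hp
      induction hp using Algebra.adjoin_induction with
      | mem x hx =>
        obtain ⟨i, rfl⟩ := hx
        exact hlinalg i
      | algebraMap r =>
        rw [← IsScalarTower.algebraMap_apply k (MvPolynomial κ k) K,
          IsScalarTower.algebraMap_apply k S K]
        exact isAlgebraic_algebraMap _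
      | add x y _ _ hx hy => rw [map_add]; exact hx.add hy
      | mul x y _ _ hx hy => rw [map_mul]; exact hx.mul hy
    have htop : Algebra.adjoin k (Set.range lin) = ⊤ := by
      rw [eq_top_iff, ← MvPolynomial.adjoin_range_X, Algebra.adjoin_le_iff]
      rintro _ ⟨j, rfl⟩
      exact hgen j
    constructor
    intro z
    obtain ⟨p, q, _, rfl⟩ := IsFractionRing.div_surjective (A := MvPolynomial κ k) z
    rw [div_eq_mul_inv]
    exact (hlinalg' p (by rw [htop]; exact Algebra.mem_top)).mul
      (hlinalg' q (by rw [htop]; exact Algebra.mem_top)).inv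
  have h1 := trdeg_add_eq k S (A := K)
  have h2 : Algebra.trdeg S K = 0 := trdeg_eq_zero
  rw [h2, add_zero] at h1
  exact h1

lemma trdeg_fractionRing_mvPolynomial {κ : Type u} [Fintype κ] :
    Algebra.trdeg k (FractionRing (MvPolynomial κ k)) = (Fintype.card κ : Cardinal) := by
  have h1 := trdeg_add_eq k (MvPolynomial κ k) (A := FractionRing (MvPolynomial κ k))
  have h3 : Algebra.IsAlgebraic (MvPolynomial κ k) (FractionRing (MvPolynomial κ k)) :=
    IsLocalization.isAlgebraic (FractionRing (MvPolynomial κ k)) (nonZeroDivisors (MvPolynomial κ k))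
  have h2 : Algebra.trdeg (MvPolynomial κ k) (FractionRing (MvPolynomial κ k)) = 0 :=
    trdeg_eq_zero
  rw [h2, add_zero, MvPolynomial.trdeg_of_isDomain] at h1
  rw [← h1]
  simp

end trdeg

end Pool.Agent.H24
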