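import Pool.Agent.H24.Bir

set_option autoImplicit false
set_option linter.unusedSectionVars false

namespace Pool.Agent.H24

open Module

universe u v w

section general

/-- If an integral element generates the fraction field then the degree of its minimal polynomial
is the rank of the extension. -/
lemma natDegree_minpoly_eq_finrank {R₁ P : Type*} (K₁ K : Type*) [CommRing R₁] [IsDomain R₁]
    [IsIntegrallyClosed R₁] [CommRing P] [IsDomain P] [Algebra R₁ P] [Field K] [Algebra P K]
    [IsFractionRing P K] [Algebra R₁ K] [IsScalarTower R₁ P K] [Field K₁] [Algebra R₁ K₁]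
    [IsFractionRing R₁ K₁] [Algebra K₁ K] [IsScalarTower R₁ K₁ K] (w : P)
    (hw : IsIntegral R₁ w)
    (hadj : ∀ p : P, algebraMap P K p ∈ IntermediateField.adjoin K₁ {algebraMap P K w}) :
    (minpoly R₁ w).natDegree = finrank R₁ P := by
  have h1 : IntermediateField.adjoin K₁ {algebraMap P K w} = ⊤ := by
    rw [eq_top_iff]
    intro z _
    obtain ⟨p, q, _, rfl⟩ := IsFractionRing.div_surjective (A := P) z
    exact div_mem (hadj p) (hadj q)
  have h2 : IsIntegral R₁ (algebraMap P K w) := hw.algebraMap
  have h3 : IsIntegral K₁ (algebraMap P K w) := h2.tower_top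
  have h4 := IntermediateField.adjoin.finrank h3
  rw [h1, IntermediateField.finrank_top', minpoly.isIntegrallyClosed_eq_field_fractions K₁ K hw,
    (minpoly.monic hw).natDegree_map, IsFractionRing.finrank_eq R₁ K₁ P K] at h4
  exact h4.symm

end general

section EE

variable (k : Type u) [Field k] {ι : Type w} [DecidableEq ι] (e : ι)

/-- The isomorphism `k[u_i] ≅ k[u_i : i ≠ e][T]`. -/
noncomputable def EE : MvPolynomial ι k ≃ₐ[k] Polynomial (MvPolynomial {i // i ≠ e} k) :=
  (MvPolynomial.renameEquiv k (Equiv.optionSubtypeNe e).symm).trans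
    (MvPolynomial.optionEquivLeft k _)

lemma EE_apply (G : MvPolynomial ι k) : EE k e G = MvPolynomial.optionEquivLeft k _
    (MvPolynomial.rename (Equiv.optionSubtypeNe e).symm G) := rfl

lemma EE_C (c : k) : EE k e (MvPolynomial.C c) = Polynomial.C (MvPolynomial.C c) := by
  rw [EE_apply, MvPolynomial.rename_C, MvPolynomial.optionEquivLeft_C]

lemma EE_X_self : EE k e (MvPolynomial.X e) = Polynomial.X := by
  rw [EE_apply, MvPolynomial.rename_X, Equiv.optionSubtypeNe_symm_self,
    MvPolynomial.optionEquivLeft_X_none]

lemma EE_X_ne {i : ι} (h : i ≠ e) :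
    EE k e (MvPolynomial.X i) = Polynomial.C (MvPolynomial.X ⟨i, h⟩) := by
  rw [EE_apply, MvPolynomial.rename_X, Equiv.optionSubtypeNe_symm_of_ne h,
    MvPolynomial.optionEquivLeft_X_some]

lemma EE_pderiv (G : MvPolynomial ι k) :
    EE k e (MvPolynomial.pderiv e G) = Polynomial.derivative (EE k e G) := by
  induction G using MvPolynomial.induction_on with
  | C c => rw [MvPolynomial.pderiv_C, map_zero, EE_C, Polynomial.derivative_C]
  | add p q hp hq => rw [map_add, map_add, map_add, Polynomial.derivative_add, hp, hq]
  | mul_X p i hp =>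
    have hX : EE k e (MvPolynomial.pderiv e (MvPolynomial.X i)) =
        Polynomial.derivative (EE k e (MvPolynomial.X i)) := by
      by_cases hi : i = e
      · subst hi
        rw [MvPolynomial.pderiv_X_self, map_one, EE_X_self, Polynomial.derivative_X]
      · rw [MvPolynomial.pderiv_X_of_ne (by exact hi), map_zero, EE_X_ne k e hi,
          Polynomial.derivative_C]
    rw [MvPolynomial.pderiv_mul, map_add, map_mul, map_mul, map_mul, Polynomial.derivative_mul, hp,
      hX]

lemma EE_eval₂ {A : Type*} [CommRing A] [Algebra k A] (u : ι → A) (G : MvPolynomial ι k) :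
    Polynomial.eval₂ (MvPolynomial.aeval (fun i : {i // i ≠ e} => u i) :
      MvPolynomial {i // i ≠ e} k →ₐ[k] A).toRingHom (u e) (EE k e G) =
      MvPolynomial.aeval u G := by
  induction G using MvPolynomial.induction_on with
  | C c =>
    rw [EE_C, Polynomial.eval₂_C, MvPolynomial.aeval_C]
    exact MvPolynomial.aeval_C _ _
  | add p q hp hq => rw [map_add, map_add, Polynomial.eval₂_add, hp, hq]
  | mul_X p i hp =>
    have hX : Polynomial.eval₂ (MvPolynomial.aeval (fun i : {i // i ≠ e} => u i) :
        MvPolynomial {i // i ≠ e} k →ₐ[k] A).toRingHom (u e) (EE k e (MvPolynomial.X i)) = u i := by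
      by_cases hi : i = e
      · subst hi
        rw [EE_X_self, Polynomial.eval₂_X]
      · rw [EE_X_ne k e hi, Polynomial.eval₂_C]
        exact MvPolynomial.aeval_X _ _
    rw [map_mul, map_mul, Polynomial.eval₂_mul, hp, MvPolynomial.aeval_X, hX]

lemma EE_coeff (G : MvPolynomial ι k) (N : ℕ) :
    MvPolynomial.coeff (Finsupp.single e N) G =
      MvPolynomial.coeff 0 ((EE k e G).coeff N) := by
  have h1 := MvPolynomial.coeff_rename_mapDomain (Equiv.optionSubtypeNe e).symm
    (Equiv.optionSubtypeNe e).symm.injective G (Finsupp.single e N)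
  have h2 : (Finsupp.single (none : Option {i // i ≠ e}) N).some = 0 := by
    ext i
    simp
  have h3 := MvPolynomial.optionEquivLeft_coeff_some_coeff_none k {i // i ≠ e}
    (Finsupp.single (none : Option {i // i ≠ e}) N)
    (MvPolynomial.rename (Equiv.optionSubtypeNe e).symm G)
  rw [h2, Finsupp.single_eq_same] at h3
  rw [← h1, Finsupp.mapDomain_single, Equiv.optionSubtypeNe_symm_self, ← h3, EE_apply]

end EE

section homog

variable {k : Type u} [Field k] {ι : Type w} [Fintype ι] [DecidableEq ι]
variable {L : Submodule k (ι → k)} {e : ι}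

omit [Fintype ι] [DecidableEq ι] in
lemma coeff_aeval_scale {P : Type*} [CommRing P] [Algebra k P] (u : ι → P)
    (G : MvPolynomial ι k) (m : ℕ) :
    (MvPolynomial.aeval (fun i => (Polynomial.X : Polynomial P) * Polynomial.C (u i)) G).coeff m =
      MvPolynomial.aeval u (MvPolynomial.homogeneousComponent m G) := by
  classical
  induction G using MvPolynomial.induction_on' with
  | monomial d a =>
    have h1 : MvPolynomial.aeval (fun i => (Polynomial.X : Polynomial P) * Polynomial.C (u i))
        (MvPolynomial.monomial d a) =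
        Polynomial.X ^ d.degree * Polynomial.C (MvPolynomial.aeval u (MvPolynomial.monomial d a)) := by
      rw [MvPolynomial.aeval_monomial, MvPolynomial.aeval_monomial, Finsupp.prod, Finsupp.prod,
        Finsupp.degree]
      simp only [mul_pow, Finset.prod_mul_distrib, Finset.prod_pow_eq_pow_sum, map_mul, map_prod,
        map_pow]
      rw [Polynomial.algebraMap_apply]
      change _ = Polynomial.X ^ (∑ i ∈ d.support, d i) * _
      ring
    rw [h1, Polynomial.coeff_X_pow_mul', Polynomial.coeff_C]
    by_cases hm : d.degree = m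
    · subst hm
      rw [if_pos le_rfl, Nat.sub_self, if_pos rfl,
        MvPolynomial.homogeneousComponent_eq_self (MvPolynomial.isHomogeneous_monomial a rfl)]
    · rw [MvPolynomial.homogeneousComponent_of_mem
        (MvPolynomial.isHomogeneous_monomial a rfl), if_neg (Ne.symm hm), map_zero]
      by_cases hle : d.degree ≤ m
      · rw [if_pos hle, if_neg (by omega)]
      · rw [if_neg hle]
  | add p q hp hq => rw [map_add, Polynomial.coeff_add, hp, hq, map_add, map_add]

lemma homogeneousComponent_ker (s : ℕ) (G : MvPolynomial ι k)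
    (hG : MvPolynomial.aeval (uP s L e) G = 0) (m : ℕ) :
    MvPolynomial.aeval (uP s L e) (MvPolynomial.homogeneousComponent m G) = 0 := by
  let σ : PRing L e →ₐ[k] Polynomial (PRing L e) :=
    liftP (fun i => Polynomial.CAlgHom (xP L e i))
      (fun i => Polynomial.X * Polynomial.CAlgHom (wP L e i))
      ((inExt_xP L e).map (Polynomial.CAlgHom (R := k)))
      (((inExt_wP L e).map (Polynomial.CAlgHom (R := k))).smul _)
      (by rw [xP_e, map_one])
  have h1 : σ.comp (MvPolynomial.aeval (uP s L e)) =
      MvPolynomial.aeval (fun i => (Polynomial.X : Polynomial (PRing L e)) *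
        Polynomial.C (uP s L e i)) := by
    apply MvPolynomial.algHom_ext
    intro i
    rw [AlgHom.comp_apply, MvPolynomial.aeval_X, MvPolynomial.aeval_X, uP, map_mul, map_pow,
      liftP_xP, liftP_wP]
    change Polynomial.C _ ^ s * (Polynomial.X * Polynomial.C _) = _
    rw [Polynomial.C_mul, Polynomial.C_pow]
    ring
  rw [← coeff_aeval_scale, ← h1, AlgHom.comp_apply, hG, map_zero, Polynomial.coeff_zero]

lemma uMap_isAlgebraic (s : ℕ) (he : ∃ y ∈ L, y e ≠ 0)
    (hind : AlgebraicIndependent k (fun i : {i // i ≠ e} => uP s L e i)) (p : PRing L e) :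
    @IsAlgebraic (MvPolynomial {i // i ≠ e} k) (PRing L e) _ _
      (uMap s L e).toRingHom.toAlgebra p := by
  have hdom : IsDomain (PRing L e) := PRing.isDomain he
  let _ : Algebra (MvPolynomial {i // i ≠ e} k) (PRing L e) := (uMap s L e).toRingHom.toAlgebra
  have htb : IsTranscendenceBasis k (fun i : {i // i ≠ e} => uP s L e i) := by
    apply hind.isTranscendenceBasis_of_lift_trdeg_le_of_finite
    rw [PRing.trdeg he]
    have h3 : Cardinal.mk {i // i ≠ e} = ((Fintype.card ι - 1 : ℕ) : Cardinal) := by
      rw [Cardinal.mk_fintype, Fintype.card_subtype_compl, Fintype.card_subtype_eq]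
    rw [h3]
    simp
  have h4 := htb.isAlgebraic
  have hmem : ∀ q : MvPolynomial {i // i ≠ e} k, (uMap s L e) q ∈
      Algebra.adjoin k (Set.range (fun i : {i // i ≠ e} => uP s L e i)) := by
    intro q
    rw [Algebra.adjoin_range_eq_range_aeval]
    exact ⟨q, rfl⟩
  let f : MvPolynomial {i // i ≠ e} k →+*
      Algebra.adjoin k (Set.range (fun i : {i // i ≠ e} => uP s L e i)) :=
    (uMap s L e).toRingHom.codRestrict
      (Algebra.adjoin k (Set.range (fun i : {i // i ≠ e} => uP s L e i))).toSubring hmem
  have hf : Function.Surjective f := by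
    rintro ⟨r, hr⟩
    have hr' := hr
    rw [Algebra.adjoin_range_eq_range_aeval] at hr'
    obtain ⟨q, hq⟩ := hr'
    exact ⟨q, Subtype.ext hq⟩
  exact IsAlgebraic.of_ringHom_of_comp_eq f (RingHom.id (PRing L e)) (h4.isAlgebraic p) hf
    Function.injective_id rfl

lemma uMap_isIntegral (s : ℕ) (hall : ∀ i, ∃ y ∈ L, y i ≠ 0) :
    @IsIntegral (MvPolynomial {i // i ≠ e} k) (PRing L e) _ _
      (uMap s L e).toRingHom.toAlgebra (wP L e e) := by
  have hdom : IsDomain (PRing L e) := PRing.isDomain (hall e)
  let _ : Algebra (MvPolynomial {i // i ≠ e} k) (PRing L e) := (uMap s L e).toRingHom.toAlgebra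
  have halg : ∀ r, algebraMap (MvPolynomial {i // i ≠ e} k) (PRing L e) r = uMap s L e r :=
    fun _ => rfl
  let K := FractionRing (PRing L e)
  have hPK : Function.Injective (algebraMap (PRing L e) K) := IsFractionRing.injective _ K
  have h1 : IsIntegral (MvPolynomial {i // i ≠ e} k) (algebraMap (PRing L e) K (wP L e e)) := by
    apply isIntegral_of_forall_valuationSubring
    intro V hV
    have hV' : ∀ r, algebraMap (PRing L e) K (uMap s L e r) ∈ V := by
      intro r
      rw [← halg, ← IsScalarTower.algebraMap_apply]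
      exact hV r
    refine valLemma2 V ?_ L (fun i => algebraMap (PRing L e) K (xP L e i))
      (fun i => algebraMap (PRing L e) K (wP L e i))
      ((inExt_xP L e).map (IsScalarTower.toAlgHom k (PRing L e) K))
      ((inExt_wP L e).map (IsScalarTower.toAlgHom k (PRing L e) K)) e
      (by rw [xP_e, map_one]) (fun i => ?_) s (fun i hi => ?_)
    · intro c
      have h2 := hV' (algebraMap k _ c)
      rw [AlgHom.commutes, ← IsScalarTower.algebraMap_apply] at h2
      exact h2
    · rw [map_ne_zero_iff _ hPK]
      exact xP_ne_zero (hall e) i (hall i)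
    · have h2 := hV' (MvPolynomial.X ⟨i, hi⟩)
      rw [uMap, MvPolynomial.aeval_X, uP, map_mul, map_pow] at h2
      exact h2
  exact (isIntegral_algebraMap_iff hPK).mp h1

/-- **The hypersurface.** For a connected matroid the closure of `{x² w}` is an irreducible
hypersurface of degree `2^(r-1) β`. -/
theorem exists_hyp [CharZero k] (hall : ∀ i, ∃ y ∈ L, y i ≠ 0) (hconn : Conn L) :
    ∃ (F : MvPolynomial ι k) (N : ℕ), Irreducible F ∧ F.IsHomogeneous N ∧
      (N : ℤ) = 2 ^ (finrank k L - 1) * beta L ∧
      ∀ G : MvPolynomial ι k, MvPolynomial.aeval (uP 2 L e) G = 0 ↔ F ∣ G := by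
  classical
  have hdom : IsDomain (PRing L e) := PRing.isDomain (hall e)
  have hind := indep_of_conn (k := k) 2 two_ne_zero _ L e rfl hconn (hall e)
  let R₁ := MvPolynomial {i // i ≠ e} k
  let algRP : Algebra R₁ (PRing L e) := (uMap 2 L e).toRingHom.toAlgebra
  have halgRP : ∀ r : R₁, algebraMap R₁ (PRing L e) r = uMap 2 L e r := fun _ => rfl
  have hRP : Function.Injective (algebraMap R₁ (PRing L e)) := hind
  have hfaith : FaithfulSMul R₁ (PRing L e) := (faithfulSMul_iff_algebraMap_injective _ _).mpr hRP
  have towkRP : IsScalarTower k R₁ (PRing L e) := IsScalarTower.of_algebraMap_eq (fun r => by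
    rw [halgRP, AlgHom.commutes])
  let K := FractionRing (PRing L e)
  have hPK : Function.Injective (algebraMap (PRing L e) K) := IsFractionRing.injective _ K
  let K₁ := FractionRing R₁
  let algK : Algebra K₁ K := FractionRing.liftAlgebra R₁ K
  have towK : IsScalarTower R₁ K₁ K := FractionRing.isScalarTower_liftAlgebra R₁ K
  have hCZ : CharZero R₁ := charZero_of_injective_algebraMap (algebraMap k R₁).injective
  have hCZP : CharZero (PRing L e) :=
    charZero_of_injective_algebraMap (algebraMap k (PRing L e)).injective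
  -- the minimal polynomial
  have hint : IsIntegral R₁ (wP L e e) := uMap_isIntegral 2 hall
  have hue : uP 2 L e e = wP L e e := by rw [uP, xP_e, one_pow, one_mul]
  set m := minpoly R₁ (wP L e e) with hm
  have hmm : m.Monic := minpoly.monic hint
  let F : MvPolynomial ι k := (EE k e).symm m
  have hEF : EE k e F = m := (EE k e).apply_symm_apply m
  have heval : ∀ G : MvPolynomial ι k, MvPolynomial.aeval (uP 2 L e) G =
      Polynomial.aeval (wP L e e) (EE k e G) := by
    intro G
    rw [← EE_eval₂ k e, hue]
    rfl
  have hdvd : ∀ G : MvPolynomial ι k, MvPolynomial.aeval (uP 2 L e) G = 0 ↔ F ∣ G := by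
    intro G
    rw [heval, minpoly.isIntegrallyClosed_dvd_iff hint, ← hm, ← hEF]
    exact map_dvd_iff (EE k e)
  have hF0 : F ≠ 0 := by
    intro h
    rw [h, map_zero] at hEF
    exact hmm.ne_zero hEF.symm
  have hFu : MvPolynomial.aeval (uP 2 L e) F = 0 := (hdvd F).mpr dvd_rfl
  have hprime : Prime F := by
    have h1 : Prime m := minpoly.prime_of_isIntegrallyClosed hint
    rw [← hEF] at h1
    exact (MulEquiv.prime_iff (EE k e)).mp h1
  -- homogeneity
  have hcomp : ∀ t, MvPolynomial.homogeneousComponent t F ≠ 0 → t = F.totalDegree := by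
    intro t ht
    have h1 : F ∣ MvPolynomial.homogeneousComponent t F :=
      (hdvd _).mp (homogeneousComponent_ker 2 F hFu t)
    have h2 := MvPolynomial.totalDegree_le_of_dvd_of_isDomain h1 ht
    rw [(MvPolynomial.homogeneousComponent_isHomogeneous t F).totalDegree ht] at h2
    have h3 : t ≤ F.totalDegree := by
      by_contra hlt
      exact ht (MvPolynomial.homogeneousComponent_eq_zero _ _ (not_le.mp hlt))
    omega
  have hhom : F.IsHomogeneous F.totalDegree := by
    have h1 := MvPolynomial.sum_homogeneousComponent F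
    rw [Finset.sum_eq_single F.totalDegree] at h1
    · rw [← h1]
      have h2 : (MvPolynomial.homogeneousComponent F.totalDegree F).IsHomogeneous F.totalDegree :=
        MvPolynomial.homogeneousComponent_isHomogeneous _ _
      rw [h1] at h2 ⊢
      exact h2
    · intro t _ ht
      by_contra hne
      exact ht (hcomp t hne)
    · intro h
      exact absurd (Finset.mem_range.mpr (Nat.lt_succ_self _)) h
  -- the degree
  have hcoeff : MvPolynomial.coeff (Finsupp.single e m.natDegree) F ≠ 0 := by
    rw [EE_coeff k e, hEF, hmm.coeff_natDegree, MvPolynomial.coeff_zero_one]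
    exact one_ne_zero
  have hdeg : F.totalDegree = m.natDegree := by
    by_contra hne
    apply hcoeff
    apply hhom.coeff_eq_zero
    rw [Finsupp.degree_single]
    exact Ne.symm hne
  -- birationality
  have hFe : MvPolynomial.aeval (uP 2 L e) (MvPolynomial.pderiv e F) ≠ 0 := by
    rw [heval, EE_pderiv, hEF]
    intro h0
    have h1 := (minpoly.isIntegrallyClosed_dvd_iff hint _).mp h0
    rw [← hm] at h1
    have hnd : m.natDegree ≠ 0 := by
      intro h2
      have h3 := hmm.natDegree_eq_zero.mp h2
      have h4 := minpoly.aeval R₁ (wP L e e)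
      rw [← hm, h3, map_one] at h4
      exact one_ne_zero h4
    have hd : Polynomial.derivative m ≠ 0 := Polynomial.derivative_ne_zero.mpr hnd
    have h2 := Polynomial.natDegree_le_of_dvd h1 hd
    have h3 := Polynomial.natDegree_derivative_lt hnd
    omega
  have hgrad : ∀ i, MvPolynomial.aeval (uP 2 L e) (MvPolynomial.pderiv i F) * xP L e i =
      MvPolynomial.aeval (uP 2 L e) (MvPolynomial.pderiv e F) := by
    intro i
    have h1 := grad_relation K 2 two_ne_zero hPK hdom hind
      (fun p => uMap_isAlgebraic 2 (hall e) hind p) F hFu i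
    apply mul_right_cancel₀ (xP_ne_zero (hall e) i (hall i))
    rw [← h1]
    ring
  have hadj : ∀ p : PRing L e, algebraMap (PRing L e) K p ∈
      IntermediateField.adjoin K₁ {algebraMap (PRing L e) K (wP L e e)} := by
    set M := IntermediateField.adjoin K₁ {algebraMap (PRing L e) K (wP L e e)} with hM
    have hRM : ∀ r : R₁, algebraMap (PRing L e) K (uMap 2 L e r) ∈ M := by
      intro r
      have h1 : algebraMap (PRing L e) K (uMap 2 L e r) = algebraMap K₁ K (algebraMap R₁ K₁ r) := by
        rw [← IsScalarTower.algebraMap_apply R₁ K₁ K, IsScalarTower.algebraMap_apply R₁ (PRing L e) K]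
        rfl
      rw [h1]
      exact M.algebraMap_mem _
    have hkM : ∀ c : k, algebraMap (PRing L e) K (algebraMap k (PRing L e) c) ∈ M := by
      intro c
      have h1 := hRM (algebraMap k R₁ c)
      rw [AlgHom.commutes] at h1
      exact h1
    have huM : ∀ i, algebraMap (PRing L e) K (uP 2 L e i) ∈ M := by
      intro i
      by_cases hi : i = e
      · rw [hi, hue]
        exact IntermediateField.mem_adjoin_simple_self K₁ _
      · have h1 := hRM (MvPolynomial.X ⟨i, hi⟩)
        rw [uMap, MvPolynomial.aeval_X] at h1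
        exact h1
    have hGM : ∀ G : MvPolynomial ι k,
        algebraMap (PRing L e) K (MvPolynomial.aeval (uP 2 L e) G) ∈ M := by
      intro G
      induction G using MvPolynomial.induction_on with
      | C c => rw [MvPolynomial.aeval_C]; exact hkM c
      | add p q hp hq => rw [map_add, map_add]; exact add_mem hp hq
      | mul_X p i hp => rw [map_mul, map_mul, MvPolynomial.aeval_X]; exact mul_mem hp (huM i)
    have hFiM : ∀ i, algebraMap (PRing L e) K (xP L e i) ∈ M := by
      intro i
      have h1 := congrArg (algebraMap (PRing L e) K) (hgrad i)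
      rw [map_mul] at h1
      have h2 : algebraMap (PRing L e) K
          (MvPolynomial.aeval (uP 2 L e) (MvPolynomial.pderiv i F)) ≠ 0 := by
        intro h0
        rw [h0, zero_mul] at h1
        exact hFe (hPK (by rw [map_zero]; exact h1.symm))
      rw [mul_comm, ← eq_div_iff h2] at h1
      rw [h1]
      exact div_mem (hGM _) (hGM _)
    have hwM : ∀ i, algebraMap (PRing L e) K (wP L e i) ∈ M := by
      intro i
      have h1 := huM i
      have h2 : algebraMap (PRing L e) K (xP L e i) ≠ 0 := by
        rw [map_ne_zero_iff _ hPK]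
        exact xP_ne_zero (hall e) i (hall i)
      have h3 : algebraMap (PRing L e) K (wP L e i) = algebraMap (PRing L e) K (uP 2 L e i) /
          algebraMap (PRing L e) K (xP L e i) ^ 2 := by
        rw [uP, map_mul, map_pow, mul_div_cancel_left₀ _ (pow_ne_zero 2 h2)]
      rw [h3]
      exact div_mem h1 (pow_mem (hFiM i) 2)
    intro p
    have hp : p ∈ Algebra.adjoin k (Set.range (xP L e) ∪ Set.range (wP L e)) := by
      rw [PRing.adjoin_eq_top]; exact Algebra.mem_top
    induction hp using Algebra.adjoin_induction with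
    | mem x hx =>
      rcases hx with ⟨i, rfl⟩ | ⟨i, rfl⟩
      · exact hFiM i
      · exact hwM i
    | algebraMap r => exact hkM r
    | add x y _ _ hx hy => rw [map_add]; exact add_mem hx hy
    | mul x y _ _ hx hy => rw [map_mul]; exact mul_mem hx hy
  have hfin := natDegree_minpoly_eq_finrank K₁ K (wP L e e) hint hadj
  obtain ⟨b, hb, hD⟩ := D_eq (k := k) 2 two_ne_zero _ L e rfl (hall e)
  have hD' : Module.rank R₁ (PRing L e) = ((2 ^ (finrank k L - 1) * b : ℕ) : Cardinal) := hD
  have hfr : finrank R₁ (PRing L e) = 2 ^ (finrank k L - 1) * b := by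
    rw [finrank, hD', Cardinal.toNat_natCast]
  refine ⟨F, F.totalDegree, hprime.irreducible, hhom, ?_, hdvd⟩
  rw [hdeg, hm, hfin, hfr, ← hb]
  push_cast
  ring

end homog

end Pool.Agent.H24
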