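import Pool.Agent.H24.LinAlg

set_option autoImplicit false

namespace Pool.Agent.H24

open Module Cardinal

universe u v w

/-- An algebraically independent family contained in an algebra generated by `S` has at most
`#S` members. -/
lemma card_le_of_mem_adjoin {k : Type u} [Field k] {K : Type v} [CommRing K] [IsDomain K]
    [Algebra k K] {F : Type w} [Fintype F] (S : Finset K) (x : F → K)
    (hx : AlgebraicIndependent k x)
    (hmem : ∀ i, x i ∈ Algebra.adjoin k (S : Set K)) : Fintype.card F ≤ S.card := by
  classical
  set A' := Algebra.adjoin k (S : Set K) with hA'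
  let x' : F → A' := fun i => ⟨x i, hmem i⟩
  have hx' : AlgebraicIndependent k x' := by
    have h1 : AlgebraicIndependent k (A'.val ∘ x') := hx
    exact (AlgHom.algebraicIndependent_iff A'.val Subtype.val_injective).mp h1
  let f : MvPolynomial S k →ₐ[k] A' := MvPolynomial.aeval (fun s => ⟨s, Algebra.subset_adjoin s.2⟩)
  have hf : Function.Surjective f := by
    rintro ⟨a, ha⟩
    have ha' : a ∈ (MvPolynomial.aeval (fun s : S => (s : K)) :
        MvPolynomial S k →ₐ[k] K).range := by
      have h1 : Algebra.adjoin k (S : Set K) =
          (MvPolynomial.aeval (fun s : S => (s : K)) : MvPolynomial S k →ₐ[k] K).range :=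
        Algebra.adjoin_eq_range _ _
      rw [← h1]
      exact ha
    obtain ⟨p, hp⟩ := ha'
    refine ⟨p, Subtype.ext ?_⟩
    have h2 : A'.val.comp f = (MvPolynomial.aeval (fun s : S => (s : K))) := by
      apply MvPolynomial.algHom_ext
      intro i
      simp [f]
    exact (DFunLike.congr_fun h2 p).trans hp
  have h1 := hx'.lift_cardinalMk_le_trdeg
  have h2 := lift_trdeg_le_of_surjective f hf
  rw [MvPolynomial.trdeg_of_isDomain] at h2
  have h6 : (#S : Cardinal) = S.card := by simp
  have h7 : (#F : Cardinal) = Fintype.card F := by simp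
  rw [h7] at h1
  rw [h6] at h2
  simp only [lift_natCast] at h1 h2
  have h8 : Algebra.trdeg k A' ≤ (S.card : Cardinal) := by simpa using h2
  have h9 : ((Fintype.card F : ℕ) : Cardinal.{v}) ≤ Algebra.trdeg k A' := by simpa using h1
  exact_mod_cast h9.trans h8

/-- A finite-dimensional subspace is spanned by a finite set of the right size. -/
lemma exists_finset_span {k : Type u} [Field k] {K : Type v} [AddCommGroup K] [Module k K]
    (V : Submodule k K) [FiniteDimensional k V] :
    ∃ S : Finset K, S.card = finrank k V ∧ V = Submodule.span k (S : Set K) := by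
  classical
  let b := Module.finBasis k V
  refine ⟨Finset.univ.image (fun i => (b i : K)), ?_, ?_⟩
  · rw [Finset.card_image_of_injective _ (fun i j h => b.injective (Subtype.ext h))]
    simp
  · rw [Finset.coe_image, Finset.coe_univ, Set.image_univ]
    have h1 := b.span_eq
    have h2 := congrArg (Submodule.map V.subtype) h1
    rw [Submodule.map_span, Submodule.map_top, Submodule.range_subtype, ← Set.range_comp] at h2
    exact h2.symm

/-- A finite-dimensional subspace containing a nonzero vector `a` is spanned by `a` and a finite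
set with one element less than the dimension. -/
lemma exists_finset_span_insert {k : Type u} [Field k] {K : Type v} [AddCommGroup K] [Module k K]
    (V : Submodule k K) [FiniteDimensional k V] (a : K) (ha : a ∈ V) (ha0 : a ≠ 0) :
    ∃ S : Finset K, S.card + 1 = finrank k V ∧ V = Submodule.span k (insert a (S : Set K)) := by
  classical
  have hli : LinearIndepOn k id ({a} : Set K) := LinearIndepOn.singleton (v := (id : K → K)) ha0
  have hsub : ({a} : Set K) ⊆ (V : Set K) := by
    intro x hx
    rw [Set.mem_singleton_iff] at hx
    rw [hx]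
    exact ha
  obtain ⟨b, hbV, hab, hVb, hb⟩ := exists_linearIndepOn_id_extension hli hsub
  have hspan : V = Submodule.span k b := le_antisymm hVb (Submodule.span_le.mpr hbV)
  have hfin : b.Finite := by
    have hb' : LinearIndependent k (fun x : b => (⟨x, hbV x.2⟩ : V)) := by
      apply LinearIndependent.of_comp V.subtype
      exact hb
    exact Set.finite_coe_iff.mp hb'.finite
  have hab' : a ∈ b := hab rfl
  refine ⟨hfin.toFinset.erase a, ?_, ?_⟩
  · rw [Finset.card_erase_of_mem (hfin.mem_toFinset.mpr hab')]
    have hpos : 0 < hfin.toFinset.card := Finset.card_pos.mpr ⟨a, hfin.mem_toFinset.mpr hab'⟩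
    have h1 : finrank k V = hfin.toFinset.card := by
      letI : Fintype b := hfin.fintype
      rw [hspan, finrank_span_set_eq_card hb, Set.Finite.toFinset_eq_toFinset]
    omega
  · rw [hspan]
    congr 1
    ext x
    simp only [Set.mem_insert_iff, Finset.mem_coe, Finset.mem_erase, Set.Finite.mem_toFinset]
    constructor
    · intro hx
      by_cases hxa : x = a
      · exact Or.inl hxa
      · exact Or.inr ⟨hxa, hx⟩
    · rintro (hx | hx)
      · rw [hx]; exact hab'
      · exact hx.2

/-- **Lemma G**: if `x ∈ N ⊗ K` and `w ∈ N^⊥ ⊗ K` for a subspace `N` of `k^F`, `F ≠ ∅`, and some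
`x i ≠ 0`, then the elements `x i ^ s * w i` (`i ∈ F`) are algebraically dependent over `k`. -/
theorem lemmaG {k : Type u} [Field k] {K : Type v} [Field K] [Algebra k K] {F : Type w}
    [Fintype F] (N : Submodule k (F → k)) (x w : F → K) (hx : InExt N x)
    (hw : InExt (perp N) w) (i₀ : F) (h0 : x i₀ ≠ 0) (s : ℕ) :
    ¬ AlgebraicIndependent k (fun i => x i ^ s * w i) := by
  classical
  intro hind
  let x' : F → K := fun i => (x i₀)⁻¹ * x i
  let w' : F → K := fun i => (x i₀) ^ s * w i
  have hx' : InExt N x' := hx.smul _
  have hw' : InExt (perp N) w' := hw.smul _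
  have hprod : ∀ i, x i ^ s * w i = x' i ^ s * w' i := by
    intro i
    have h1 : (x i₀) ^ s ≠ 0 := pow_ne_zero _ h0
    simp only [x', w']
    rw [mul_pow, inv_pow]
    field_simp
  let V1 := Submodule.span k (Set.range x')
  let V2 := Submodule.span k (Set.range w')
  have : FiniteDimensional k V1 := FiniteDimensional.span_of_finite k (Set.finite_range x')
  have : FiniteDimensional k V2 := FiniteDimensional.span_of_finite k (Set.finite_range w')
  have h1V : (1 : K) ∈ V1 := by
    apply Submodule.subset_span
    refine ⟨i₀, ?_⟩
    simp only [x']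
    exact inv_mul_cancel₀ h0
  obtain ⟨S1, hS1, hV1⟩ := exists_finset_span_insert V1 1 h1V one_ne_zero
  obtain ⟨S2, hS2, hV2⟩ := exists_finset_span V2
  have hc1 : finrank k V1 ≤ finrank k N := hx'.finrank_span_le
  have hc2 : finrank k V2 ≤ finrank k (perp N) := hw'.finrank_span_le
  have hc3 := finrank_add_finrank_perp N
  set A := Algebra.adjoin k ((S1 ∪ S2 : Finset K) : Set K) with hA
  have hx1 : ∀ i, x' i ∈ A := by
    intro i
    have h1 : x' i ∈ V1 := Submodule.subset_span ⟨i, rfl⟩
    rw [hV1] at h1
    have h2 : Submodule.span k (insert (1:K) (S1 : Set K)) ≤ Subalgebra.toSubmodule A := by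
      rw [Submodule.span_le]
      intro z hz
      rcases Set.mem_insert_iff.mp hz with hz | hz
      · rw [hz]; exact one_mem A
      · apply Algebra.subset_adjoin
        rw [Finset.coe_union]
        exact Or.inl hz
    exact h2 h1
  have hw1 : ∀ i, w' i ∈ A := by
    intro i
    have h1 : w' i ∈ V2 := Submodule.subset_span ⟨i, rfl⟩
    rw [hV2] at h1
    have h2 : Submodule.span k (S2 : Set K) ≤ Subalgebra.toSubmodule A := by
      rw [Submodule.span_le]
      intro z hz
      apply Algebra.subset_adjoin
      rw [Finset.coe_union]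
      exact Or.inr hz
    exact h2 h1
  have hmem : ∀ i, (fun i => x i ^ s * w i) i ∈ A := by
    intro i
    simp only [hprod i]
    exact mul_mem (pow_mem (hx1 i) s) (hw1 i)
  have hle := card_le_of_mem_adjoin (S1 ∪ S2) _ hind hmem
  have := Finset.card_union_le S1 S2
  omega

end Pool.Agent.H24
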