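import Mathlib

set_option autoImplicit false

namespace Pool.Agent.H24

open Module

section perp

variable {k : Type*} [Field k] {ι : Type*} [Fintype ι]

/-- The orthogonal complement of a subspace of `k^ι` for the standard bilinear form. -/
def perp (L : Submodule k (ι → k)) : Submodule k (ι → k) where
  carrier := {w | ∀ y ∈ L, ∑ i, w i * y i = 0}
  add_mem' := by
    intro a b ha hb y hy
    simp only [Pi.add_apply, add_mul, Finset.sum_add_distrib]
    rw [ha y hy, hb y hy, add_zero]
  zero_mem' := by
    intro y _
    simp
  smul_mem' := by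
    intro c w hw y hy
    simp only [Pi.smul_apply, smul_eq_mul, mul_assoc, ← Finset.mul_sum]
    rw [hw y hy, mul_zero]

lemma mem_perp {L : Submodule k (ι → k)} {w : ι → k} :
    w ∈ perp L ↔ ∀ y ∈ L, ∑ i, w i * y i = 0 := Iff.rfl

/-- The linear form `v ↦ ∑ c i * v i`. -/
def form (c : ι → k) : (ι → k) →ₗ[k] k where
  toFun v := ∑ i, c i * v i
  map_add' a b := by simp [mul_add, Finset.sum_add_distrib]
  map_smul' a b := by
    simp only [Pi.smul_apply, smul_eq_mul, RingHom.id_apply, Finset.mul_sum]
    exact Finset.sum_congr rfl (fun i _ => by ring)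

lemma form_apply (c v : ι → k) : form c v = ∑ i, c i * v i := rfl

/-- Every linear form on `k^ι` is given by a vector of coefficients. -/
noncomputable def coeffs (f : (ι → k) →ₗ[k] k) : ι → k := by
  classical
  exact fun i => f (Pi.single i 1)

lemma form_coeffs (f : (ι → k) →ₗ[k] k) : form (coeffs f) = f := by
  classical
  apply (Pi.basisFun k ι).ext
  intro i
  rw [Pi.basisFun_apply, form_apply, Finset.sum_eq_single i]
  · simp [coeffs]
  · intro j _ hj
    simp [hj]
  · simp

/-- The linear equivalence between coefficient vectors and linear forms. -/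
noncomputable def formEquiv : (ι → k) ≃ₗ[k] Dual k (ι → k) :=
  LinearEquiv.ofBijective
    { toFun := form
      map_add' := by
        intro a b
        ext v
        simp [form_apply, add_mul, Finset.sum_add_distrib]
      map_smul' := by
        intro a b
        ext v
        simp [form_apply, mul_assoc, Finset.mul_sum] }
    ⟨by
      intro a b h
      classical
      funext i
      have := LinearMap.congr_fun h (Pi.single i 1)
      simpa [form_apply, Pi.single_apply] using this,
    fun f => ⟨coeffs f, form_coeffs f⟩⟩

lemma perp_eq_comap (L : Submodule k (ι → k)) :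
    perp L = L.dualAnnihilator.comap (formEquiv (k := k) (ι := ι)).toLinearMap := by
  ext w
  rw [Submodule.mem_comap, Submodule.mem_dualAnnihilator]
  rfl

lemma finrank_add_finrank_perp (L : Submodule k (ι → k)) :
    finrank k L + finrank k (perp L) = Fintype.card ι := by
  have h1 : finrank k (perp L) = finrank k L.dualAnnihilator := by
    rw [perp_eq_comap]
    have := (formEquiv (k := k) (ι := ι)).submoduleMap
      (L.dualAnnihilator.comap (formEquiv (k := k) (ι := ι)).toLinearMap)
    rw [this.finrank_eq]
    rw [Submodule.map_comap_eq_of_surjective]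
    exact (formEquiv (k := k) (ι := ι)).surjective
  rw [h1, Subspace.finrank_add_finrank_dualAnnihilator_eq, Module.finrank_fintype_fun_eq_card]

lemma le_perp_perp (L : Submodule k (ι → k)) : L ≤ perp (perp L) := by
  intro y hy w hw
  rw [← hw y hy]
  exact Finset.sum_congr rfl (fun i _ => mul_comm _ _)

lemma perp_perp (L : Submodule k (ι → k)) : perp (perp L) = L := by
  symm
  apply Submodule.eq_of_le_of_finrank_eq (le_perp_perp L)
  have h1 := finrank_add_finrank_perp L
  have h2 := finrank_add_finrank_perp (perp L)
  omega

lemma perp_anti {L M : Submodule k (ι → k)} (h : L ≤ M) : perp M ≤ perp L :=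
  fun _ hw y hy => hw y (h hy)

end perp

/-! ### Extension of scalars -/

section ext

variable {k : Type*} [Field k] {ι : Type*} [Fintype ι]
variable {R : Type*} [CommRing R] [Algebra k R]

/-- `x ∈ L ⊗ R`: the vector `x` satisfies all `k`-linear equations of `L`. -/
def InExt (L : Submodule k (ι → k)) (x : ι → R) : Prop :=
  ∀ c ∈ perp L, ∑ i, c i • x i = 0

lemma inExt_self {L : Submodule k (ι → k)} {x : ι → k} : InExt L x ↔ x ∈ L := by
  rw [← perp_perp L, mem_perp]
  unfold InExt
  rw [perp_perp]
  constructor
  · intro h y hy
    rw [← h y hy]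
    exact Finset.sum_congr rfl (fun i _ => by rw [smul_eq_mul, mul_comm])
  · intro h y hy
    rw [← h y hy]
    exact Finset.sum_congr rfl (fun i _ => by rw [smul_eq_mul, mul_comm])

lemma inExt_perp {L : Submodule k (ι → k)} {w : ι → R} :
    InExt (perp L) w ↔ ∀ y ∈ L, ∑ i, y i • w i = 0 := by
  unfold InExt
  rw [perp_perp]

/-- A linear identity valid on `L` holds for `x ∈ L ⊗ R`. -/
lemma InExt.form_eq {L : Submodule k (ι → k)} {x : ι → R} (hx : InExt L x)
    (f g : (ι → k) →ₗ[k] k) (hfg : ∀ y ∈ L, f y = g y) :
    ∑ i, coeffs f i • x i = ∑ i, coeffs g i • x i := by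
  have hmem : coeffs f - coeffs g ∈ perp L := by
    intro y hy
    have h1 := hfg y hy
    rw [← form_coeffs f, ← form_coeffs g, form_apply, form_apply] at h1
    simp only [Pi.sub_apply, sub_mul, Finset.sum_sub_distrib]
    rw [h1, sub_self]
  have := hx _ hmem
  simp only [Pi.sub_apply, sub_smul, Finset.sum_sub_distrib] at this
  exact sub_eq_zero.mp this

lemma InExt.map {L : Submodule k (ι → k)} {x : ι → R} (hx : InExt L x)
    {S : Type*} [CommRing S] [Algebra k S] (f : R →ₐ[k] S) : InExt L (fun i => f (x i)) := by
  intro c hc
  have := congrArg f (hx c hc)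
  simpa [map_sum, map_smul] using this

lemma InExt.smul {L : Submodule k (ι → k)} {x : ι → R} (hx : InExt L x) (r : R) :
    InExt L (fun i => r * x i) := by
  intro c hc
  have := congrArg (fun z => r * z) (hx c hc)
  simpa [Finset.mul_sum] using this

lemma InExt.add {L : Submodule k (ι → k)} {x y : ι → R} (hx : InExt L x) (hy : InExt L y) :
    InExt L (fun i => x i + y i) := by
  intro c hc
  simp only [smul_add, Finset.sum_add_distrib]
  rw [hx c hc, hy c hc, add_zero]

lemma InExt.sub {L : Submodule k (ι → k)} {x y : ι → R} (hx : InExt L x) (hy : InExt L y) :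
    InExt L (fun i => x i - y i) := by
  intro c hc
  simp only [smul_sub, Finset.sum_sub_distrib]
  rw [hx c hc, hy c hc, sub_zero]

lemma InExt.mono {L M : Submodule k (ι → k)} (h : L ≤ M) {x : ι → R} (hx : InExt L x) :
    InExt M x := fun c hc => hx c (perp_anti h hc)

/-- The span of the coordinates of a point of `L ⊗ R` has dimension at most `dim L`. -/
lemma InExt.finrank_span_le {L : Submodule k (ι → k)} {x : ι → R} (hx : InExt L x) :
    finrank k (Submodule.span k (Set.range x)) ≤ finrank k L := by
  classical
  let Φ : (ι → k) →ₗ[k] R := Fintype.linearCombination k x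
  have hΦ : ∀ c, Φ c = ∑ i, c i • x i := fun c => Fintype.linearCombination_apply k x c
  have hker : perp L ≤ LinearMap.ker Φ := by
    intro c hc
    rw [LinearMap.mem_ker, hΦ]
    exact hx c hc
  have hrange : Submodule.span k (Set.range x) = LinearMap.range Φ :=
    (Fintype.range_linearCombination k x).symm
  rw [hrange]
  have h1 := LinearMap.finrank_range_add_finrank_ker Φ
  have h2 := Submodule.finrank_mono hker
  have h3 := finrank_add_finrank_perp L
  rw [Module.finrank_fintype_fun_eq_card] at h1
  omega

/-- Pairing of `L ⊗ R` and `L^⊥ ⊗ R` is zero. -/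
lemma InExt.pairing {L : Submodule k (ι → k)} {x w : ι → R} (hx : InExt L x)
    (hw : InExt (perp L) w) : ∑ i, x i * w i = 0 := by
  classical
  let b := Module.finBasis k L
  -- a projection onto `L`
  obtain ⟨p, hp⟩ := L.subtype.exists_leftInverse_of_injective
    (LinearMap.ker_eq_bot.mpr L.injective_subtype)
  have hp' : ∀ y : L, p y = y := fun y => LinearMap.congr_fun hp y
  -- express `x` by the basis
  have key : ∀ i, x i = ∑ m, (∑ j, coeffs ((b.coord m).comp p) j • x j) * algebraMap k R ((b m : ι → k) i) := by
    intro i
    have h1 := hx.form_eq (LinearMap.proj i)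
      (∑ m, ((b m : ι → k) i) • ((b.coord m).comp p)) (by
        intro y hy
        have h2 := congrArg (fun v : L => (v : ι → k) i) (b.sum_repr ⟨y, hy⟩)
        simp only [Submodule.coe_sum, Submodule.coe_smul, Finset.sum_apply, Pi.smul_apply,
          smul_eq_mul] at h2
        simp only [LinearMap.coe_proj, Function.eval, LinearMap.coe_sum, Finset.sum_apply,
          LinearMap.smul_apply, LinearMap.comp_apply, smul_eq_mul, Basis.coord_apply]
        rw [← h2]
        refine Finset.sum_congr rfl (fun m _ => ?_)
        rw [hp' ⟨y, hy⟩, mul_comm])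
    have h3 : ∑ j, coeffs (LinearMap.proj i : (ι → k) →ₗ[k] k) j • x j = x i := by
      rw [Finset.sum_eq_single i]
      · simp [coeffs]
      · intro j _ hj
        simp [coeffs, Ne.symm hj]
      · simp
    rw [h3] at h1
    rw [h1]
    have h4 : ∀ j, coeffs (∑ m, ((b m : ι → k) i) • ((b.coord m).comp p)) j =
        ∑ m, ((b m : ι → k) i) * coeffs ((b.coord m).comp p) j := by
      intro j
      simp [coeffs]
    simp only [h4, Finset.sum_smul]
    rw [Finset.sum_comm]
    refine Finset.sum_congr rfl (fun m _ => ?_)
    rw [Finset.sum_mul]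
    refine Finset.sum_congr rfl (fun j _ => ?_)
    rw [mul_smul, Algebra.smul_def ((b m : ι → k) i), mul_comm]
  have : ∑ i, x i * w i = ∑ m, (∑ j, coeffs ((b.coord m).comp p) j • x j) *
      (∑ i, ((b m : ι → k) i) • w i) := by
    calc ∑ i, x i * w i = ∑ i, ∑ m, (∑ j, coeffs ((b.coord m).comp p) j • x j) *
          algebraMap k R ((b m : ι → k) i) * w i := by
          refine Finset.sum_congr rfl (fun i _ => ?_)
          conv_lhs => rw [key i]
          rw [Finset.sum_mul]
      _ = _ := by
          rw [Finset.sum_comm]
          refine Finset.sum_congr rfl (fun m _ => ?_)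
          rw [Finset.mul_sum]
          refine Finset.sum_congr rfl (fun i _ => ?_)
          rw [Algebra.smul_def, mul_assoc]
  rw [this]
  refine Finset.sum_eq_zero (fun m _ => ?_)
  rw [(inExt_perp.mp hw) (b m) (b m).2, mul_zero]

end ext

end Pool.Agent.H24
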