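import Pool.Agent.H24.Recur

set_option autoImplicit false
set_option linter.unusedSectionVars false

namespace Pool.Agent.H24

open Module

universe u v w

section mat

variable {k : Type u} [Field k] {ι : Type w} [Fintype ι] [DecidableEq ι]

/-- The dimension of `{y ∈ L : y|_S = 0}`. -/
noncomputable def kd (L : Submodule k (ι → k)) (S : Set ι) : ℕ :=
  finrank k (L ⊓ supported Sᶜ : Submodule k (ι → k))

/-- The matroid of `L` is connected. -/
def Conn (L : Submodule k (ι → k)) : Prop :=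
  ∀ S : Set ι, S.Nonempty → Sᶜ.Nonempty → kd L S + kd L Sᶜ < finrank k L

omit [Fintype ι] [DecidableEq ι] in
lemma mem_supp {T : Set ι} {y : ι → k} : y ∈ supported (k := k) T ↔ ∀ i, i ∉ T → y i = 0 := Iff.rfl

lemma kd_empty (L : Submodule k (ι → k)) : kd L ∅ = finrank k L := by
  have : L ⊓ supported (∅ : Set ι)ᶜ = L := by
    rw [inf_eq_left]
    intro y _ i hi
    simp at hi
  rw [kd, this]

lemma kd_univ (L : Submodule k (ι → k)) : kd L Set.univ = 0 := by
  have : L ⊓ supported (Set.univ : Set ι)ᶜ = ⊥ := by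
    rw [eq_bot_iff]
    rintro y ⟨_, hy⟩
    rw [Submodule.mem_bot]
    funext i
    exact hy i (by simp)
  rw [kd, this, finrank_bot]

lemma kd_anti (L : Submodule k (ι → k)) {S T : Set ι} (h : S ⊆ T) : kd L T ≤ kd L S := by
  apply Submodule.finrank_mono
  rintro y ⟨h1, h2⟩
  exact ⟨h1, fun i hi => h2 i (fun h' => hi (fun hS => h' (h hS)))⟩

lemma kd_super (L : Submodule k (ι → k)) (S T : Set ι) :
    kd L S + kd L T ≤ kd L (S ∩ T) + kd L (S ∪ T) := by
  have h1 := Submodule.finrank_sup_add_finrank_inf_eq (L ⊓ supported Sᶜ) (L ⊓ supported Tᶜ)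
  have h2 : finrank k ((L ⊓ supported Sᶜ) ⊔ (L ⊓ supported Tᶜ) : Submodule k (ι → k)) ≤
      kd L (S ∩ T) := by
    apply Submodule.finrank_mono
    apply sup_le
    · rintro y ⟨h1, h2⟩
      exact ⟨h1, fun i hi => h2 i (fun h => hi (fun h' => h h'.1))⟩
    · rintro y ⟨h1, h2⟩
      exact ⟨h1, fun i hi => h2 i (fun h => hi (fun h' => h h'.2))⟩
  have h3 : finrank k ((L ⊓ supported Sᶜ) ⊓ (L ⊓ supported Tᶜ) : Submodule k (ι → k)) ≤
      kd L (S ∪ T) := by
    apply Submodule.finrank_mono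
    rintro y ⟨⟨h1, h2⟩, ⟨_, h3⟩⟩
    refine ⟨h1, fun i hi => ?_⟩
    rw [Set.mem_compl_iff, not_not] at hi
    rcases hi with hi | hi
    · exact h2 i (fun h => h hi)
    · exact h3 i (fun h => h hi)
  unfold kd at *
  omega

lemma kd_singleton_le (L : Submodule k (ι → k)) (S : Set ι) (j : ι) :
    kd L S ≤ kd L (S ∪ {j}) + 1 := by
  let q : (L ⊓ supported Sᶜ : Submodule k (ι → k)) →ₗ[k] k :=
    (LinearMap.proj j).comp (L ⊓ supported Sᶜ).subtype
  have h1 := LinearMap.finrank_range_add_finrank_ker q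
  have h2 : finrank k (LinearMap.range q) ≤ 1 := by
    calc finrank k (LinearMap.range q) ≤ finrank k k := Submodule.finrank_le _
      _ = 1 := Module.finrank_self k
  have h3 : finrank k (LinearMap.ker q) ≤ kd L (S ∪ {j}) := by
    have h4 : (LinearMap.ker q).map (L ⊓ supported Sᶜ).subtype ≤ L ⊓ supported (S ∪ {j})ᶜ := by
      rintro _ ⟨z, hz, rfl⟩
      refine ⟨z.2.1, fun i hi => ?_⟩
      rw [Set.mem_compl_iff, not_not] at hi
      rcases hi with hi | hi
      · exact z.2.2 i (fun h => h hi)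
      · rw [Set.mem_singleton_iff] at hi
        rw [hi]
        exact hz
    have h5 := Submodule.finrank_mono h4
    rw [(Submodule.equivMapOfInjective _ (Submodule.injective_subtype _) _).finrank_eq]
    exact h5
  unfold kd at *
  omega

lemma kd_singleton_of_nonloop (L : Submodule k (ι → k)) (j : ι) (hj : ∃ y ∈ L, y j ≠ 0) :
    kd L {j} + 1 = finrank k L := by
  have h1 := kd_singleton_le L ∅ j
  rw [kd_empty, Set.empty_union] at h1
  have h2 : kd L {j} < finrank k L := by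
    apply Submodule.finrank_lt_finrank_of_lt
    refine lt_of_le_of_ne inf_le_left ?_
    intro h
    obtain ⟨y, hy, hyj⟩ := hj
    rw [← h] at hy
    exact hyj (hy.2 j (by simp))
  omega

lemma kd_singleton_of_loop (L : Submodule k (ι → k)) (j : ι) (hj : ∀ y ∈ L, y j = 0) (S : Set ι) :
    kd L (S ∪ {j}) = kd L S := by
  apply le_antisymm (kd_anti L Set.subset_union_left)
  apply Submodule.finrank_mono
  rintro y ⟨h1, h2⟩
  refine ⟨h1, fun i hi => ?_⟩
  rw [Set.mem_compl_iff, not_not] at hi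
  rcases hi with hi | hi
  · exact h2 i (fun h => h hi)
  · rw [Set.mem_singleton_iff] at hi
    rw [hi]
    exact hj y h1

/-- In a connected matroid with at least two elements there are no loops. -/
lemma Conn.nonloop {L : Submodule k (ι → k)} (h : Conn L) (j : ι) (hj : ({j}ᶜ : Set ι).Nonempty) :
    ∃ y ∈ L, y j ≠ 0 := by
  by_contra hcon
  push Not at hcon
  have h1 := h {j} (Set.singleton_nonempty j) hj
  have h2 := kd_singleton_of_loop L j hcon ∅
  rw [Set.empty_union, kd_empty] at h2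
  omega

/-- In a connected matroid with at least two elements there are no coloops. -/
lemma Conn.noncoloop {L : Submodule k (ι → k)} (h : Conn L) (j : ι)
    (hj : ({j}ᶜ : Set ι).Nonempty) : Pi.single j 1 ∉ L := by
  intro hmem
  have h1 := h {j} (Set.singleton_nonempty j) hj
  have h2 := kd_singleton_le L ∅ j
  rw [kd_empty, Set.empty_union] at h2
  have h3 : 0 < kd L {j}ᶜ := by
    apply Module.finrank_pos_iff_exists_ne_zero.mpr
    refine ⟨⟨Pi.single j 1, hmem, ?_⟩, ?_⟩
    · intro i hi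
      have : i ≠ j := by
        rintro rfl
        apply hi
        simp
      simp [this]
    · intro h0
      have h4 := congrArg Subtype.val h0
      have h5 := congrFun h4 j
      simp at h5
  omega

/-! ### Minors -/

variable (L : Submodule k (ι → k)) (j : ι)

lemma resj_injOn (hcol : Pi.single j 1 ∉ L) : ∀ y ∈ L, resj k j y = 0 → y = 0 := by
  intro y hy h0
  by_contra hne
  apply hcol
  have h1 : y = y j • (Pi.single j 1 : ι → k) := by
    funext i
    by_cases hi : i = j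
    · subst hi; simp
    · have := congrFun h0 ⟨i, hi⟩
      simp only [resj_apply, Pi.zero_apply] at this
      simp [hi, this]
  have h2 : y j ≠ 0 := by
    intro h
    rw [h, zero_smul] at h1
    exact hne h1
  have h3 : (Pi.single j 1 : ι → k) = (y j)⁻¹ • y := by
    conv_rhs => rw [h1]
    rw [smul_smul]
    simp [h2]
  rw [h3]
  exact L.smul_mem _ hy

lemma finrank_map_resj (M : Submodule k (ι → k)) (hM : ∀ y ∈ M, resj k j y = 0 → y = 0) :
    finrank k (M.map (resj k j)) = finrank k M := by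
  let f : M →ₗ[k] ({i // i ≠ j} → k) := (resj k j).comp M.subtype
  have hf : Function.Injective f := by
    rw [← LinearMap.ker_eq_bot, LinearMap.ker_eq_bot']
    intro m hm
    exact Subtype.ext (hM m m.2 hm)
  have h1 : LinearMap.range f = M.map (resj k j) := by
    rw [LinearMap.range_comp, Submodule.range_subtype]
  rw [← h1, LinearMap.finrank_range_of_inj hf]

lemma kd_del (hcol : Pi.single j 1 ∉ L) (S : Set {i // i ≠ j}) :
    kd (del L j) S = kd L (Subtype.val '' S) := by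
  rw [kd, kd, ← finrank_map_resj j (L ⊓ supported (Subtype.val '' S)ᶜ)
    (fun y hy => resj_injOn L j hcol y hy.1)]
  have heq : del L j ⊓ supported Sᶜ = (L ⊓ supported (Subtype.val '' S)ᶜ).map (resj k j) := by
    ext c
    constructor
    · rintro ⟨⟨y, hy, rfl⟩, h2⟩
      refine ⟨y, ⟨hy, ?_⟩, rfl⟩
      intro i hi
      rw [Set.mem_compl_iff, not_not] at hi
      obtain ⟨i, hi, rfl⟩ := hi
      exact h2 i (fun h => h hi)
    · rintro ⟨y, ⟨hy, h2⟩, rfl⟩
      refine ⟨⟨y, hy, rfl⟩, ?_⟩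
      intro i hi
      rw [Set.mem_compl_iff, not_not] at hi
      exact h2 i (fun h => h ⟨i, hi, rfl⟩)
  rw [heq]

lemma finrank_del (hcol : Pi.single j 1 ∉ L) : finrank k (del L j) = finrank k L := by
  have := kd_del L j hcol ∅
  rw [kd_empty, Set.image_empty, kd_empty] at this
  exact this

lemma kd_con (S : Set {i // i ≠ j}) :
    kd (con L j) S = kd L (Subtype.val '' S ∪ {j}) := by
  have hinj : ∀ y ∈ L ⊓ supported (Subtype.val '' S ∪ {j})ᶜ, resj k j y = 0 → y = 0 := by
    intro y hy h0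
    funext i
    by_cases hi : i = j
    · exact hy.2 i (fun h => h (Or.inr hi))
    · exact congrFun h0 ⟨i, hi⟩
  rw [kd, kd, ← finrank_map_resj j _ hinj]
  have heq : con L j ⊓ supported Sᶜ =
      (L ⊓ supported (Subtype.val '' S ∪ {j})ᶜ).map (resj k j) := by
    ext c
    constructor
    · rintro ⟨h1, h2⟩
      rw [SetLike.mem_coe, mem_con] at h1
      obtain ⟨y, hy, hyj, rfl⟩ := h1
      refine ⟨y, ⟨hy, ?_⟩, rfl⟩
      intro i hi
      rw [Set.mem_compl_iff, not_not] at hi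
      rcases hi with ⟨i, hi, rfl⟩ | hi
      · exact h2 i (fun h => h hi)
      · rw [Set.mem_singleton_iff] at hi
        rw [hi, hyj]
    · rintro ⟨y, ⟨hy, h2⟩, rfl⟩
      refine ⟨?_, ?_⟩
      · rw [SetLike.mem_coe, mem_con]
        exact ⟨y, hy, h2 j (fun h => h (Or.inr rfl)), rfl⟩
      · intro i hi
        rw [Set.mem_compl_iff, not_not] at hi
        exact h2 i (fun h => h (Or.inl ⟨i, hi, rfl⟩))
  rw [heq]

lemma finrank_con (hj : ∃ y ∈ L, y j ≠ 0) : finrank k (con L j) + 1 = finrank k L := by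
  have := kd_con L j ∅
  rw [kd_empty, Set.image_empty, Set.empty_union] at this
  rw [this]
  exact kd_singleton_of_nonloop L j hj

/-- **Tutte's lemma**: deletion or contraction preserves connectedness. -/
theorem Conn.minor {L : Submodule k (ι → k)} (h : Conn L) (j : ι)
    (hj : ({j}ᶜ : Set ι).Nonempty) : Conn (del L j) ∨ Conn (con L j) := by
  by_contra hcon
  rw [not_or] at hcon
  obtain ⟨h1, h2⟩ := hcon
  unfold Conn at h1 h2
  push Not at h1 h2
  obtain ⟨A, hA, hA', hAr⟩ := h1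
  obtain ⟨C, hC, hC', hCr⟩ := h2
  have hcol := h.noncoloop j hj
  have hr := finrank_del L j hcol
  have hr' := finrank_con L j (h.nonloop j hj)
  rw [kd_del L j hcol, kd_del L j hcol, hr] at hAr
  rw [kd_con, kd_con] at hCr
  -- the main inequality for `A, C` and also for `A, Cᶜ`
  have key : ∀ C : Set {i // i ≠ j},
      finrank k (con L j) ≤ kd L (Subtype.val '' C ∪ {j}) + kd L (Subtype.val '' Cᶜ ∪ {j}) →
      (A ∩ C).Nonempty → (Aᶜ ∩ Cᶜ).Nonempty → False := by
    intro C hCr hne1 hne2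
    have e1 := kd_super L (Subtype.val '' A) (Subtype.val '' C ∪ {j})
    have e2 := kd_super L (Subtype.val '' Aᶜ) (Subtype.val '' Cᶜ ∪ {j})
    have s1 : (Subtype.val '' A) ∩ (Subtype.val '' C ∪ {j}) = Subtype.val '' (A ∩ C) := by
      ext i
      constructor
      · rintro ⟨⟨a, ha, rfl⟩, ⟨c, hc, hca⟩ | hi⟩
        · have : c = a := Subtype.ext hca
          exact ⟨a, ⟨ha, this ▸ hc⟩, rfl⟩
        · exact absurd hi a.2
      · rintro ⟨a, ⟨ha, hc⟩, rfl⟩
        exact ⟨⟨a, ha, rfl⟩, Or.inl ⟨a, hc, rfl⟩⟩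
    have s2 : (Subtype.val '' Aᶜ) ∩ (Subtype.val '' Cᶜ ∪ {j}) = Subtype.val '' (Aᶜ ∩ Cᶜ) := by
      ext i
      constructor
      · rintro ⟨⟨a, ha, rfl⟩, ⟨c, hc, hca⟩ | hi⟩
        · have : c = a := Subtype.ext hca
          exact ⟨a, ⟨ha, this ▸ hc⟩, rfl⟩
        · exact absurd hi a.2
      · rintro ⟨a, ⟨ha, hc⟩, rfl⟩
        exact ⟨⟨a, ha, rfl⟩, Or.inl ⟨a, hc, rfl⟩⟩
    have s3 : (Subtype.val '' A) ∪ (Subtype.val '' C ∪ {j}) = (Subtype.val '' (Aᶜ ∩ Cᶜ))ᶜ := by
      ext i
      constructor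
      · rintro (⟨a, ha, rfl⟩ | ⟨c, hc, rfl⟩ | hi)
        · rintro ⟨b, ⟨hb, _⟩, hba⟩
          exact hb ((Subtype.ext hba : b = a) ▸ ha)
        · rintro ⟨b, ⟨_, hb⟩, hba⟩
          exact hb ((Subtype.ext hba : b = c) ▸ hc)
        · rintro ⟨b, _, hba⟩
          rw [Set.mem_singleton_iff] at hi
          exact b.2 (hba.trans hi)
      · intro hi
        by_cases hij : i = j
        · exact Or.inr (Or.inr hij)
        · by_cases hiA : (⟨i, hij⟩ : {i // i ≠ j}) ∈ A
          · exact Or.inl ⟨_, hiA, rfl⟩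
          · by_cases hiC : (⟨i, hij⟩ : {i // i ≠ j}) ∈ C
            · exact Or.inr (Or.inl ⟨_, hiC, rfl⟩)
            · exact absurd ⟨_, ⟨hiA, hiC⟩, rfl⟩ hi
    have s4 : (Subtype.val '' Aᶜ) ∪ (Subtype.val '' Cᶜ ∪ {j}) = (Subtype.val '' (A ∩ C))ᶜ := by
      ext i
      constructor
      · rintro (⟨a, ha, rfl⟩ | ⟨c, hc, rfl⟩ | hi)
        · rintro ⟨b, ⟨hb, _⟩, hba⟩
          exact ha ((Subtype.ext hba : b = a) ▸ hb)
        · rintro ⟨b, ⟨_, hb⟩, hba⟩
          exact hc ((Subtype.ext hba : b = c) ▸ hb)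
        · rintro ⟨b, _, hba⟩
          rw [Set.mem_singleton_iff] at hi
          exact b.2 (hba.trans hi)
      · intro hi
        by_cases hij : i = j
        · exact Or.inr (Or.inr hij)
        · by_cases hiA : (⟨i, hij⟩ : {i // i ≠ j}) ∈ A
          · by_cases hiC : (⟨i, hij⟩ : {i // i ≠ j}) ∈ C
            · exact absurd ⟨_, ⟨hiA, hiC⟩, rfl⟩ hi
            · exact Or.inr (Or.inl ⟨_, hiC, rfl⟩)
          · exact Or.inl ⟨_, hiA, rfl⟩
    rw [s1, s3] at e1
    rw [s2, s4] at e2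
    have f1 := h (Subtype.val '' (A ∩ C)) (hne1.image _) ⟨j, by rintro ⟨b, _, hb⟩; exact b.2 hb⟩
    have f2 := h (Subtype.val '' (Aᶜ ∩ Cᶜ)) (hne2.image _) ⟨j, by rintro ⟨b, _, hb⟩; exact b.2 hb⟩
    omega
  have k1 := key C hCr
  have k2 := key Cᶜ (by rw [compl_compl, add_comm]; exact hCr)
  rw [compl_compl] at k2
  by_cases h1 : (A ∩ C).Nonempty
  · have h2 : ¬ (Aᶜ ∩ Cᶜ).Nonempty := k1 h1
    rw [Set.not_nonempty_iff_eq_empty] at h2
    -- `Aᶜ ⊆ C` and `Cᶜ ⊆ A`
    obtain ⟨b, hb⟩ := hA'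
    obtain ⟨d, hd⟩ := hC'
    have hbC : b ∈ C := by
      by_contra hbC
      have : b ∈ Aᶜ ∩ Cᶜ := ⟨hb, hbC⟩
      rw [h2] at this
      exact this
    have hdA : d ∈ A := by
      by_contra hdA
      have : d ∈ Aᶜ ∩ Cᶜ := ⟨hdA, hd⟩
      rw [h2] at this
      exact this
    exact k2 ⟨d, hdA, hd⟩ ⟨b, hb, hbC⟩
  · rw [Set.not_nonempty_iff_eq_empty] at h1
    obtain ⟨a, ha⟩ := hA
    obtain ⟨c, hc⟩ := hC
    have haC : a ∈ Cᶜ := by
      intro haC
      have : a ∈ A ∩ C := ⟨ha, haC⟩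
      rw [h1] at this
      exact this
    have hcA : c ∈ Aᶜ := by
      intro hcA
      have : c ∈ A ∩ C := ⟨hcA, hc⟩
      rw [h1] at this
      exact this
    exact k2 ⟨a, ha, haC⟩ ⟨c, hcA, hc⟩

end mat

end Pool.Agent.H24
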