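import Pool.Agent.H24.PRing

set_option autoImplicit false
set_option linter.unusedSectionVars false

namespace Pool.Agent.H24

open Module MvPolynomial

universe u w v

section basics

variable {k : Type u} [Field k] {ι : Type w} [Fintype ι] [DecidableEq ι]
variable {L : Submodule k (ι → k)} {e : ι}

lemma PRing.isDomain (he : ∃ y ∈ L, y e ≠ 0) : IsDomain (PRing L e) := by
  obtain ⟨a, c, _, ⟨f⟩⟩ := PRing.exists_equiv he
  exact MulEquiv.isDomain (MvPolynomial (Fin a ⊕ Fin c) k) f.toMulEquiv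

lemma PRing.trdeg (he : ∃ y ∈ L, y e ≠ 0) :
    Algebra.trdeg k (PRing L e) = ((Fintype.card ι - 1 : ℕ) : Cardinal) := by
  obtain ⟨a, c, hac, ⟨f⟩⟩ := PRing.exists_equiv he
  have h1 := f.lift_trdeg_eq
  rw [MvPolynomial.trdeg_of_isDomain] at h1
  have h2 : Fintype.card ι - 1 = a + c := by omega
  rw [h2]
  have h3 : Cardinal.mk (Fin a ⊕ Fin c) = ((a + c : ℕ) : Cardinal) := by simp
  rw [h3, Cardinal.lift_natCast, Cardinal.lift_natCast] at h1
  exact Cardinal.lift_injective (by rw [h1, Cardinal.lift_natCast])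

/-- Evaluate at a point of `L` with `e`-coordinate one and zero `w`. -/
lemma PRing.exists_eval (he : ∃ y ∈ L, y e ≠ 0) (i : ι) (hi : ∃ y ∈ L, y i ≠ 0) :
    ∃ f : PRing L e →ₐ[k] k, f (xP L e i) ≠ 0 := by
  obtain ⟨y₀, hy₀, hy₀e⟩ := he
  let y : ι → k := (y₀ e)⁻¹ • y₀
  have hy : y ∈ L := L.smul_mem _ hy₀
  have hye : y e = 1 := by simp [y, hy₀e]
  have key : ∀ z ∈ L, z e = 1 → z i ≠ 0 → ∃ f : PRing L e →ₐ[k] k, f (xP L e i) ≠ 0 := by
    intro z hz hze hzi
    refine ⟨liftP z 0 (inExt_self.mpr hz) ?_ hze, ?_⟩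
    · intro c _
      simp
    · rw [liftP_xP]
      exact hzi
  by_cases hyi : y i = 0
  · obtain ⟨z, hz, hzi⟩ := hi
    refine key (z + (1 - z e) • y) (L.add_mem hz (L.smul_mem _ hy)) ?_ ?_
    · simp [hye]
    · simp [hyi, hzi]
  · exact key y hy hye hyi

lemma xP_ne_zero (he : ∃ y ∈ L, y e ≠ 0) (i : ι) (hi : ∃ y ∈ L, y i ≠ 0) : xP L e i ≠ 0 := by
  obtain ⟨f, hf⟩ := PRing.exists_eval he i hi
  intro h
  rw [h, map_zero] at hf
  exact hf rfl

lemma wP_ne_zero (he : ∃ y ∈ L, y e ≠ 0) (i : ι) (hi : ∃ y ∈ perp L, y i ≠ 0) :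
    wP L e i ≠ 0 := by
  obtain ⟨y₀, hy₀, hy₀e⟩ := he
  obtain ⟨z, hz, hzi⟩ := hi
  let y : ι → k := (y₀ e)⁻¹ • y₀
  have hy : y ∈ L := L.smul_mem _ hy₀
  have hye : y e = 1 := by simp [y, hy₀e]
  intro h
  have h1 : liftP (R := k) y z (inExt_self.mpr hy) (inExt_self.mpr hz) hye (wP L e i) = z i :=
    liftP_wP ..
  rw [h, map_zero] at h1
  exact hzi h1.symm

end basics

section minors

variable {k : Type u} [Field k] {ι : Type w} [Fintype ι] [DecidableEq ι]

/-- The restriction map to the complement of `j`. -/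
def resj (k : Type u) [Field k] (j : ι) : (ι → k) →ₗ[k] ({i // i ≠ j} → k) :=
  LinearMap.funLeft k k (fun i : {i // i ≠ j} => (i : ι))

omit [Fintype ι] [DecidableEq ι] in
@[simp] lemma resj_apply (j : ι) (y : ι → k) (i : {i // i ≠ j}) : resj k j y i = y i := rfl

/-- Deletion of `j`. -/
def del (L : Submodule k (ι → k)) (j : ι) : Submodule k ({i // i ≠ j} → k) := L.map (resj k j)

/-- Contraction of `j`. -/
def con (L : Submodule k (ι → k)) (j : ι) : Submodule k ({i // i ≠ j} → k) :=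
  (L ⊓ supported {j}ᶜ).map (resj k j)

omit [Fintype ι] [DecidableEq ι] in
lemma mem_supported_compl {j : ι} {y : ι → k} : y ∈ supported ({j}ᶜ : Set ι) ↔ y j = 0 := by
  constructor
  · intro h
    exact h j (by simp)
  · intro h i hi
    simp only [Set.mem_compl_iff, Set.mem_singleton_iff, not_not] at hi
    rw [hi, h]

lemma mem_con {L : Submodule k (ι → k)} {j : ι} {c : {i // i ≠ j} → k} :
    c ∈ con L j ↔ ∃ y ∈ L, y j = 0 ∧ resj k j y = c := by
  constructor
  · rintro ⟨y, ⟨h1, h2⟩, h3⟩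
    exact ⟨y, h1, mem_supported_compl.mp h2, h3⟩
  · rintro ⟨y, h1, h2, h3⟩
    exact ⟨y, ⟨h1, mem_supported_compl.mpr h2⟩, h3⟩

lemma mem_del {L : Submodule k (ι → k)} {j : ι} {c : {i // i ≠ j} → k} :
    c ∈ del L j ↔ ∃ y ∈ L, resj k j y = c := Iff.rfl

/-- Extension by zero. -/
def ext0 (j : ι) (c : {i // i ≠ j} → k) : ι → k := fun i => if h : i = j then 0 else c ⟨i, h⟩

lemma ext0_j (j : ι) (c : {i // i ≠ j} → k) : ext0 j c j = 0 := by simp [ext0]

lemma resj_ext0 (j : ι) (c : {i // i ≠ j} → k) : resj k j (ext0 j c) = c := by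
  funext i
  simp [ext0, i.2]

lemma perp_del (L : Submodule k (ι → k)) (j : ι) : perp (del L j) = con (perp L) j := by
  ext c
  rw [mem_con]
  constructor
  · intro hc
    refine ⟨ext0 j c, ?_, ext0_j j c, resj_ext0 j c⟩
    intro y hy
    rw [Fintype.sum_eq_add_sum_subtype_ne _ j, ext0_j, zero_mul, zero_add]
    rw [← hc (resj k j y) ⟨y, hy, rfl⟩]
    refine Finset.sum_congr rfl (fun i _ => ?_)
    rw [← resj_apply j (ext0 j c), resj_ext0, resj_apply]
  · rintro ⟨c', hc', hc'j, rfl⟩ y ⟨y', hy', rfl⟩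
    have := hc' y' hy'
    rw [Fintype.sum_eq_add_sum_subtype_ne _ j, hc'j, zero_mul, zero_add] at this
    exact this

lemma perp_con (L : Submodule k (ι → k)) (j : ι) : perp (con L j) = del (perp L) j := by
  have h := perp_del (perp L) j
  rw [perp_perp] at h
  rw [← h, perp_perp]

variable (L : Submodule k (ι → k)) (e j : ι) (hej : e ≠ j)

section delMap

variable (c : ι → k) (hc : c ∈ perp L) (hcj : c j = 1)

/-- The values of the `x`-coordinates under the deletion map. -/
noncomputable def delX : ι → PRing (del L j) ⟨e, hej⟩ := fun i =>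
  if h : i = j then -∑ i' : {i // i ≠ j}, c (i' : ι) • xP (del L j) ⟨e, hej⟩ i' else xP (del L j) ⟨e, hej⟩ ⟨i, h⟩

/-- The values of the `w`-coordinates under the deletion map. -/
noncomputable def delW : ι → PRing (del L j) ⟨e, hej⟩ := fun i =>
  if h : i = j then 0 else wP (del L j) ⟨e, hej⟩ ⟨i, h⟩

lemma delX_of_ne {i : ι} (h : i ≠ j) : delX L e j hej c i = xP (del L j) ⟨e, hej⟩ ⟨i, h⟩ := by
  simp [delX, h]

lemma delX_j : delX L e j hej c j = -∑ i' : {i // i ≠ j}, c (i' : ι) • xP (del L j) ⟨e, hej⟩ i' := by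
  simp [delX]

lemma delW_of_ne {i : ι} (h : i ≠ j) : delW L e j hej i = wP (del L j) ⟨e, hej⟩ ⟨i, h⟩ := by
  simp [delW, h]

lemma delW_j : delW L e j hej j = 0 := by
  simp [delW]

include hc hcj in
lemma inExt_delX : InExt L (delX L e j hej c) := by
  intro d hd
  have h1 : d - d j • c ∈ perp L := (perp L).sub_mem hd ((perp L).smul_mem _ hc)
  have h2 : resj k j (d - d j • c) ∈ perp (del L j) := by
    rw [perp_del, mem_con]
    exact ⟨_, h1, by simp [hcj], rfl⟩
  have h3 := inExt_xP (del L j) ⟨e, hej⟩ _ h2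
  rw [Fintype.sum_eq_add_sum_subtype_ne _ j, delX_j, ← h3, smul_neg, Finset.smul_sum,
    ← Finset.sum_neg_distrib, ← Finset.sum_add_distrib]
  refine Finset.sum_congr rfl (fun i _ => ?_)
  rw [delX_of_ne L e j hej c i.2, resj_apply, Pi.sub_apply, Pi.smul_apply, sub_smul, smul_eq_mul,
    mul_smul]
  abel

lemma inExt_delW : InExt (perp L) (delW L e j hej) := by
  rw [inExt_perp]
  intro y hy
  have h2 : resj k j y ∈ del L j := ⟨y, hy, rfl⟩
  have h3 := (inExt_perp.mp (inExt_wP (del L j) ⟨e, hej⟩)) _ h2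
  rw [Fintype.sum_eq_add_sum_subtype_ne _ j, delW_j, smul_zero, zero_add, ← h3]
  refine Finset.sum_congr rfl (fun i _ => ?_)
  rw [delW_of_ne L e j hej i.2, resj_apply]

/-- The deletion map. -/
noncomputable def delMap : PRing L e →ₐ[k] PRing (del L j) ⟨e, hej⟩ :=
  liftP (delX L e j hej c) (delW L e j hej) (inExt_delX L e j hej c hc hcj)
    (inExt_delW L e j hej) (by rw [delX_of_ne L e j hej c hej]; exact xP_e _ _)

lemma delMap_x (i : {i // i ≠ j}) : delMap L e j hej c hc hcj (xP L e i) =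
    xP (del L j) ⟨e, hej⟩ i := by
  rw [delMap, liftP_xP, delX_of_ne L e j hej c i.2]

lemma delMap_w (i : {i // i ≠ j}) : delMap L e j hej c hc hcj (wP L e i) =
    wP (del L j) ⟨e, hej⟩ i := by
  rw [delMap, liftP_wP, delW_of_ne L e j hej i.2]

lemma delMap_wj : delMap L e j hej c hc hcj (wP L e j) = 0 := by
  rw [delMap, liftP_wP, delW_j]

lemma delMap_surjective : Function.Surjective (delMap L e j hej c hc hcj) := by
  rw [← AlgHom.range_eq_top, eq_top_iff, ← PRing.adjoin_eq_top, Algebra.adjoin_le_iff]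
  rintro z (⟨i, rfl⟩ | ⟨i, rfl⟩)
  · exact ⟨xP L e i, delMap_x L e j hej c hc hcj i⟩
  · exact ⟨wP L e i, delMap_w L e j hej c hc hcj i⟩

lemma delMap_ker : RingHom.ker (delMap L e j hej c hc hcj) = Ideal.span {wP L e j} := by
  apply le_antisymm
  · let π : PRing L e →ₐ[k] (PRing L e ⧸ Ideal.span {wP L e j}) := Ideal.Quotient.mkₐ k _
    have hπ : π (wP L e j) = 0 :=
      (Ideal.Quotient.eq_zero_iff_mem).mpr (Ideal.subset_span rfl)
    let back : PRing (del L j) ⟨e, hej⟩ →ₐ[k] (PRing L e ⧸ Ideal.span {wP L e j}) :=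
      liftP (fun i => π (xP L e i)) (fun i => π (wP L e i)) (by
        intro d hd
        rw [perp_del, mem_con] at hd
        obtain ⟨d', hd', hd'j, rfl⟩ := hd
        have h1 := ((inExt_xP L e).map π) _ hd'
        rw [Fintype.sum_eq_add_sum_subtype_ne _ j, hd'j, zero_smul, zero_add] at h1
        exact h1) (by
        rw [inExt_perp]
        rintro _ ⟨y, hy, rfl⟩
        have h1 := (inExt_perp.mp ((inExt_wP L e).map π)) _ hy
        rw [Fintype.sum_eq_add_sum_subtype_ne _ j, hπ, smul_zero, zero_add] at h1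
        exact h1) (by
        change π (xP L e e) = 1
        rw [xP_e, map_one])
    have hcomp : back.comp (delMap L e j hej c hc hcj) = π := by
      apply PRing.hom_ext
      · intro i
        by_cases h : i = j
        · rw [h, AlgHom.comp_apply, delMap, liftP_xP, delX_j, map_neg, map_sum]
          have h1 := ((inExt_xP L e).map π) _ hc
          rw [Fintype.sum_eq_add_sum_subtype_ne _ j, hcj, one_smul] at h1
          change π (xP L e j) + _ = 0 at h1
          rw [eq_neg_of_add_eq_zero_left h1]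
          congr 1
          refine Finset.sum_congr rfl (fun i' _ => ?_)
          rw [map_smul, liftP_xP]
        · rw [AlgHom.comp_apply, delMap_x L e j hej c hc hcj ⟨i, h⟩, liftP_xP]
      · intro i
        by_cases h : i = j
        · rw [h, AlgHom.comp_apply, delMap_wj, map_zero, hπ]
        · rw [AlgHom.comp_apply, delMap_w L e j hej c hc hcj ⟨i, h⟩, liftP_wP]
    intro p hp
    rw [RingHom.mem_ker] at hp
    have h1 : π p = 0 := by
      rw [← hcomp, AlgHom.comp_apply]
      rw [show delMap L e j hej c hc hcj p = 0 from hp, map_zero]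
    exact (Ideal.Quotient.eq_zero_iff_mem).mp h1
  · rw [Ideal.span_le, Set.singleton_subset_iff]
    exact delMap_wj L e j hej c hc hcj

end delMap

section conMap

variable (y₁ : ι → k) (hy₁ : y₁ ∈ L) (hy₁j : y₁ j = 1)

/-- The values of the `x`-coordinates under the contraction map. -/
noncomputable def conX : ι → PRing (con L j) ⟨e, hej⟩ := fun i =>
  if h : i = j then 0 else xP (con L j) ⟨e, hej⟩ ⟨i, h⟩

/-- The values of the `w`-coordinates under the contraction map. -/
noncomputable def conW : ι → PRing (con L j) ⟨e, hej⟩ := fun i =>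
  if h : i = j then -∑ i' : {i // i ≠ j}, y₁ (i' : ι) • wP (con L j) ⟨e, hej⟩ i' else wP (con L j) ⟨e, hej⟩ ⟨i, h⟩

lemma conX_of_ne {i : ι} (h : i ≠ j) : conX L e j hej i = xP (con L j) ⟨e, hej⟩ ⟨i, h⟩ := by
  simp [conX, h]

lemma conX_j : conX L e j hej j = 0 := by
  simp [conX]

lemma conW_of_ne {i : ι} (h : i ≠ j) : conW L e j hej y₁ i = wP (con L j) ⟨e, hej⟩ ⟨i, h⟩ := by
  simp [conW, h]

lemma conW_j : conW L e j hej y₁ j = -∑ i' : {i // i ≠ j}, y₁ (i' : ι) • wP (con L j) ⟨e, hej⟩ i' := by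
  simp [conW]

lemma inExt_conX : InExt L (conX L e j hej) := by
  intro d hd
  have h2 : resj k j d ∈ perp (con L j) := by
    rw [perp_con]
    exact ⟨d, hd, rfl⟩
  have h3 := inExt_xP (con L j) ⟨e, hej⟩ _ h2
  rw [Fintype.sum_eq_add_sum_subtype_ne _ j, conX_j, smul_zero, zero_add, ← h3]
  refine Finset.sum_congr rfl (fun i _ => ?_)
  rw [conX_of_ne L e j hej i.2, resj_apply]

include hy₁ hy₁j in
lemma inExt_conW : InExt (perp L) (conW L e j hej y₁) := by
  rw [inExt_perp]
  intro y hy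
  have h1 : y - y j • y₁ ∈ L := L.sub_mem hy (L.smul_mem _ hy₁)
  have h2 : resj k j (y - y j • y₁) ∈ con L j := by
    rw [mem_con]
    exact ⟨_, h1, by simp [hy₁j], rfl⟩
  have h3 := (inExt_perp.mp (inExt_wP (con L j) ⟨e, hej⟩)) _ h2
  rw [Fintype.sum_eq_add_sum_subtype_ne _ j, conW_j, ← h3, smul_neg, Finset.smul_sum,
    ← Finset.sum_neg_distrib, ← Finset.sum_add_distrib]
  refine Finset.sum_congr rfl (fun i _ => ?_)
  rw [conW_of_ne L e j hej y₁ i.2, resj_apply, Pi.sub_apply, Pi.smul_apply, sub_smul, smul_eq_mul,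
    mul_smul]
  abel

/-- The contraction map. -/
noncomputable def conMap : PRing L e →ₐ[k] PRing (con L j) ⟨e, hej⟩ :=
  liftP (conX L e j hej) (conW L e j hej y₁) (inExt_conX L e j hej)
    (inExt_conW L e j hej y₁ hy₁ hy₁j) (by rw [conX_of_ne L e j hej hej]; exact xP_e _ _)

lemma conMap_x (i : {i // i ≠ j}) : conMap L e j hej y₁ hy₁ hy₁j (xP L e i) =
    xP (con L j) ⟨e, hej⟩ i := by
  rw [conMap, liftP_xP, conX_of_ne L e j hej i.2]

lemma conMap_w (i : {i // i ≠ j}) : conMap L e j hej y₁ hy₁ hy₁j (wP L e i) =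
    wP (con L j) ⟨e, hej⟩ i := by
  rw [conMap, liftP_wP, conW_of_ne L e j hej y₁ i.2]

lemma conMap_xj : conMap L e j hej y₁ hy₁ hy₁j (xP L e j) = 0 := by
  rw [conMap, liftP_xP, conX_j]

lemma conMap_surjective : Function.Surjective (conMap L e j hej y₁ hy₁ hy₁j) := by
  rw [← AlgHom.range_eq_top, eq_top_iff, ← PRing.adjoin_eq_top, Algebra.adjoin_le_iff]
  rintro z (⟨i, rfl⟩ | ⟨i, rfl⟩)
  · exact ⟨xP L e i, conMap_x L e j hej y₁ hy₁ hy₁j i⟩
  · exact ⟨wP L e i, conMap_w L e j hej y₁ hy₁ hy₁j i⟩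

lemma conMap_ker : RingHom.ker (conMap L e j hej y₁ hy₁ hy₁j) = Ideal.span {xP L e j} := by
  apply le_antisymm
  · let π : PRing L e →ₐ[k] (PRing L e ⧸ Ideal.span {xP L e j}) := Ideal.Quotient.mkₐ k _
    have hπ : π (xP L e j) = 0 :=
      (Ideal.Quotient.eq_zero_iff_mem).mpr (Ideal.subset_span rfl)
    let back : PRing (con L j) ⟨e, hej⟩ →ₐ[k] (PRing L e ⧸ Ideal.span {xP L e j}) :=
      liftP (fun i => π (xP L e i)) (fun i => π (wP L e i)) (by
        intro d hd
        rw [perp_con] at hd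
        obtain ⟨d', hd', rfl⟩ := hd
        have h1 := ((inExt_xP L e).map π) _ hd'
        rw [Fintype.sum_eq_add_sum_subtype_ne _ j] at h1
        change d' j • π (xP L e j) + _ = 0 at h1
        rw [hπ, smul_zero, zero_add] at h1
        exact h1) (by
        rw [inExt_perp]
        intro y hy
        rw [mem_con] at hy
        obtain ⟨y, hy, hyj, rfl⟩ := hy
        have h1 := (inExt_perp.mp ((inExt_wP L e).map π)) _ hy
        rw [Fintype.sum_eq_add_sum_subtype_ne _ j, hyj, zero_smul, zero_add] at h1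
        exact h1) (by
        change π (xP L e e) = 1
        rw [xP_e, map_one])
    have hcomp : back.comp (conMap L e j hej y₁ hy₁ hy₁j) = π := by
      apply PRing.hom_ext
      · intro i
        by_cases h : i = j
        · rw [h, AlgHom.comp_apply, conMap_xj, map_zero, hπ]
        · rw [AlgHom.comp_apply, conMap_x L e j hej y₁ hy₁ hy₁j ⟨i, h⟩, liftP_xP]
      · intro i
        by_cases h : i = j
        · rw [h, AlgHom.comp_apply, conMap, liftP_wP, conW_j, map_neg, map_sum]
          have h1 := (inExt_perp.mp ((inExt_wP L e).map π)) _ hy₁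
          rw [Fintype.sum_eq_add_sum_subtype_ne _ j, hy₁j, one_smul] at h1
          rw [eq_neg_of_add_eq_zero_left h1]
          congr 1
          refine Finset.sum_congr rfl (fun i' _ => ?_)
          rw [map_smul, liftP_wP]
        · rw [AlgHom.comp_apply, conMap_w L e j hej y₁ hy₁ hy₁j ⟨i, h⟩, liftP_wP]
    intro p hp
    rw [RingHom.mem_ker] at hp
    have h1 : π p = 0 := by
      rw [← hcomp, AlgHom.comp_apply]
      rw [show conMap L e j hej y₁ hy₁ hy₁j p = 0 from hp, map_zero]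
    exact (Ideal.Quotient.eq_zero_iff_mem).mp h1
  · rw [Ideal.span_le, Set.singleton_subset_iff]
    exact conMap_xj L e j hej y₁ hy₁ hy₁j

end conMap

end minors

end Pool.Agent.H24
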