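import Pool.Agent.H24.ValLemma

set_option autoImplicit false

namespace Pool.Agent.H24

open Module MvPolynomial

universe u w v

section PRing

variable {k : Type u} [Field k] {ι : Type w} [Fintype ι]

/-- The ideal of linear relations `x ∈ L`, `w ∈ L^⊥`, `x e = 1`. -/
noncomputable def relIdeal (L : Submodule k (ι → k)) (e : ι) : Ideal (MvPolynomial (ι ⊕ ι) k) :=
  Ideal.span (({p | ∃ c ∈ perp L, p = ∑ i, c i • X (Sum.inl i)} ∪
    {p | ∃ y ∈ L, p = ∑ i, y i • X (Sum.inr i)}) ∪ {X (Sum.inl e) - 1})

/-- The coordinate ring of `{(x, w) : x ∈ L, w ∈ L^⊥, x e = 1}`. -/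
def PRing (L : Submodule k (ι → k)) (e : ι) : Type (max u w) :=
  MvPolynomial (ι ⊕ ι) k ⧸ relIdeal L e

noncomputable instance (L : Submodule k (ι → k)) (e : ι) : CommRing (PRing L e) :=
  inferInstanceAs (CommRing (MvPolynomial (ι ⊕ ι) k ⧸ relIdeal L e))

noncomputable instance (L : Submodule k (ι → k)) (e : ι) : Algebra k (PRing L e) :=
  inferInstanceAs (Algebra k (MvPolynomial (ι ⊕ ι) k ⧸ relIdeal L e))

/-- The quotient map. -/
noncomputable def mkP (L : Submodule k (ι → k)) (e : ι) :
    MvPolynomial (ι ⊕ ι) k →ₐ[k] PRing L e :=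
  Ideal.Quotient.mkₐ k (relIdeal L e)

lemma mkP_surjective (L : Submodule k (ι → k)) (e : ι) : Function.Surjective (mkP L e) :=
  Ideal.Quotient.mkₐ_surjective k _

lemma mkP_eq_zero {L : Submodule k (ι → k)} {e : ι} {p : MvPolynomial (ι ⊕ ι) k}
    (hp : p ∈ relIdeal L e) : mkP L e p = 0 :=
  (Ideal.Quotient.eq_zero_iff_mem (I := relIdeal L e)).mpr hp

/-- The universal `x`. -/
noncomputable def xP (L : Submodule k (ι → k)) (e : ι) (i : ι) : PRing L e :=
  mkP L e (X (Sum.inl i))

/-- The universal `w`. -/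
noncomputable def wP (L : Submodule k (ι → k)) (e : ι) (i : ι) : PRing L e :=
  mkP L e (X (Sum.inr i))

variable (L : Submodule k (ι → k)) (e : ι)

lemma inExt_xP : InExt L (xP L e) := by
  intro c hc
  have h1 : (∑ i, c i • X (Sum.inl i) : MvPolynomial (ι ⊕ ι) k) ∈ relIdeal L e :=
    Ideal.subset_span (Or.inl (Or.inl ⟨c, hc, rfl⟩))
  have h2 := mkP_eq_zero h1
  rw [← h2, map_sum]
  exact Finset.sum_congr rfl (fun i _ => (map_smul _ _ _).symm)

lemma inExt_wP : InExt (perp L) (wP L e) := by
  rw [inExt_perp]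
  intro c hc
  have h1 : (∑ i, c i • X (Sum.inr i) : MvPolynomial (ι ⊕ ι) k) ∈ relIdeal L e :=
    Ideal.subset_span (Or.inl (Or.inr ⟨c, hc, rfl⟩))
  have h2 := mkP_eq_zero h1
  rw [← h2, map_sum]
  exact Finset.sum_congr rfl (fun i _ => (map_smul _ _ _).symm)

lemma xP_e : xP L e e = 1 := by
  have h1 : (X (Sum.inl e) - 1 : MvPolynomial (ι ⊕ ι) k) ∈ relIdeal L e :=
    Ideal.subset_span (Or.inr rfl)
  have h2 := mkP_eq_zero h1
  rw [map_sub, map_one, sub_eq_zero] at h2
  exact h2

variable {R : Type v} [CommRing R] [Algebra k R]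

/-- The universal property of `PRing L e`. -/
noncomputable def liftP {L : Submodule k (ι → k)} {e : ι} (x w : ι → R) (hx : InExt L x)
    (hw : InExt (perp L) w) (hxe : x e = 1) : PRing L e →ₐ[k] R :=
  Ideal.Quotient.liftₐ (relIdeal L e) (aeval (Sum.elim x w)) (by
    intro p hp
    have h1 : relIdeal L e ≤ RingHom.ker (aeval (Sum.elim x w) : MvPolynomial (ι ⊕ ι) k →ₐ[k] R) := by
      rw [relIdeal, Ideal.span_le]
      rintro q ((⟨c, hc, rfl⟩ | ⟨y, hy, rfl⟩) | hq)
      · rw [SetLike.mem_coe, RingHom.mem_ker, map_sum]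
        rw [← hx c hc]
        refine Finset.sum_congr rfl (fun i _ => ?_)
        rw [map_smul, aeval_X, Sum.elim_inl]
      · rw [SetLike.mem_coe, RingHom.mem_ker, map_sum]
        rw [← (inExt_perp.mp hw) y hy]
        refine Finset.sum_congr rfl (fun i _ => ?_)
        rw [map_smul, aeval_X, Sum.elim_inr]
      · rw [Set.mem_singleton_iff] at hq
        rw [hq, SetLike.mem_coe, RingHom.mem_ker, map_sub, aeval_X, Sum.elim_inl, hxe, map_one,
          sub_self]
    exact h1 hp)

section lift

variable {L} {e}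
variable (x w : ι → R) (hx : InExt L x) (hw : InExt (perp L) w) (hxe : x e = 1)

lemma liftP_mkP (p : MvPolynomial (ι ⊕ ι) k) :
    liftP x w hx hw hxe (mkP L e p) = aeval (Sum.elim x w) p :=
  Ideal.Quotient.lift_mk _ _ _

@[simp] lemma liftP_xP (i : ι) : liftP x w hx hw hxe (xP L e i) = x i := by
  rw [xP, liftP_mkP, aeval_X, Sum.elim_inl]

@[simp] lemma liftP_wP (i : ι) : liftP x w hx hw hxe (wP L e i) = w i := by
  rw [wP, liftP_mkP, aeval_X, Sum.elim_inr]

end lift

variable {L} {e}

lemma PRing.hom_ext {f g : PRing L e →ₐ[k] R} (h1 : ∀ i, f (xP L e i) = g (xP L e i))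
    (h2 : ∀ i, f (wP L e i) = g (wP L e i)) : f = g := by
  have h3 : f.comp (mkP L e) = g.comp (mkP L e) := by
    apply MvPolynomial.algHom_ext
    rintro (i | i)
    · exact h1 i
    · exact h2 i
  apply AlgHom.ext
  intro p
  obtain ⟨q, rfl⟩ := mkP_surjective L e p
  exact DFunLike.congr_fun h3 q

lemma PRing.adjoin_eq_top : Algebra.adjoin k (Set.range (xP L e) ∪ Set.range (wP L e)) = ⊤ := by
  rw [eq_top_iff]
  rintro p -
  obtain ⟨q, rfl⟩ := mkP_surjective L e p
  induction q using MvPolynomial.induction_on with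
  | C a =>
    have : mkP L e (C a) = algebraMap k (PRing L e) a := (mkP L e).commutes a
    rw [this]
    exact Subalgebra.algebraMap_mem _ a
  | add p q hp hq =>
    rw [map_add]
    exact add_mem hp hq
  | mul_X p i hp =>
    rw [map_mul]
    apply mul_mem hp
    apply Algebra.subset_adjoin
    rcases i with i | i
    · exact Or.inl ⟨i, rfl⟩
    · exact Or.inr ⟨i, rfl⟩

/-! ### `PRing` is a polynomial ring -/

lemma InExt.of_mem {M : Submodule k (ι → k)} {y : ι → k} (hy : y ∈ M) :
    InExt (R := R) M (fun i => algebraMap k R (y i)) := by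
  intro c hc
  have h := hc y hy
  have h2 := congrArg (algebraMap k R) h
  rw [map_sum, map_zero] at h2
  rw [← h2]
  exact Finset.sum_congr rfl (fun i _ => by rw [Algebra.smul_def, map_mul])

lemma InExt.sum {M : Submodule k (ι → k)} {α : Type*} (s : Finset α) (y : α → ι → R)
    (hy : ∀ a ∈ s, InExt M (y a)) : InExt M (fun i => ∑ a ∈ s, y a i) := by
  intro c hc
  have : ∑ i, c i • ∑ a ∈ s, y a i = ∑ a ∈ s, ∑ i, c i • y a i := by
    rw [Finset.sum_comm]
    exact Finset.sum_congr rfl (fun i _ => Finset.smul_sum)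
  rw [this]
  exact Finset.sum_eq_zero (fun a ha => hy a ha c hc)

lemma sum_coeffs_smul_algebraMap (f : (ι → k) →ₗ[k] k) (y : ι → k) :
    ∑ i, coeffs f i • algebraMap k R (y i) = algebraMap k R (f y) := by
  conv_rhs => rw [← form_coeffs f, form_apply, map_sum]
  exact Finset.sum_congr rfl (fun i _ => by rw [Algebra.smul_def, map_mul])

lemma sum_coeffs_proj [DecidableEq ι] (x : ι → R) (i : ι) :
    ∑ j, coeffs (LinearMap.proj i : (ι → k) →ₗ[k] k) j • x j = x i := by
  rw [Finset.sum_eq_single i]
  · simp [coeffs]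
  · intro j _ hj
    simp [coeffs, Ne.symm hj]
  · simp

/-- Coordinates on a subspace: there are linear forms dual to a given basis. -/
lemma exists_coords (M : Submodule k (ι → k)) :
    ∃ (φ : Fin (finrank k M) → ((ι → k) →ₗ[k] k)) (b : Fin (finrank k M) → (ι → k)),
      (∀ m, b m ∈ M) ∧ (∀ m m', φ m (b m') = if m = m' then 1 else 0) ∧
      (∀ y ∈ M, y = ∑ m, φ m y • b m) := by
  classical
  let b := Module.finBasis k M
  obtain ⟨p, hp⟩ := M.subtype.exists_leftInverse_of_injective
    (LinearMap.ker_eq_bot.mpr M.injective_subtype)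
  have hp' : ∀ y : M, p y = y := fun y => LinearMap.congr_fun hp y
  refine ⟨fun m => (b.coord m).comp p, fun m => b m, fun m => (b m).2, ?_, ?_⟩
  · intro m m'
    rw [LinearMap.comp_apply, hp', Basis.coord_apply, Basis.repr_self, Finsupp.single_apply]
    by_cases h : m = m'
    · simp [h]
    · simp [h, Ne.symm h]
  · intro y hy
    have h2 := congrArg (fun v : M => (v : ι → k)) (b.sum_repr ⟨y, hy⟩)
    simp only [Submodule.coe_sum, Submodule.coe_smul] at h2
    rw [← h2]
    refine Finset.sum_congr rfl (fun m _ => ?_)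
    rw [h2, LinearMap.comp_apply, hp' ⟨y, hy⟩, Basis.coord_apply]

/-- `PRing L e` is a polynomial ring in `card ι - 1` variables when `e` is not a loop. -/
theorem PRing.exists_equiv [DecidableEq ι] (he : ∃ y ∈ L, y e ≠ 0) :
    ∃ a c : ℕ, a + c + 1 = Fintype.card ι ∧
      Nonempty (PRing L e ≃ₐ[k] MvPolynomial (Fin a ⊕ Fin c) k) := by
  classical
  obtain ⟨y₀, hy₀, hy₀e⟩ := he
  let ξ : ι → k := (y₀ e)⁻¹ • y₀
  have hξL : ξ ∈ L := L.smul_mem _ hy₀
  have hξe : ξ e = 1 := by simp [ξ, hy₀e]
  let L0 : Submodule k (ι → k) := L ⊓ LinearMap.ker (LinearMap.proj e : (ι → k) →ₗ[k] k)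
  have hL0 : ∀ y ∈ L, y - y e • ξ ∈ L0 := by
    intro y hy
    refine ⟨L.sub_mem hy (L.smul_mem _ hξL), ?_⟩
    change y e - y e * ξ e = 0
    rw [hξe, mul_one, sub_self]
  obtain ⟨φ, b, hbL0, hφb, hφ⟩ := exists_coords L0
  obtain ⟨ψ, η, hη, hψη, hψ⟩ := exists_coords (perp L)
  have hbL : ∀ m, b m ∈ L := fun m => (hbL0 m).1
  have hbe : ∀ m, b m e = 0 := fun m => (hbL0 m).2
  -- the form `φ' m y = φ m (y - y e ξ)`
  let φ' : Fin (finrank k L0) → ((ι → k) →ₗ[k] k) := fun m =>
    (φ m).comp (LinearMap.id - (LinearMap.proj e).smulRight ξ)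
  have hφ'b : ∀ m m', φ' m (b m') = if m = m' then 1 else 0 := by
    intro m m'
    have : (LinearMap.id - (LinearMap.proj e).smulRight ξ : (ι → k) →ₗ[k] (ι → k)) (b m') = b m' := by
      simp [hbe m']
    rw [LinearMap.comp_apply, this, hφb]
  have hφ'ξ : ∀ m, φ' m ξ = 0 := by
    intro m
    have : (LinearMap.id - (LinearMap.proj e).smulRight ξ : (ι → k) →ₗ[k] (ι → k)) ξ = 0 := by
      simp [hξe]
    rw [LinearMap.comp_apply, this, map_zero]
  have hφ'y : ∀ y ∈ L, y = y e • ξ + ∑ m, φ' m y • b m := by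
    intro y hy
    have h1 := hφ _ (hL0 y hy)
    rw [← sub_eq_iff_eq_add']
    exact h1
  -- the parametrization
  let xq : ι → (MvPolynomial (Fin (finrank k L0) ⊕ Fin (finrank k (perp L))) k) := fun i => algebraMap k (MvPolynomial (Fin (finrank k L0) ⊕ Fin (finrank k (perp L))) k) (ξ i) + ∑ m, X (Sum.inl m) * algebraMap k (MvPolynomial (Fin (finrank k L0) ⊕ Fin (finrank k (perp L))) k) (b m i)
  let wq : ι → (MvPolynomial (Fin (finrank k L0) ⊕ Fin (finrank k (perp L))) k) := fun i => ∑ m, X (Sum.inr m) * algebraMap k (MvPolynomial (Fin (finrank k L0) ⊕ Fin (finrank k (perp L))) k) (η m i)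
  have hxq : InExt L xq := by
    apply InExt.add (InExt.of_mem hξL)
    exact InExt.sum _ _ (fun m _ => (InExt.of_mem (hbL m)).smul _)
  have hwq : InExt (perp L) wq :=
    InExt.sum _ _ (fun m _ => (InExt.of_mem (hη m)).smul _)
  have hxqe : xq e = 1 := by
    simp [xq, hξe, hbe]
  let f : PRing L e →ₐ[k] (MvPolynomial (Fin (finrank k L0) ⊕ Fin (finrank k (perp L))) k) := liftP xq wq hxq hwq hxqe
  let g : (MvPolynomial (Fin (finrank k L0) ⊕ Fin (finrank k (perp L))) k) →ₐ[k] PRing L e := aeval (Sum.elim (fun m => ∑ i, coeffs (φ' m) i • xP L e i)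
    (fun m => ∑ i, coeffs (ψ m) i • wP L e i))
  have hfg : f.comp g = AlgHom.id k (MvPolynomial (Fin (finrank k L0) ⊕ Fin (finrank k (perp L))) k) := by
    apply MvPolynomial.algHom_ext
    rintro (m | m)
    · simp only [AlgHom.comp_apply, g, aeval_X, Sum.elim_inl, map_sum, map_smul, f, liftP_xP]
      change _ = X (Sum.inl m)
      calc ∑ i, coeffs (φ' m) i • xq i
          = ∑ i, coeffs (φ' m) i • algebraMap k (MvPolynomial (Fin (finrank k L0) ⊕ Fin (finrank k (perp L))) k) (ξ i) +
            ∑ m', X (Sum.inl m') * ∑ i, coeffs (φ' m) i • algebraMap k (MvPolynomial (Fin (finrank k L0) ⊕ Fin (finrank k (perp L))) k) (b m' i) := by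
            simp only [xq, smul_add, Finset.sum_add_distrib, Finset.smul_sum, Finset.mul_sum]
            congr 1
            rw [Finset.sum_comm]
            refine Finset.sum_congr rfl (fun m' _ => Finset.sum_congr rfl (fun i _ => ?_))
            rw [mul_smul_comm]
        _ = X (Sum.inl m) := by
            rw [sum_coeffs_smul_algebraMap, hφ'ξ, map_zero, zero_add, Finset.sum_eq_single m]
            · rw [sum_coeffs_smul_algebraMap, hφ'b, if_pos rfl, map_one, mul_one]
            · intro m' _ hm'
              rw [sum_coeffs_smul_algebraMap, hφ'b, if_neg (Ne.symm hm'), map_zero, mul_zero]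
            · simp
    · simp only [AlgHom.comp_apply, g, aeval_X, Sum.elim_inr, map_sum, map_smul, f, liftP_wP]
      change _ = X (Sum.inr m)
      calc ∑ i, coeffs (ψ m) i • wq i
          = ∑ m', X (Sum.inr m') * ∑ i, coeffs (ψ m) i • algebraMap k (MvPolynomial (Fin (finrank k L0) ⊕ Fin (finrank k (perp L))) k) (η m' i) := by
            simp only [wq, Finset.smul_sum, Finset.mul_sum]
            rw [Finset.sum_comm]
            refine Finset.sum_congr rfl (fun m' _ => Finset.sum_congr rfl (fun i _ => ?_))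
            rw [mul_smul_comm]
        _ = X (Sum.inr m) := by
            rw [Finset.sum_eq_single m]
            · rw [sum_coeffs_smul_algebraMap, hψη, if_pos rfl, map_one, mul_one]
            · intro m' _ hm'
              rw [sum_coeffs_smul_algebraMap, hψη, if_neg (Ne.symm hm'), map_zero, mul_zero]
            · simp
  have hgf : g.comp f = AlgHom.id k (PRing L e) := by
    apply PRing.hom_ext
    · intro i
      simp only [AlgHom.comp_apply, f, liftP_xP, xq, map_add, map_sum, map_mul, g, aeval_X,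
        Sum.elim_inl, AlgHom.commutes, AlgHom.id_apply]
      have h1 := (inExt_xP L e).form_eq (LinearMap.proj i)
        (ξ i • LinearMap.proj e + ∑ m, (b m i) • φ' m) (by
          intro y hy
          have h2 := congrFun (hφ'y y hy) i
          simp only [Pi.add_apply, Pi.smul_apply, smul_eq_mul, Finset.sum_apply] at h2
          simp only [LinearMap.coe_proj, Function.eval, LinearMap.add_apply, LinearMap.smul_apply,
            smul_eq_mul, LinearMap.coe_sum, Finset.sum_apply]
          rw [h2, mul_comm (y e)]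
          congr 1
          exact Finset.sum_congr rfl (fun m _ => mul_comm _ _))
      rw [sum_coeffs_proj] at h1
      rw [h1]
      have h4 : ∀ j, coeffs (ξ i • LinearMap.proj e + ∑ m, (b m i) • φ' m) j =
          ξ i * coeffs (LinearMap.proj e : (ι → k) →ₗ[k] k) j + ∑ m, (b m i) * coeffs (φ' m) j := by
        intro j
        simp [coeffs]
      simp only [h4, add_smul, Finset.sum_add_distrib, Finset.sum_smul]
      congr 1
      · have h5 := sum_coeffs_proj (k := k) (xP L e) e
        rw [xP_e] at h5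
        calc algebraMap k (PRing L e) (ξ i) = ξ i • (1 : PRing L e) :=
              Algebra.algebraMap_eq_smul_one _
          _ = ∑ j, (ξ i * coeffs (LinearMap.proj e : (ι → k) →ₗ[k] k) j) • xP L e j := by
              rw [← h5, Finset.smul_sum]
              exact Finset.sum_congr rfl (fun j _ => by rw [mul_smul])
      · rw [Finset.sum_comm]
        refine Finset.sum_congr rfl (fun m _ => ?_)
        rw [Finset.sum_mul]
        refine Finset.sum_congr rfl (fun j _ => ?_)
        rw [mul_smul, Algebra.smul_def (b m i), mul_comm]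
    · intro i
      simp only [AlgHom.comp_apply, f, liftP_wP, wq, map_sum, map_mul, g, aeval_X,
        Sum.elim_inr, AlgHom.commutes, AlgHom.id_apply]
      have h1 := (inExt_wP L e).form_eq (LinearMap.proj i)
        (∑ m, (η m i) • ψ m) (by
          intro y hy
          have h2 := congrFun (hψ y hy) i
          simp only [Pi.smul_apply, smul_eq_mul, Finset.sum_apply] at h2
          simp only [LinearMap.coe_proj, Function.eval, LinearMap.smul_apply,
            smul_eq_mul, LinearMap.coe_sum, Finset.sum_apply]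
          rw [h2]
          exact Finset.sum_congr rfl (fun m _ => mul_comm _ _))
      rw [sum_coeffs_proj] at h1
      rw [h1]
      have h4 : ∀ j, coeffs (∑ m, (η m i) • ψ m) j = ∑ m, (η m i) * coeffs (ψ m) j := by
        intro j
        simp [coeffs]
      simp only [h4, Finset.sum_smul]
      rw [Finset.sum_comm]
      refine Finset.sum_congr rfl (fun m _ => ?_)
      rw [Finset.sum_mul]
      refine Finset.sum_congr rfl (fun j _ => ?_)
      rw [mul_smul, Algebra.smul_def (η m i), mul_comm]
  refine ⟨finrank k L0, finrank k (perp L), ?_, ⟨AlgEquiv.ofAlgHom f g hfg hgf⟩⟩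
  -- dimension count
  have hfr : finrank k L = finrank k L0 + 1 := by
    let q : L →ₗ[k] k := (LinearMap.proj e).comp L.subtype
    have hq : LinearMap.range q = ⊤ := by
      rw [LinearMap.range_eq_top]
      intro c
      exact ⟨⟨c • ξ, L.smul_mem _ hξL⟩, by simp [q, hξe]⟩
    have h1 := LinearMap.finrank_range_add_finrank_ker q
    rw [hq, finrank_top, Module.finrank_self] at h1
    have h2 : finrank k (LinearMap.ker q) = finrank k L0 := by
      have h3 : L0 = (LinearMap.ker q).map L.subtype := by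
        ext y
        constructor
        · rintro ⟨h4, h5⟩
          exact ⟨⟨y, h4⟩, h5, rfl⟩
        · rintro ⟨z, h4, rfl⟩
          exact ⟨z.2, h4⟩
      rw [h3]
      exact (Submodule.equivMapOfInjective L.subtype L.injective_subtype _).finrank_eq
    omega
  have := finrank_add_finrank_perp L
  omega

end PRing

end Pool.Agent.H24
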