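import Pool.Agent.H79.RV.Stm
import Pool.Agent.H79.RT.Basic

/-!
# MP_a7284e_an, project RV: the concrete filtration for the sites to the right of the top site
-/

set_option autoImplicit false

namespace Pool.Agent.H24.RVL

open Finset Classical
open Pool.Agent.H79.RT Pool.Agent.H79.RU Pool.Agent.H79.RV

variable {n m : ℕ}

/-- the filtration: coordinates below `i` and the top marked times of the columns up to `i` -/
noncomputable def KK (τ : ℕ → ℕ → ℕ) (μ : ℕ → ℕ → Q n → Q m → Prop) (T : Q n → Q m → ℕ)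
    (y : Q m) (i : ℕ) (x : Q n) : Q n × (ℕ → ℕ) :=
  (mix i x (fun _ => false), fun a => if a ≤ i then tp τ μ T a m x y else 0)

/-- the number of marks in column `i` -/
noncomputable def rr (μ : ℕ → ℕ → Q n → Q m → Prop) (y : Q m) (i : ℕ) (x : Q n) : ℕ :=
  ((range m).filter fun j => μ i j x y).card

/-- the top marked site exists and lies in a column below `i` -/
def cc (τ : ℕ → ℕ → ℕ) (μ : ℕ → ℕ → Q n → Q m → Prop) (T : Q n → Q m → ℕ)
    (y : Q m) (i : ℕ) (x : Q n) : Prop :=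
  0 < tp τ μ T n m x y ∧ tp τ μ T i m x y = tp τ μ T n m x y

/-- the partial sum of column `i` -/
noncomputable def ww (τ : ℕ → ℕ → ℕ) (μ : ℕ → ℕ → Q n → Q m → Prop) (T : Q n → Q m → ℕ)
    (b : ℕ → ℕ → Q n → Q m → ℝ) (y : Q m) (i : ℕ) (x : Q n) : ℝ :=
  ∑ j ∈ range m, sg j y * b i j x y * ind (τ i j < tp τ μ T i m x y)

theorem tp_mono (τ : ℕ → ℕ → ℕ) (μ : ℕ → ℕ → Q n → Q m → Prop) (T : Q n → Q m → ℕ)
    (x : Q n) (y : Q m) {a a' b : ℕ} (h : a ≤ a') : tp τ μ T a b x y ≤ tp τ μ T a' b x y := by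
  unfold tp
  refine Finset.sup_mono fun p hp => ?_
  obtain ⟨h1, h2⟩ := mem_filter.1 hp
  obtain ⟨h3, h4⟩ := mem_product.1 h1
  exact mem_filter.2 ⟨mem_product.2 ⟨mem_range.2 (lt_of_lt_of_le (mem_range.1 h3) h), h4⟩, h2⟩

theorem tp_le (τ : ℕ → ℕ → ℕ) (μ : ℕ → ℕ → Q n → Q m → Prop) (T : Q n → Q m → ℕ)
    (x : Q n) (y : Q m) (a b : ℕ) : tp τ μ T a b x y ≤ T x y := by
  unfold tp
  exact Finset.sup_le fun p hp => (mem_filter.1 hp).2.2

theorem tp_zero (τ : ℕ → ℕ → ℕ) (μ : ℕ → ℕ → Q n → Q m → Prop) (T : Q n → Q m → ℕ)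
    (x : Q n) (y : Q m) (b : ℕ) : tp τ μ T 0 b x y = 0 := by
  unfold tp
  simp

theorem tp_succ (τ : ℕ → ℕ → ℕ) (μ : ℕ → ℕ → Q n → Q m → Prop) (T : Q n → Q m → ℕ)
    (x : Q n) (y : Q m) (i b : ℕ) : tp τ μ T (i + 1) b x y = tp τ μ T i b x y ∨
      ∃ j ∈ range b, μ i j x y ∧ tp τ μ T (i + 1) b x y = τ i j := by
  have hm := tp_mono τ μ T x y (b := b) (Nat.le_succ i)
  rcases (((range (i + 1) ×ˢ range b).filter
    fun p => μ p.1 p.2 x y ∧ τ p.1 p.2 ≤ T x y)).eq_empty_or_nonempty with he | hne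
  · left
    have h0 : tp τ μ T (i + 1) b x y = 0 := by
      unfold tp
      rw [he]
      simp
    rw [h0] at hm ⊢
    exact (Nat.le_zero.1 hm).symm
  · obtain ⟨p, hp, hps⟩ := Finset.exists_mem_eq_sup _ hne fun p => τ p.1 p.2
    obtain ⟨h1, h2⟩ := mem_filter.1 hp
    obtain ⟨h3, h4⟩ := mem_product.1 h1
    have hv : tp τ μ T (i + 1) b x y = τ p.1 p.2 := hps
    rcases Nat.lt_succ_iff_lt_or_eq.1 (mem_range.1 h3) with hlt | heq
    · left
      refine le_antisymm ?_ hm
      rw [hv]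
      unfold tp
      exact Finset.le_sup (f := fun p : ℕ × ℕ => τ p.1 p.2)
        (mem_filter.2 ⟨mem_product.2 ⟨mem_range.2 hlt, h4⟩, h2⟩)
    · right
      exact ⟨p.2, h4, heq ▸ h2.1, by rw [hv, heq]⟩

theorem KK_co {τ : ℕ → ℕ → ℕ} {μ : ℕ → ℕ → Q n → Q m → Prop} {T : Q n → Q m → ℕ}
    {y : Q m} {i : ℕ} {x x' : Q n} (h : KK τ μ T y i x = KK τ μ T y i x') (l : Fin n)
    (hl : (l : ℕ) < i) : x l = x' l := by
  have h1 := congrFun (congrArg Prod.fst h) l
  simpa [KK, mix, hl] using h1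

theorem KK_tp {τ : ℕ → ℕ → ℕ} {μ : ℕ → ℕ → Q n → Q m → Prop} {T : Q n → Q m → ℕ}
    {y : Q m} {i : ℕ} {x x' : Q n} (h : KK τ μ T y i x = KK τ μ T y i x') (a : ℕ)
    (ha : a ≤ i) : tp τ μ T a m x y = tp τ μ T a m x' y := by
  have h1 := congrFun (congrArg Prod.snd h) a
  simpa [KK, ha] using h1

theorem sg_congr {i : ℕ} {x x' : Q n} (h : ∀ l : Fin n, (l : ℕ) = i → x l = x' l) :
    sg i x = sg i x' := by
  unfold sg
  by_cases hi : i < n
  · rw [dif_pos hi, dif_pos hi, h ⟨i, hi⟩ rfl]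
  · rw [dif_neg hi, dif_neg hi]

theorem sg_inj {i : ℕ} (hi : i < n) {x x' : Q n} (h : sg i x = sg i x') :
    x ⟨i, hi⟩ = x' ⟨i, hi⟩ := by
  unfold sg at h
  rw [dif_pos hi, dif_pos hi] at h
  cases h1 : x ⟨i, hi⟩ <;> cases h2 : x' ⟨i, hi⟩ <;> simp [h1, h2] at h ⊢ <;> norm_num at h

theorem ref (τ : ℕ → ℕ → ℕ) (μ : ℕ → ℕ → Q n → Q m → Prop) (T : Q n → Q m → ℕ)
    (y : Q m) : Ref (KK τ μ T y) := by
  intro i _ x x' h
  refine ⟨?_, sg_congr fun l hl => KK_co h l (by omega)⟩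
  unfold KK
  refine Prod.ext ?_ ?_
  · funext l
    unfold mix
    by_cases hl : (l : ℕ) < i
    · simp only [hl, if_true]
      exact KK_co h l (by omega)
    · simp only [hl, if_false]
  · funext a
    by_cases ha : a ≤ i
    · simp only [ha, if_true]
      exact KK_tp h a (by omega)
    · simp only [ha, if_false]

theorem card_aux {α : Type} (K : Q n → α) (P : Q n → Prop) {i1 : DecidablePred P}
    {i2 : DecidableEq α} (S : Finset ℕ) (g : ℕ → α) (h : ∀ x', P x' → ∃ t ∈ S, g t = K x') :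
    ((univ.filter P).image K).card ≤ S.card := by
  refine (card_le_card (t := S.image g) fun z hz => ?_).trans card_image_le
  obtain ⟨x', hx', rfl⟩ := mem_image.1 hz
  obtain ⟨t, ht, h1⟩ := h x' (mem_filter.1 hx').2
  exact mem_image.2 ⟨t, ht, h1⟩

theorem brn (τ : ℕ → ℕ → ℕ) (μ : ℕ → ℕ → Q n → Q m → Prop) (T : Q n → Q m → ℕ)
    (hμ : ∀ i j, Pr i j (μ i j)) (y : Q m) : Brn (KK τ μ T y) (rr μ y) := by
  refine ⟨fun x x' => ?_, fun i hi x => ?_⟩
  · unfold KK
    refine Prod.ext ?_ ?_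
    · funext l
      simp [mix]
    · funext a
      by_cases ha : a ≤ 0
      · have h0 : a = 0 := Nat.le_zero.1 ha
        subst h0
        simp [tp_zero]
      · simp only [ha, if_false]
  · set S : Finset ℕ := insert (tp τ μ T i m x y)
      (((range m).filter fun j => μ i j x y).image (τ i)) with hS
    set g : ℕ → Q n × (ℕ → ℕ) := fun t => (mix (i + 1) x (fun _ => false),
      fun a => if a ≤ i then tp τ μ T a m x y else if a = i + 1 then t else 0) with hg
    refine (card_aux _ _ S g fun x' hx' => ?_).trans ?_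
    · obtain ⟨hK, hs⟩ := hx'
      have hco : ∀ l : Fin n, (l : ℕ) < i → x' l = x l := fun l hl => KK_co hK l hl
      refine ⟨tp τ μ T (i + 1) m x' y, ?_, ?_⟩
      · rcases tp_succ τ μ T x' y i m with h1 | ⟨j, hj, hj1, hj2⟩
        · rw [h1, KK_tp hK i le_rfl]
          exact mem_insert_self _ _
        · rw [hj2]
          refine mem_insert_of_mem (mem_image_of_mem _ (mem_filter.2 ⟨hj, ?_⟩))
          have := ((hμ i j).1 y).congr hco
          exact this ▸ hj1
      · rw [hg]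
        unfold KK
        refine Prod.ext ?_ ?_
        · funext l
          unfold mix
          by_cases hl : (l : ℕ) < i + 1
          · simp only [hl, if_true]
            rcases Nat.lt_succ_iff_lt_or_eq.1 hl with h1 | h1
            · exact (hco l h1).symm
            · have h2 := sg_inj hi hs
              have h3 : l = ⟨i, hi⟩ := Fin.ext h1
              rw [h3]
              exact h2.symm
          · simp only [hl, if_false]
        · funext a
          by_cases ha : a ≤ i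
          · have ha' : a ≤ i + 1 := by omega
            simp only [ha, ha', if_true]
            exact (KK_tp hK a ha).symm
          · by_cases ha2 : a = i + 1
            · subst ha2
              simp
            · have ha' : ¬ a ≤ i + 1 := by omega
              simp only [ha, ha', ha2, if_false]
    · calc S.card ≤ (((range m).filter fun j => μ i j x y).image (τ i)).card + 1 := card_insert_le _ _
        _ ≤ rr μ y i x + 1 := Nat.add_le_add_right card_image_le 1
        _ = 1 + rr μ y i x := Nat.add_comm _ _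

theorem cc_succ (τ : ℕ → ℕ → ℕ) (μ : ℕ → ℕ → Q n → Q m → Prop) (T : Q n → Q m → ℕ)
    (y : Q m) {i : ℕ} (hi : i < n) (x : Q n) (h : cc τ μ T y i x) : cc τ μ T y (i + 1) x := by
  refine ⟨h.1, le_antisymm (tp_mono τ μ T x y (by omega)) ?_⟩
  rw [← h.2]
  exact tp_mono τ μ T x y (Nat.le_succ i)

theorem ww_congr (τ : ℕ → ℕ → ℕ) (μ : ℕ → ℕ → Q n → Q m → Prop) (T : Q n → Q m → ℕ)
    (b : ℕ → ℕ → Q n → Q m → ℝ) (hb : ∀ i j, Pr i j (b i j)) (y : Q m) {i : ℕ} {x x' : Q n}
    (h : KK τ μ T y i x = KK τ μ T y i x') : ww τ μ T b y i x = ww τ μ T b y i x' := by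
  unfold ww
  refine sum_congr rfl fun j _ => ?_
  rw [((hb i j).1 y).congr (fun l hl => KK_co h l hl), KK_tp h i le_rfl]

theorem ind_nonneg (p : Prop) : 0 ≤ ind p := by
  unfold ind
  split_ifs <;> norm_num

theorem ind_mono {p q : Prop} (h : p → q) : ind p ≤ ind q := by
  unfold ind
  by_cases hp : p
  · rw [if_pos hp, if_pos (h hp)]
  · rw [if_neg hp]
    split_ifs <;> norm_num

theorem rr_eq (μ : ℕ → ℕ → Q n → Q m → Prop) (y : Q m) (i : ℕ) (x : Q n) :
    (rr μ y i x : ℝ) = ∑ j ∈ range m, ind (μ i j x y) := by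
  unfold rr ind
  rw [card_filter]
  push_cast
  rfl

/-- the pointwise (in `y`) form of the one-parameter inequality -/
theorem pt (h3 : SDu) (τ : ℕ → ℕ → ℕ) (μ : ℕ → ℕ → Q n → Q m → Prop) (T : Q n → Q m → ℕ)
    (b : ℕ → ℕ → Q n → Q m → ℝ) (hμ : ∀ i j, Pr i j (μ i j)) (hb : ∀ i j, Pr i j (b i j))
    (y : Q m) :
    (∑ i ∈ range n, av fun x => sg i x * ind (cc τ μ T y i x) * ww τ μ T b y i x) ^ 2 ≤
      (2 * av (fun x => ind (0 < T x y)) +
        8 * ∑ i ∈ range n, av fun x => ∑ j ∈ range m, ind (μ i j x y)) *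
      ∑ i ∈ range n, av fun x => ww τ μ T b y i x ^ 2 := by
  have h := h3 n (Q n × (ℕ → ℕ)) (KK τ μ T y) (rr μ y) (cc τ μ T y) (ww τ μ T b y)
    (ref τ μ T y) (brn τ μ T hμ y) (fun i hi x => cc_succ τ μ T y hi x)
    (fun i _ x x' hx => ww_congr τ μ T b hb y hx)
  refine h.trans (mul_le_mul_of_nonneg_right (add_le_add ?_ ?_)
    (sum_nonneg fun i _ => av_nonneg fun x => sq_nonneg _))
  · refine mul_le_mul_of_nonneg_left (av_mono fun x => ind_mono fun hc => ?_) (by norm_num)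
    exact lt_of_lt_of_le hc.1 (tp_le τ μ T x y n m)
  · refine le_of_eq ?_
    congr 1
    refine sum_congr rfl fun i _ => ?_
    congr 1
    funext x
    exact rr_eq μ y i x

/-- the pairing as an average over `y` -/
theorem pair_eq (τ : ℕ → ℕ → ℕ) (μ : ℕ → ℕ → Q n → Q m → Prop) (T : Q n → Q m → ℕ)
    (b : ℕ → ℕ → Q n → Q m → ℝ) :
    pair b (fun i j x y => τ i j < tp τ μ T n m x y ∧ tp τ μ T i m x y = tp τ μ T n m x y) =
      av fun y => ∑ i ∈ range n, av fun x =>
        sg i x * ind (cc τ μ T y i x) * ww τ μ T b y i x := by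
  unfold pair
  rw [av_sum]
  refine sum_congr rfl fun i _ => ?_
  rw [← av2_sum, av2_swap]
  unfold av2
  congr 1
  funext y
  congr 1
  funext x
  unfold ww
  rw [mul_sum]
  refine sum_congr rfl fun j _ => ?_
  have hind : ind (τ i j < tp τ μ T n m x y ∧ tp τ μ T i m x y = tp τ μ T n m x y) =
      ind (cc τ μ T y i x) * ind (τ i j < tp τ μ T i m x y) := by
    unfold ind cc
    by_cases h1 : tp τ μ T i m x y = tp τ μ T n m x y
    · rw [h1]
      by_cases h2 : τ i j < tp τ μ T n m x y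
      · have h4 : 0 < tp τ μ T n m x y := lt_of_le_of_lt (Nat.zero_le _) h2
        simp [h2, h4]
      · simp [h2]
    · simp [h1]
  rw [hind]
  ring

end Pool.Agent.H24.RVL
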