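import Pool.Agent.H24.Star
import Pool.Agent.H24.Minors

set_option autoImplicit false
set_option linter.unusedSectionVars false

namespace Pool.Agent.H24

open Module

universe u v w

/-- Rank of the target of a ring homomorphism as a module over the source. -/
noncomputable def hrank {A : Type u} {P : Type v} [CommRing A] [CommRing P] (φ : A →+* P) :
    Cardinal.{v} :=
  @Module.rank A P _ _ φ.toAlgebra.toModule

lemma hrank_eq_rank {A : Type u} {P : Type v} [CommRing A] [CommRing P] [Algebra A P] :
    hrank (algebraMap A P) = Module.rank A P := by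
  have : (algebraMap A P).toAlgebra = ‹Algebra A P› := by
    apply Algebra.algebra_ext
    intro r
    rfl
  unfold hrank
  rw [this]

lemma hrank_congr {A : Type u} {A' : Type w} {P P' : Type v} [CommRing A] [CommRing A']
    [CommRing P] [CommRing P'] (φ : A →+* P) (φ' : A' →+* P') (σ : A ≃+* A') (τ : P ≃+* P')
    (h : ∀ a, τ (φ a) = φ' (σ a)) : hrank φ = hrank φ' := by
  let _ := φ.toAlgebra
  let _ := φ'.toAlgebra
  refine rank_eq_of_equiv_equiv (R := A) (R' := A') (M := P) (M₁ := P') σ τ.toAddEquiv σ.bijective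
    (fun r m => ?_)
  change τ (φ r * m) = φ' (σ r) * τ m
  rw [map_mul, h]

lemma rank_quot_mul {A : Type u} {P : Type v} [CommRing A] [IsDomain A] [CommRing P] [IsDomain P]
    [Algebra A P] (a b : P) (ha : a ≠ 0) :
    Module.rank A (P ⧸ Ideal.span {a * b}) =
      Module.rank A (P ⧸ Ideal.span {a}) + Module.rank A (P ⧸ Ideal.span {b}) := by
  have hle : Ideal.span {a * b} ≤ Ideal.span {a} := by
    rw [Ideal.span_singleton_le_span_singleton]
    exact Dvd.intro _ rfl
  let f : (P ⧸ Ideal.span {a * b}) →ₗ[A] (P ⧸ Ideal.span {a}) :=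
    (Ideal.Quotient.factorₐ A hle).toLinearMap
  have hf : Function.Surjective f := Ideal.Quotient.factor_surjective hle
  have hg0 : Ideal.span {b} ≤ Submodule.comap (LinearMap.mulLeft P a) (Ideal.span {a * b}) := by
    intro x hx
    rw [Ideal.mem_span_singleton] at hx
    obtain ⟨c, rfl⟩ := hx
    change a * (b * c) ∈ Ideal.span {a * b}
    rw [Ideal.mem_span_singleton]
    exact ⟨c, by ring⟩
  let g : (P ⧸ Ideal.span {b}) →ₗ[P] (P ⧸ Ideal.span {a * b}) :=
    Submodule.mapQ (Ideal.span {b}) (Ideal.span {a * b}) (LinearMap.mulLeft P a) hg0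
  have hgmk : ∀ p : P, g (Ideal.Quotient.mk _ p) = Ideal.Quotient.mk _ (a * p) := fun p => rfl
  have hfmk : ∀ p : P, f (Ideal.Quotient.mk _ p) = Ideal.Quotient.mk _ p := fun p => rfl
  let g' : (P ⧸ Ideal.span {b}) →ₗ[A] (P ⧸ Ideal.span {a * b}) := g.restrictScalars A
  have hginj : Function.Injective g' := by
    rw [← LinearMap.ker_eq_bot, LinearMap.ker_eq_bot']
    intro m hm
    obtain ⟨p, rfl⟩ := Ideal.Quotient.mk_surjective m
    have h1 : g (Ideal.Quotient.mk _ p) = 0 := hm
    rw [hgmk, Ideal.Quotient.eq_zero_iff_mem, Ideal.mem_span_singleton] at h1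
    obtain ⟨c, hc⟩ := h1
    rw [Ideal.Quotient.eq_zero_iff_mem, Ideal.mem_span_singleton]
    refine ⟨c, ?_⟩
    apply mul_left_cancel₀ ha
    rw [hc]
    ring
  have hker : LinearMap.ker f = LinearMap.range g' := by
    ext m
    constructor
    · intro hm
      obtain ⟨p, rfl⟩ := Ideal.Quotient.mk_surjective m
      rw [LinearMap.mem_ker, hfmk, Ideal.Quotient.eq_zero_iff_mem, Ideal.mem_span_singleton] at hm
      obtain ⟨c, rfl⟩ := hm
      exact ⟨Ideal.Quotient.mk _ c, rfl⟩
    · rintro ⟨m, rfl⟩
      obtain ⟨p, rfl⟩ := Ideal.Quotient.mk_surjective m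
      rw [LinearMap.mem_ker]
      change f (Ideal.Quotient.mk _ (a * p)) = 0
      rw [hfmk, Ideal.Quotient.eq_zero_iff_mem, Ideal.mem_span_singleton]
      exact ⟨p, rfl⟩
  rw [LinearMap.rank_eq_of_surjective hf, hker, rank_range_of_injective g' hginj]

lemma rank_quot_one {A : Type u} {P : Type v} [CommRing A] [IsDomain A] [CommRing P]
    [Algebra A P] : Module.rank A (P ⧸ (Ideal.span {1} : Ideal P)) = 0 := by
  have : Subsingleton (P ⧸ (Ideal.span {1} : Ideal P)) := by
    rw [Ideal.Quotient.subsingleton_iff, Ideal.span_singleton_one]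
  exact rank_subsingleton' A _

lemma rank_quot_pow_mul {A : Type u} {P : Type v} [CommRing A] [IsDomain A] [CommRing P]
    [IsDomain P] [Algebra A P] (a b : P) (ha : a ≠ 0) (s : ℕ) :
    Module.rank A (P ⧸ Ideal.span {a ^ s * b}) =
      s * Module.rank A (P ⧸ Ideal.span {a}) + Module.rank A (P ⧸ Ideal.span {b}) := by
  induction s with
  | zero => rw [pow_zero, one_mul, Nat.cast_zero, zero_mul, zero_add]
  | succ s ih =>
    rw [pow_succ', mul_assoc, rank_quot_mul a (a ^ s * b) ha, ih, Nat.cast_add, Nat.cast_one,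
      add_mul, one_mul, ← add_assoc]
    congr 1
    rw [add_comm]

/-- The rank of a quotient in terms of a surjection. -/
lemma hrank_of_surjective {A : Type u} {P P' : Type v} [CommRing A] [CommRing P] [CommRing P']
    [Algebra A P] (f : P →+* P') (hf : Function.Surjective f) (a : P)
    (hker : RingHom.ker f = Ideal.span {a}) :
    Module.rank A (P ⧸ Ideal.span {a}) = hrank (f.comp (algebraMap A P)) := by
  rw [← hrank_eq_rank]
  refine hrank_congr _ _ (RingEquiv.refl A)
    ((Ideal.quotEquivOfEq hker.symm).trans (RingHom.quotientKerEquivOfSurjective hf)) (fun a => ?_)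
  rfl

end Pool.Agent.H24
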