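import Pool.Agent.H24.Rank

set_option autoImplicit false
set_option linter.unusedSectionVars false

namespace Pool.Agent.H24

open Module

universe u v w

section equivs

variable {ι : Type w} [DecidableEq ι]

/-- Split off the index `j`. -/
def splitEquiv (e j : ι) (hej : e ≠ j) : {i // i ≠ e} ≃ Option {i // i ≠ e ∧ i ≠ j} where
  toFun i := if h : (i : ι) = j then none else some ⟨i, i.2, h⟩
  invFun o := o.elim ⟨j, hej.symm⟩ (fun i => ⟨i, i.2.1⟩)
  left_inv := by
    rintro ⟨i, hi⟩
    by_cases h : i = j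
    · subst h; simp
    · simp [h]
  right_inv := by
    rintro (_ | ⟨i, hi⟩)
    · simp
    · simp [hi.2]

lemma splitEquiv_j (e j : ι) (hej : e ≠ j) : splitEquiv e j hej ⟨j, hej.symm⟩ = none := by
  simp [splitEquiv]

lemma splitEquiv_ne (e j : ι) (hej : e ≠ j) (i : {i // i ≠ e}) (h : (i : ι) ≠ j) :
    splitEquiv e j hej i = some ⟨i, i.2, h⟩ := by
  simp [splitEquiv, h]

/-- The index set of a minor. -/
def minorEquiv (e j : ι) (hej : e ≠ j) :
    {i // i ≠ e ∧ i ≠ j} ≃ {i : {i // i ≠ j} // i ≠ ⟨e, hej⟩} where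
  toFun i := ⟨⟨i, i.2.2⟩, fun h => i.2.1 (congrArg Subtype.val h)⟩
  invFun i := ⟨i, fun h => i.2 (Subtype.ext h), i.1.2⟩
  left_inv := fun _ => rfl
  right_inv := fun _ => rfl

end equivs

section recur

variable {k : Type u} [Field k] {ι : Type w} [Fintype ι] [DecidableEq ι]

/-- The coordinates `x_i^s w_i`. -/
noncomputable def uP (s : ℕ) (L : Submodule k (ι → k)) (e i : ι) : PRing L e :=
  xP L e i ^ s * wP L e i

/-- The map `k[u_i : i ≠ e] → PRing L e`. -/
noncomputable def uMap (s : ℕ) (L : Submodule k (ι → k)) (e : ι) :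
    MvPolynomial {i // i ≠ e} k →ₐ[k] PRing L e :=
  MvPolynomial.aeval (fun i : {i // i ≠ e} => uP s L e i)

/-- The rank of `PRing L e` over `k[u_i : i ≠ e]`. -/
noncomputable def D (s : ℕ) (L : Submodule k (ι → k)) (e : ι) : Cardinal :=
  hrank (uMap s L e).toRingHom

variable (L : Submodule k (ι → k)) (e j : ι) (hej : e ≠ j)

/-- The map `k[u_i : i ≠ e, j] → PRing L e`. -/
noncomputable def uMap2 (s : ℕ) : MvPolynomial {i // i ≠ e ∧ i ≠ j} k →ₐ[k] PRing L e :=
  MvPolynomial.aeval (fun i : {i // i ≠ e ∧ i ≠ j} => uP s L e i)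

lemma D_del (s : ℕ) (c : ι → k) (hc : c ∈ perp L) (hcj : c j = 1) :
    hrank ((delMap L e j hej c hc hcj).toRingHom.comp (uMap2 L e j s).toRingHom) =
      D s (del L j) ⟨e, hej⟩ := by
  refine hrank_congr _ _ (MvPolynomial.renameEquiv k (minorEquiv e j hej)).toRingEquiv
    (RingEquiv.refl _) (fun a => ?_)
  have h : ((delMap L e j hej c hc hcj).comp (uMap2 L e j s)) =
      (uMap s (del L j) ⟨e, hej⟩).comp
        (MvPolynomial.rename (minorEquiv e j hej)) := by
    apply MvPolynomial.algHom_ext
    intro i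
    rw [AlgHom.comp_apply, AlgHom.comp_apply, uMap2, uMap, MvPolynomial.aeval_X,
      MvPolynomial.rename_X, MvPolynomial.aeval_X, uP, uP, map_mul, map_pow,
      delMap_x L e j hej c hc hcj ⟨i, i.2.2⟩, delMap_w L e j hej c hc hcj ⟨i, i.2.2⟩]
    rfl
  exact DFunLike.congr_fun h a

lemma D_con (s : ℕ) (y₁ : ι → k) (hy₁ : y₁ ∈ L) (hy₁j : y₁ j = 1) :
    hrank ((conMap L e j hej y₁ hy₁ hy₁j).toRingHom.comp (uMap2 L e j s).toRingHom) =
      D s (con L j) ⟨e, hej⟩ := by
  refine hrank_congr _ _ (MvPolynomial.renameEquiv k (minorEquiv e j hej)).toRingEquiv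
    (RingEquiv.refl _) (fun a => ?_)
  have h : ((conMap L e j hej y₁ hy₁ hy₁j).comp (uMap2 L e j s)) =
      (uMap s (con L j) ⟨e, hej⟩).comp
        (MvPolynomial.rename (minorEquiv e j hej)) := by
    apply MvPolynomial.algHom_ext
    intro i
    rw [AlgHom.comp_apply, AlgHom.comp_apply, uMap2, uMap, MvPolynomial.aeval_X,
      MvPolynomial.rename_X, MvPolynomial.aeval_X, uP, uP, map_mul, map_pow,
      conMap_x L e j hej y₁ hy₁ hy₁j ⟨i, i.2.2⟩, conMap_w L e j hej y₁ hy₁ hy₁j ⟨i, i.2.2⟩]
    rfl
  exact DFunLike.congr_fun h a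

end recur

section recur2

lemma mem_valuationSubring_of_isIntegral {A K : Type*} [CommRing A] [Field K] [Algebra A K]
    (V : ValuationSubring K) (hA : ∀ a : A, algebraMap A K a ∈ V) (z : K) (hz : IsIntegral A z) :
    z ∈ V := by
  let _ : Algebra A V := ((algebraMap A K).codRestrict V.toSubring hA).toAlgebra
  have : IsScalarTower A V K := IsScalarTower.of_algebraMap_eq (fun _ => rfl)
  have h1 : IsIntegral V z := hz.tower_top
  rw [IsIntegrallyClosed.isIntegral_iff] at h1
  obtain ⟨y, rfl⟩ := h1
  exact y.2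

variable {k : Type u} [Field k] {ι : Type w} [Fintype ι] [DecidableEq ι]
variable (L : Submodule k (ι → k)) (e j : ι) (hej : e ≠ j)

include hej in
open Polynomial in
theorem D_eq_quot (s : ℕ) (hs : s ≠ 0) (hall : ∀ i, ∃ y ∈ L, y i ≠ 0)
    (hcol : Pi.single j 1 ∉ L)
    (hind : AlgebraicIndependent k (fun i : {i // i ≠ e} => uP s L e i)) :
    D s L e = hrank ((Ideal.Quotient.mk (Ideal.span {uP s L e j})).comp
      (uMap2 L e j s).toRingHom) := by
  classical
  have hdom : IsDomain (PRing L e) := PRing.isDomain (hall e)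
  let τ := {i // i ≠ e ∧ i ≠ j}
  let R₀ := MvPolynomial τ k
  let alg0 : Algebra R₀ (PRing L e) := (uMap2 L e j s).toRingHom.toAlgebra
  have halg0 : ∀ p : R₀, algebraMap R₀ (PRing L e) p = uMap2 L e j s p := fun _ => rfl
  let alg1 : Algebra R₀[X] (PRing L e) :=
    (Polynomial.aeval (uP s L e j) : R₀[X] →ₐ[R₀] PRing L e).toRingHom.toAlgebra
  have halg1 : ∀ p : R₀[X], algebraMap R₀[X] (PRing L e) p = Polynomial.aeval (uP s L e j) p :=
    fun _ => rfl
  have tow : IsScalarTower R₀ R₀[X] (PRing L e) := by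
    apply IsScalarTower.of_algebraMap_eq
    intro r
    rw [halg1, Polynomial.algebraMap_eq, Polynomial.aeval_C]
  have towk : IsScalarTower k R₀ (PRing L e) := by
    apply IsScalarTower.of_algebraMap_eq
    intro r
    rw [halg0, AlgHom.commutes]
  have towk1 : IsScalarTower k R₀[X] (PRing L e) := by
    apply IsScalarTower.of_algebraMap_eq
    intro r
    rw [IsScalarTower.algebraMap_apply k R₀ (PRing L e),
      IsScalarTower.algebraMap_apply R₀ R₀[X] (PRing L e)]
    rfl
  -- the identification of rings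
  let E : MvPolynomial {i // i ≠ e} k ≃ₐ[k] R₀[X] :=
    (MvPolynomial.renameEquiv k (splitEquiv e j hej)).trans (MvPolynomial.optionEquivLeft k τ)
  have hE : ∀ a, algebraMap R₀[X] (PRing L e) (E a) = uMap s L e a := by
    intro a
    have h : (IsScalarTower.toAlgHom k R₀[X] (PRing L e)).comp (E : _ →ₐ[k] R₀[X]) =
        uMap s L e := by
      apply MvPolynomial.algHom_ext
      intro i
      have h1 : (E (MvPolynomial.X i)) = MvPolynomial.optionEquivLeft k τ
          (MvPolynomial.X (splitEquiv e j hej i)) := by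
        change MvPolynomial.optionEquivLeft k τ (MvPolynomial.rename _ (MvPolynomial.X i)) = _
        rw [MvPolynomial.rename_X]
      rw [AlgHom.comp_apply]
      change algebraMap R₀[X] (PRing L e) (E (MvPolynomial.X i)) = _
      rw [h1, uMap, MvPolynomial.aeval_X, halg1]
      by_cases hi : (i : ι) = j
      · have h2 : i = ⟨j, hej.symm⟩ := Subtype.ext hi
        rw [h2, splitEquiv_j, MvPolynomial.optionEquivLeft_X_none, Polynomial.aeval_X]
      · rw [splitEquiv_ne e j hej i hi, MvPolynomial.optionEquivLeft_X_some, Polynomial.aeval_C,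
          halg0, uMap2, MvPolynomial.aeval_X]
    exact DFunLike.congr_fun h a
  have hD : D s L e = Module.rank R₀[X] (PRing L e) := by
    rw [← hrank_eq_rank]
    refine hrank_congr _ _ E.toRingEquiv (RingEquiv.refl _) (fun a => ?_)
    exact (hE a).symm
  have hinj : Function.Injective (algebraMap R₀[X] (PRing L e)) := by
    intro a b hab
    obtain ⟨a, rfl⟩ := E.surjective a
    obtain ⟨b, rfl⟩ := E.surjective b
    rw [hE, hE] at hab
    exact congrArg E (hind hab)
  -- the function field
  let K := FractionRing (PRing L e)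
  have hPK : Function.Injective (algebraMap (PRing L e) K) := IsFractionRing.injective _ K
  let G : Set (PRing L e) := Set.range (xP L e) ∪ Set.range (wP L e)
  have hGfin : G.Finite := (Set.finite_range _).union (Set.finite_range _)
  have hG : Algebra.adjoin R₀[X] G = ⊤ := by
    rw [eq_top_iff]
    intro p _
    have h1 : Algebra.adjoin k G ≤ (Algebra.adjoin R₀[X] G).restrictScalars k :=
      Algebra.adjoin_le Algebra.subset_adjoin
    have h2 : p ∈ Algebra.adjoin k G := by rw [PRing.adjoin_eq_top]; exact Algebra.mem_top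
    exact h1 h2
  have halgebraic : Algebra.IsAlgebraic R₀[X] (PRing L e) := by
    have htb : IsTranscendenceBasis k (fun i : {i // i ≠ e} => uP s L e i) := by
      apply hind.isTranscendenceBasis_of_lift_trdeg_le_of_finite
      rw [PRing.trdeg (hall e)]
      have h3 : Cardinal.mk {i // i ≠ e} = ((Fintype.card ι - 1 : ℕ) : Cardinal) := by
        rw [Cardinal.mk_fintype, Fintype.card_subtype_compl, Fintype.card_subtype_eq]
      rw [h3]
      simp
    have h4 := htb.isAlgebraic
    have h5 : ∀ r ∈ Algebra.adjoin k (Set.range (fun i : {i // i ≠ e} => uP s L e i)),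
        ∃ q : R₀[X], algebraMap R₀[X] (PRing L e) q = r := by
      intro r hr
      rw [Algebra.adjoin_range_eq_range_aeval] at hr
      obtain ⟨q, rfl⟩ := hr
      exact ⟨E q, hE q⟩
    let f : R₀[X] →+* Algebra.adjoin k (Set.range (fun i : {i // i ≠ e} => uP s L e i)) :=
      (algebraMap R₀[X] (PRing L e)).codRestrict
        (Algebra.adjoin k (Set.range (fun i : {i // i ≠ e} => uP s L e i))).toSubring (by
          intro q
          obtain ⟨q, rfl⟩ := E.surjective q
          rw [hE, Subalgebra.mem_toSubring, Algebra.adjoin_range_eq_range_aeval]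
          exact ⟨q, rfl⟩)
    have hf : Function.Surjective f := by
      rintro ⟨r, hr⟩
      obtain ⟨q, hq⟩ := h5 r hr
      exact ⟨q, Subtype.ext hq⟩
    constructor
    intro p
    exact IsAlgebraic.of_ringHom_of_comp_eq f (RingHom.id (PRing L e)) (h4.isAlgebraic p) hf
      Function.injective_id rfl
  have halgRK : ∀ r : R₀[X], algebraMap R₀[X] K r =
    algebraMap (PRing L e) K (algebraMap R₀[X] (PRing L e) r) :=
    fun r => IsScalarTower.algebraMap_apply R₀[X] (PRing L e) K r
  have main := star (R₀ := R₀) (P := PRing L e) hinj K G hGfin hG (by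
    intro g hg V hV hV'
    have hk : ∀ c : k, algebraMap k K c ∈ V := by
      intro c
      have h1 := hV (algebraMap k R₀[X] c)
      rw [← IsScalarTower.algebraMap_apply k R₀[X] (PRing L e),
        ← IsScalarTower.algebraMap_apply k (PRing L e) K] at h1
      exact h1
    have huj : algebraMap (PRing L e) K (uP s L e j) ∈ V := by
      have h1 := hV X
      rw [halg1, aeval_X] at h1
      exact h1
    have hT : algebraMap R₀[X] (PRing L e) X = uP s L e j := by rw [halg1, aeval_X]
    have hunit : ∀ r : R₀[X], r.coeff 0 ≠ 0 → V.valuation (algebraMap R₀[X] K r) = 1 := by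
      intro r hr
      have h1 := (V.valuation_le_one_iff _).mpr (hV r)
      have h2 := (V.valuation_le_one_iff _).mpr (hV' r hr)
      have h3 : algebraMap R₀[X] K r ≠ 0 := by
        intro h0
        have h4 : r = 0 := hinj (by rw [map_zero]; exact hPK (by rw [map_zero]; exact h0))
        rw [h4, coeff_zero] at hr
        exact hr rfl
      have h4 : V.valuation (algebraMap R₀[X] K r) ≠ 0 := (Valuation.ne_zero_iff _).mpr h3
      apply le_antisymm h1
      rw [map_inv₀] at h2
      exact (inv_le_one₀ (zero_lt_iff.mpr h4)).mp h2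
    rcases lt_or_ge (V.valuation (algebraMap (PRing L e) K (uP s L e j))) 1 with hlt | hge
    · have h1 := valLemma V hk L (fun i => algebraMap (PRing L e) K (xP L e i))
        (fun i => algebraMap (PRing L e) K (wP L e i))
        ((inExt_xP L e).map (IsScalarTower.toAlgHom k (PRing L e) K))
        ((inExt_wP L e).map (IsScalarTower.toAlgHom k (PRing L e) K))
        e j hej.symm (by rw [xP_e, map_one])
        (fun i => by
          rw [map_ne_zero_iff _ hPK]
          exact xP_ne_zero (hall e) i (hall i)) s hs hcol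
        (by rw [← map_pow, ← map_mul]; exact hlt)
        (by
          intro p hp
          have h2 := hunit (C p) (by rw [coeff_C_zero]; exact hp)
          rw [halgRK, halg1, aeval_C, halg0, uMap2] at h2
          have h3 : algebraMap (PRing L e) K (MvPolynomial.aeval
              (fun i : {i // i ≠ e ∧ i ≠ j} => uP s L e i) p) =
              MvPolynomial.aeval (fun i : {i // i ≠ e ∧ i ≠ j} =>
                algebraMap (PRing L e) K (xP L e i) ^ s * algebraMap (PRing L e) K (wP L e i)) p := by
            have h4 : (IsScalarTower.toAlgHom k (PRing L e) K).comp (MvPolynomial.aeval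
              (fun i : {i // i ≠ e ∧ i ≠ j} => uP s L e i)) =
              MvPolynomial.aeval (fun i : {i // i ≠ e ∧ i ≠ j} =>
                algebraMap (PRing L e) K (xP L e i) ^ s * algebraMap (PRing L e) K (wP L e i)) := by
              apply MvPolynomial.algHom_ext
              intro i
              rw [AlgHom.comp_apply, MvPolynomial.aeval_X, MvPolynomial.aeval_X]
              change algebraMap (PRing L e) K _ = _
              rw [uP, map_mul, map_pow]
            exact DFunLike.congr_fun h4 p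
          rw [← h3]
          exact h2)
      rcases hg with ⟨i, rfl⟩ | ⟨i, rfl⟩
      · exact (h1 i).1
      · exact (h1 i).2
    · -- `V` contains the fraction field of `R₀[X]`
      have hall' : ∀ r : R₀[X], r ≠ 0 → V.valuation (algebraMap R₀[X] K r) = 1 := by
        have hX : V.valuation (algebraMap R₀[X] K X) = 1 := by
          rw [halgRK, hT]
          exact le_antisymm ((V.valuation_le_one_iff _).mpr huj) hge
        intro r hr
        obtain ⟨n, q, hq, hr'⟩ : ∃ (n : ℕ) (q : R₀[X]), q.coeff 0 ≠ 0 ∧ r = X ^ n * q := by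
          obtain ⟨q, hq1, hq2⟩ := (FiniteMultiplicity.exists_eq_pow_mul_and_not_dvd
            (a := (X : R₀[X])) (b := r) (Polynomial.finiteMultiplicity_X_sub_C 0 hr |> fun h => by
              rw [C_0, sub_zero] at h; exact h))
          exact ⟨_, q, fun h => hq2 (X_dvd_iff.mpr h), hq1⟩
        rw [hr', map_mul, map_pow, map_mul, map_pow, hX, one_pow, one_mul]
        exact hunit q hq
      have h1 : IsAlgebraic R₀[X] (algebraMap (PRing L e) K g) :=
        (halgebraic.isAlgebraic g).algebraMap
      obtain ⟨y, hy0, hy⟩ := h1.exists_integral_multiple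
      have h2 := mem_valuationSubring_of_isIntegral V hV _ hy
      rw [← V.valuation_le_one_iff, Algebra.smul_def, map_mul, hall' y hy0, one_mul,
        V.valuation_le_one_iff] at h2
      exact h2)
  rw [hD, main, ← hrank_eq_rank]
  have hT : algebraMap R₀[X] (PRing L e) X = uP s L e j := by rw [halg1, aeval_X]
  rw [hT]
  rfl

omit [DecidableEq ι] in
lemma exists_perp_of_notMem {L : Submodule k (ι → k)} {v : ι → k} (h : v ∉ L) :
    ∃ c ∈ perp L, ∑ i, c i * v i ≠ 0 := by
  by_contra hcon
  push Not at hcon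
  apply h
  rw [← perp_perp L, mem_perp]
  intro c hc
  rw [← hcon c hc]
  exact Finset.sum_congr rfl (fun i _ => mul_comm _ _)

lemma exists_perp_of_single_notMem {L : Submodule k (ι → k)} {j : ι} (h : Pi.single j 1 ∉ L) :
    ∃ c ∈ perp L, c j = 1 := by
  obtain ⟨c, hc, hcj⟩ := exists_perp_of_notMem h
  rw [Finset.sum_eq_single j (by intro i _ hi; simp [hi]) (by simp), Pi.single_eq_same,
    mul_one] at hcj
  exact ⟨(c j)⁻¹ • c, (perp L).smul_mem _ hc, by simp [hcj]⟩

theorem D_rec (s : ℕ) (hs : s ≠ 0) (hall : ∀ i, ∃ y ∈ L, y i ≠ 0)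
    (hcol : Pi.single j 1 ∉ L)
    (hind : AlgebraicIndependent k (fun i : {i // i ≠ e} => uP s L e i)) :
    D s L e = s * D s (con L j) ⟨e, hej⟩ + D s (del L j) ⟨e, hej⟩ := by
  have hdom : IsDomain (PRing L e) := PRing.isDomain (hall e)
  rw [D_eq_quot L e j hej s hs hall hcol hind]
  let alg0 : Algebra (MvPolynomial {i // i ≠ e ∧ i ≠ j} k) (PRing L e) :=
    (uMap2 L e j s).toRingHom.toAlgebra
  obtain ⟨y, hy, hyj⟩ := hall j
  have hy₁ : (y j)⁻¹ • y ∈ L := L.smul_mem _ hy
  have hy₁j : ((y j)⁻¹ • y) j = 1 := by simp [hyj]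
  obtain ⟨c, hc, hcj⟩ := exists_perp_of_single_notMem hcol
  rw [← D_del L e j hej s c hc hcj, ← D_con L e j hej s _ hy₁ hy₁j]
  have h1 := hrank_of_surjective (A := MvPolynomial {i // i ≠ e ∧ i ≠ j} k)
    (delMap L e j hej c hc hcj).toRingHom (delMap_surjective L e j hej c hc hcj) (wP L e j)
    (delMap_ker L e j hej c hc hcj)
  have h2 := hrank_of_surjective (A := MvPolynomial {i // i ≠ e ∧ i ≠ j} k)
    (conMap L e j hej _ hy₁ hy₁j).toRingHom (conMap_surjective L e j hej _ hy₁ hy₁j) (xP L e j)
    (conMap_ker L e j hej _ hy₁ hy₁j)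
  have h3 := rank_quot_pow_mul (A := MvPolynomial {i // i ≠ e ∧ i ≠ j} k) (xP L e j) (wP L e j)
    (xP_ne_zero (hall e) j (hall j)) s
  rw [h1, h2] at h3
  exact (hrank_eq_rank (A := MvPolynomial {i // i ≠ e ∧ i ≠ j} k)
    (P := PRing L e ⧸ Ideal.span {xP L e j ^ s * wP L e j})).trans h3

lemma D_eq_zero (s : ℕ)
    (hind : ¬ AlgebraicIndependent k (fun i : {i // i ≠ e} => uP s L e i)) : D s L e = 0 := by
  let alg0 : Algebra (MvPolynomial {i // i ≠ e} k) (PRing L e) := (uMap s L e).toRingHom.toAlgebra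
  have h1 : D s L e = Module.rank (MvPolynomial {i // i ≠ e} k) (PRing L e) := rfl
  rw [h1, rank_eq_zero_iff]
  intro x
  unfold AlgebraicIndependent at hind
  rw [injective_iff_map_eq_zero] at hind
  push Not at hind
  obtain ⟨a, ha, ha0⟩ := hind
  refine ⟨a, ha0, ?_⟩
  rw [Algebra.smul_def]
  have h2 : algebraMap (MvPolynomial {i // i ≠ e} k) (PRing L e) a = 0 := ha
  rw [h2, zero_mul]

lemma PRing.subsingleton (he : ∀ y ∈ L, y e = 0) : Subsingleton (PRing L e) := by
  apply subsingleton_of_zero_eq_one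
  rw [← xP_e L e]
  have h1 : Pi.single e 1 ∈ perp L := by
    intro y hy
    rw [Finset.sum_eq_single e (by intro i _ hi; simp [hi]) (by simp), he y hy, mul_zero]
  have h2 := inExt_xP L e _ h1
  rw [Finset.sum_eq_single e (by intro i _ hi; simp [hi]) (by simp), Pi.single_eq_same,
    one_smul] at h2
  exact h2.symm

lemma D_loop (s : ℕ) (he : ∀ y ∈ L, y e = 0) : D s L e = 0 := by
  have := PRing.subsingleton L e he
  let alg0 : Algebra (MvPolynomial {i // i ≠ e} k) (PRing L e) := (uMap s L e).toRingHom.toAlgebra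
  exact rank_subsingleton' (MvPolynomial {i // i ≠ e} k) (PRing L e)

end recur2

end Pool.Agent.H24
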