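import Mathlib

set_option autoImplicit false

namespace Pool.Agent.H24

open Module Polynomial

universe u v

/-- Rank from a linearly independent family with torsion cokernel. -/
lemma rank_eq_of_torsion {R : Type u} [CommRing R] [IsDomain R] {M : Type v} [AddCommGroup M]
    [Module R M] {κ : Type v} (f : κ → M) (hf : LinearIndependent R f)
    (htor : ∀ m : M, ∃ a : R, a ≠ 0 ∧ a • m ∈ Submodule.span R (Set.range f)) :
    Module.rank R M = Cardinal.mk κ := by
  have h1 := rank_quotient_add_rank_of_isDomain (R := R) (Submodule.span R (Set.range f))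
  have h2 : Module.rank R (Submodule.span R (Set.range f)) = Cardinal.mk κ := by
    rw [rank_span hf, Cardinal.mk_range_eq _ hf.injective]
  have h3 : Module.rank R (M ⧸ Submodule.span R (Set.range f)) = 0 := by
    rw [rank_eq_zero_iff]
    intro x
    obtain ⟨m, rfl⟩ := Submodule.Quotient.mk_surjective _ x
    obtain ⟨a, ha, ham⟩ := htor m
    refine ⟨a, ha, ?_⟩
    rw [← Submodule.Quotient.mk_smul, Submodule.Quotient.mk_eq_zero]
    exact ham
  rw [← h1, h2, h3, zero_add]

/-- A vector of the `A`-span of a family (`A` a localization of `R` inside `K`) has a multiple by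
a denominator in the `R`-span. -/
lemma exists_smul_mem_span {R A K : Type*} [CommRing R] [CommRing A] [CommRing K] [Algebra R A]
    [Algebra A K] [Algebra R K] [IsScalarTower R A K] (S : Submonoid R) [IsLocalization S A]
    (X : Set K) (z : K) (hz : z ∈ Submodule.span A X) :
    ∃ h ∈ S, h • z ∈ Submodule.span R X := by
  induction hz using Submodule.span_induction with
  | mem x hx => exact ⟨1, S.one_mem, by rw [one_smul]; exact Submodule.subset_span hx⟩
  | zero => exact ⟨1, S.one_mem, by rw [smul_zero]; exact Submodule.zero_mem _⟩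
  | add x y _ _ hx hy =>
    obtain ⟨a, ha, hax⟩ := hx
    obtain ⟨b, hb, hby⟩ := hy
    refine ⟨a * b, S.mul_mem ha hb, ?_⟩
    rw [smul_add]
    apply Submodule.add_mem
    · rw [mul_comm, mul_smul]
      exact Submodule.smul_mem _ _ hax
    · rw [mul_smul]
      exact Submodule.smul_mem _ _ hby
  | smul a x _ hx =>
    obtain ⟨b, hb, hbx⟩ := hx
    obtain ⟨⟨r, s⟩, hrs⟩ := IsLocalization.surj S a
    refine ⟨s * b, S.mul_mem s.2 hb, ?_⟩
    have h1 : ((s : R) * b) • (a • x) = r • (b • x) := by
      have h2 : (s : R) • (a • x) = r • x := by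
        rw [← IsScalarTower.algebraMap_smul A (s : R) (a • x), ← mul_smul, mul_comm]
        rw [hrs, IsScalarTower.algebraMap_smul]
      rw [mul_comm, mul_smul, h2, smul_comm]
    rw [h1]
    exact Submodule.smul_mem _ _ hbx

/-- Integrality from valuation rings. -/
lemma isIntegral_of_forall_valuationSubring {A K : Type*} [CommRing A] [Field K] [Algebra A K]
    (z : K) (h : ∀ V : ValuationSubring K, (∀ a : A, algebraMap A K a ∈ V) → z ∈ V) :
    IsIntegral A z := by
  by_contra hz
  have hz' : z ∉ (integralClosure A K).toSubring := hz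
  obtain ⟨V, hV, hzV⟩ := Subring.exists_le_valuationSubring_of_isIntegrallyClosedIn hz'
  exact hzV (h V (fun a => hV (Subalgebra.algebraMap_mem (integralClosure A K) a)))

section star

variable {R₀ : Type v} [CommRing R₀] [IsDomain R₀] {P : Type v} [CommRing P] [IsDomain P]
  [Algebra R₀ P] [Algebra R₀[X] P] [IsScalarTower R₀ R₀[X] P]

/-- **Specialization of ranks.** -/
theorem star (hinj : Function.Injective (algebraMap R₀[X] P))
    (K : Type*) [Field K] [Algebra P K] [IsFractionRing P K] (G : Set P) (hGfin : G.Finite)
    (hG : Algebra.adjoin R₀[X] G = ⊤)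
    (hint : ∀ g ∈ G, ∀ V : ValuationSubring K,
      (∀ r : R₀[X], algebraMap P K (algebraMap R₀[X] P r) ∈ V) →
      (∀ r : R₀[X], r.coeff 0 ≠ 0 → (algebraMap P K (algebraMap R₀[X] P r))⁻¹ ∈ V) →
      algebraMap P K g ∈ V) :
    Module.rank R₀[X] P = Module.rank R₀ (P ⧸ Ideal.span {algebraMap R₀[X] P X}) := by
  classical
  have hPK : Function.Injective (algebraMap P K) := IsFractionRing.injective P K
  set T : P := algebraMap R₀[X] P X with hT
  have hT0 : T ≠ 0 := by
    intro h
    have : (X : R₀[X]) = 0 := hinj (by rw [map_zero]; exact h)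
    exact X_ne_zero this
  let algRK : Algebra R₀[X] K := ((algebraMap P K).comp (algebraMap R₀[X] P)).toAlgebra
  have tow1 : IsScalarTower R₀[X] P K := IsScalarTower.of_algebraMap_eq (fun _ => rfl)
  -- the localization
  let 𝔭 : Ideal R₀[X] := Ideal.span {X}
  have h𝔭mem : ∀ r : R₀[X], r ∈ 𝔭 ↔ r.coeff 0 = 0 := by
    intro r
    rw [Ideal.mem_span_singleton, X_dvd_iff]
  have h𝔭 : 𝔭.IsPrime := (Ideal.span_singleton_prime X_ne_zero).mpr prime_X
  let A := Localization.AtPrime 𝔭
  have hunit : ∀ y : 𝔭.primeCompl, IsUnit (algebraMap R₀[X] K y) := by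
    intro y
    rw [isUnit_iff_ne_zero]
    intro h
    have h1 : algebraMap P K (algebraMap R₀[X] P y) = 0 := h
    have h2 : algebraMap R₀[X] P (y : R₀[X]) = 0 := hPK (by rw [h1, map_zero])
    have h3 : (y : R₀[X]) = 0 := hinj (by rw [h2, map_zero])
    apply y.2
    rw [h3]
    exact 𝔭.zero_mem
  let algAK : Algebra A K := (IsLocalization.lift (M := 𝔭.primeCompl) hunit).toAlgebra
  have tow2 : IsScalarTower R₀[X] A K := IsScalarTower.of_algebraMap_eq (fun r =>
    (IsLocalization.lift_eq (M := 𝔭.primeCompl) hunit r).symm)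
  have hAR : ∀ r : R₀[X], algebraMap A K (algebraMap R₀[X] A r) =
      algebraMap P K (algebraMap R₀[X] P r) := fun r =>
    (IsScalarTower.algebraMap_apply R₀[X] A K r).symm
  have hunitA : ∀ r : R₀[X], r.coeff 0 ≠ 0 → IsUnit (algebraMap R₀[X] A r) := by
    intro r hr
    exact IsLocalization.map_units A (⟨r, fun h => hr ((h𝔭mem r).mp h)⟩ : 𝔭.primeCompl)
  -- integrality
  have hintA : ∀ z ∈ (algebraMap P K) '' G, IsIntegral A z := by
    rintro _ ⟨g, hg, rfl⟩
    apply isIntegral_of_forall_valuationSubring
    intro V hV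
    refine hint g hg V (fun r => ?_) (fun r hr => ?_)
    · rw [← hAR]; exact hV _
    · obtain ⟨w, hw⟩ := hunitA r hr
      have h1 : (algebraMap P K (algebraMap R₀[X] P r))⁻¹ = algebraMap A K ((w⁻¹ : Aˣ) : A) := by
        rw [← hAR, ← hw]
        rw [inv_eq_iff_eq_inv, ← one_div, eq_div_iff]
        · rw [← map_mul, Units.mul_inv, map_one]
        · intro h2
          have h3 : algebraMap A K ((w : A) * ((w⁻¹ : Aˣ) : A)) = 0 := by rw [map_mul, h2, mul_zero]
          rw [Units.mul_inv, map_one] at h3
          exact one_ne_zero h3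
      rw [h1]
      exact hV _
  let B := Algebra.adjoin A ((algebraMap P K) '' G)
  have hBfg : (Subalgebra.toSubmodule B).FG := fg_adjoin_of_finite (hGfin.image _) hintA
  have hPB : ∀ p : P, algebraMap P K p ∈ B := by
    intro p
    have hp : p ∈ Algebra.adjoin R₀[X] G := by rw [hG]; exact Algebra.mem_top
    induction hp using Algebra.adjoin_induction with
    | mem x hx => exact Algebra.subset_adjoin ⟨x, hx, rfl⟩
    | algebraMap r =>
      rw [← hAR]
      exact Subalgebra.algebraMap_mem B _
    | add x y _ _ hx hy => rw [map_add]; exact add_mem hx hy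
    | mul x y _ _ hx hy => rw [map_mul]; exact mul_mem hx hy
  have hBspan : Subalgebra.toSubmodule B ≤ Submodule.span A (Set.range (algebraMap P K)) := by
    change Subalgebra.toSubmodule (Algebra.adjoin A ((algebraMap P K) '' G)) ≤ _
    rw [Algebra.adjoin_eq_span]
    apply Submodule.span_mono
    intro z hz
    have h1 : Submonoid.closure ((algebraMap P K) '' G) ≤ MonoidHom.mrange (algebraMap P K) := by
      rw [Submonoid.closure_le]
      rintro _ ⟨g, _, rfl⟩
      exact ⟨g, rfl⟩
    exact h1 hz
  -- a maximal independent set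
  obtain ⟨s, hs, hsmax⟩ := exists_maximal_linearIndepOn R₀ (id : (P ⧸ Ideal.span {T}) → _)
  have hsmax' : ∀ m : P ⧸ Ideal.span {T}, ∃ a : R₀, a ≠ 0 ∧ a • m ∈ Submodule.span R₀ s := by
    intro m
    by_cases hm : m ∈ s
    · exact ⟨1, one_ne_zero, by rw [one_smul]; exact Submodule.subset_span hm⟩
    · obtain ⟨a, ha, h1⟩ := hsmax m hm
      refine ⟨a, ha, ?_⟩
      simpa using h1
  have hrank0 : Module.rank R₀ (P ⧸ Ideal.span {T}) = Cardinal.mk s := by
    apply rank_eq_of_torsion (fun x : s => (x : P ⧸ Ideal.span {T})) hs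
    intro m
    obtain ⟨a, ha, h1⟩ := hsmax' m
    refine ⟨a, ha, ?_⟩
    rw [Subtype.range_coe]
    exact h1
  -- lifts
  have hlift : ∀ x : s, ∃ p : P, Ideal.Quotient.mk (Ideal.span {T}) p = (x : P ⧸ Ideal.span {T}) :=
    fun x => Ideal.Quotient.mk_surjective _
  choose lft hlft using hlift
  have hcoeff : ∀ (r : R₀[X]) (p : P), Ideal.Quotient.mk (Ideal.span {T}) (r • p) =
      r.coeff 0 • Ideal.Quotient.mk (Ideal.span {T}) p := by
    intro r p
    have h1 : r = X * r.divX + C (r.coeff 0) := (X_mul_divX_add r).symm
    have h2 : r • p = T * (r.divX • p) + (r.coeff 0) • p := by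
      conv_lhs => rw [h1]
      rw [add_smul, mul_smul, Algebra.smul_def X, C_eq_algebraMap, IsScalarTower.algebraMap_smul]
    rw [h2, map_add, map_mul]
    have h3 : Ideal.Quotient.mk (Ideal.span {T}) T = 0 :=
      Ideal.Quotient.eq_zero_iff_mem.mpr (Ideal.subset_span rfl)
    rw [h3, zero_mul, zero_add]
    rfl
  -- (a) independence
  have hind : LinearIndependent R₀[X] lft := by
    rw [linearIndependent_iff]
    have key : ∀ n : ℕ, ∀ l : s →₀ R₀[X], Finsupp.linearCombination R₀[X] lft l = 0 →
        ∀ i, X ^ n ∣ l i := by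
      intro n
      induction n with
      | zero => intro l _ i; rw [pow_zero]; exact one_dvd _
      | succ n ih =>
        intro l hl i
        -- reduce modulo `T`
        have h0 : ∀ i, (l i).coeff 0 = 0 := by
          have h1 : Finsupp.linearCombination R₀ (fun x : s => (x : P ⧸ Ideal.span {T}))
              (l.mapRange (fun r => r.coeff 0) (coeff_zero 0)) = 0 := by
            have h2 := congrArg (Ideal.Quotient.mk (Ideal.span {T})) hl
            rw [map_zero, Finsupp.linearCombination_apply, Finsupp.sum, map_sum] at h2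
            rw [Finsupp.linearCombination_apply, Finsupp.sum_mapRange_index (by simp), Finsupp.sum,
              ← h2]
            refine Finset.sum_congr rfl (fun x _ => ?_)
            rw [hcoeff, hlft]
          have h3 := (linearIndependent_iff.mp hs) _ h1
          intro i
          have h4 := DFunLike.congr_fun h3 i
          rw [Finsupp.mapRange_apply] at h4
          exact h4
        -- divide by `X`
        let l' : s →₀ R₀[X] := l.mapRange divX divX_zero
        have hl' : Finsupp.linearCombination R₀[X] lft l' = 0 := by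
          have h1 : T * Finsupp.linearCombination R₀[X] lft l' =
              Finsupp.linearCombination R₀[X] lft l := by
            rw [Finsupp.linearCombination_apply, Finsupp.linearCombination_apply,
              Finsupp.sum_mapRange_index (by simp), Finsupp.sum, Finsupp.sum, Finset.mul_sum]
            refine Finset.sum_congr rfl (fun x _ => ?_)
            have h2 : l x = X * (l x).divX := by
              conv_lhs => rw [← X_mul_divX_add (l x), h0 x, C_0, add_zero]
            conv_rhs => rw [h2]
            rw [mul_smul, Algebra.smul_def X]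
          rw [hl] at h1
          exact (mul_eq_zero.mp h1).resolve_left hT0
        have h5 := ih l' hl' i
        have h6 : l i = X * (l i).divX := by
          conv_lhs => rw [← X_mul_divX_add (l i), h0 i, C_0, add_zero]
        rw [h6, pow_succ, mul_comm]
        exact mul_dvd_mul_left _ h5
    intro l hl
    ext1 i
    have h1 := key ((l i).natDegree + 1) l hl i
    by_contra hne
    have h2 := natDegree_le_of_dvd h1 hne
    rw [natDegree_X_pow] at h2
    omega
  -- (b) torsion cokernel
  have htor : ∀ q : P, ∃ a : R₀[X], a ≠ 0 ∧ a • q ∈ Submodule.span R₀[X] (Set.range lft) := by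
    let N : Submodule A K := Submodule.span A (Set.range (fun x : s => algebraMap P K (lft x)))
    have hNB : Subalgebra.toSubmodule B ≤ N ⊔ (IsLocalRing.maximalIdeal A) • (Subalgebra.toSubmodule B) := by
      refine hBspan.trans ?_
      rw [Submodule.span_le]
      rintro _ ⟨p, rfl⟩
      obtain ⟨a, ha, h1⟩ := hsmax' (Ideal.Quotient.mk _ p)
      have h1' : a • (Ideal.Quotient.mk (Ideal.span {T}) p) ∈
          Submodule.span R₀ (Set.range (fun x : s => (x : P ⧸ Ideal.span {T}))) := by
        rw [Subtype.range_coe]; exact h1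
      rw [Finsupp.mem_span_range_iff_exists_finsupp] at h1'
      obtain ⟨c, hc⟩ := h1'
      -- `a p - Σ c x lft x ∈ (T)`
      have h2 : Ideal.Quotient.mk (Ideal.span {T}) (a • p - c.sum (fun x r => r • lft x)) = 0 := by
        rw [map_sub, sub_eq_zero]
        have h3 : Ideal.Quotient.mk (Ideal.span {T}) (a • p) = a • Ideal.Quotient.mk _ p := rfl
        rw [h3, ← hc, Finsupp.sum, Finsupp.sum, map_sum]
        refine Finset.sum_congr rfl (fun x _ => ?_)
        rw [← hlft x]
        rfl
      rw [Ideal.Quotient.eq_zero_iff_mem, Ideal.mem_span_singleton'] at h2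
      obtain ⟨q, hq⟩ := h2
      have hCa : IsUnit (algebraMap R₀[X] A (C a)) := hunitA _ (by rw [coeff_C_zero]; exact ha)
      obtain ⟨w, hw⟩ := hCa
      have hsmulC : ∀ (r : R₀) (p : P), algebraMap P K (r • p) =
          (algebraMap R₀[X] A (C r)) • algebraMap P K p := by
        intro r p
        rw [Algebra.smul_def (algebraMap R₀[X] A (C r)), hAR, ← map_mul, ← Algebra.smul_def,
          C_eq_algebraMap, IsScalarTower.algebraMap_smul]
      have h4 : algebraMap P K p = ((w⁻¹ : Aˣ) : A) • ((w : A) • algebraMap P K p) := by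
        rw [← mul_smul, Units.inv_mul, one_smul]
      have h5 : (w : A) • algebraMap P K p = c.sum (fun x r => algebraMap P K (r • lft x)) +
          (algebraMap R₀[X] A X) • algebraMap P K q := by
        have h6 : a • p = c.sum (fun x r => r • lft x) + q * T := by rw [hq]; ring
        rw [hw, ← hsmulC, h6, map_add, map_mul]
        congr 1
        · rw [Finsupp.sum, Finsupp.sum, map_sum]
        · rw [Algebra.smul_def, hAR, mul_comm]
      rw [h4, h5, smul_add]
      apply Submodule.add_mem_sup
      · apply Submodule.smul_mem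
        apply Submodule.sum_mem
        intro x _
        change algebraMap P K (c x • lft x) ∈ N
        rw [hsmulC]
        exact Submodule.smul_mem _ _ (Submodule.subset_span ⟨x, rfl⟩)
      · rw [← mul_smul]
        apply Submodule.smul_mem_smul
        · apply Ideal.mul_mem_left
          rw [← Localization.AtPrime.map_eq_maximalIdeal]
          apply Ideal.mem_map_of_mem
          exact Ideal.subset_span rfl
        · exact hPB q
    have hle : Subalgebra.toSubmodule B ≤ N :=
      Submodule.le_of_le_smul_of_le_jacobson_bot hBfg (IsLocalRing.maximalIdeal_le_jacobson _) hNB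
    intro q
    have hq : algebraMap P K q ∈ N := hle (hPB q)
    obtain ⟨h, hh, hmem⟩ := exists_smul_mem_span (R := R₀[X]) 𝔭.primeCompl _ _ hq
    refine ⟨h, ?_, ?_⟩
    · intro h0
      apply hh
      rw [h0]
      exact 𝔭.zero_mem
    · have h1 : Submodule.span R₀[X] (Set.range (fun x : s => algebraMap P K (lft x))) =
          (Submodule.span R₀[X] (Set.range lft)).map (IsScalarTower.toAlgHom R₀[X] P K).toLinearMap := by
        rw [Submodule.map_span, ← Set.range_comp]
        rfl
      rw [h1] at hmem
      obtain ⟨p, hp, hpq⟩ := hmem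
      have h2 : p = h • q := by
        apply hPK
        have h3 : algebraMap P K p = h • algebraMap P K q := hpq
        rw [h3, Algebra.smul_def, Algebra.smul_def, map_mul]
        rfl
      rw [← h2]
      exact hp
  rw [hrank0]
  exact rank_eq_of_torsion lft hind htor

end star

end Pool.Agent.H24
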