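import Pool.Agent.H24.LemmaG

set_option autoImplicit false

namespace Pool.Agent.H24

open Module

section LA

variable {k : Type*} [Field k] {ι : Type*} [Fintype ι]

/-- Vectors supported on a set. -/
def supported (T : Set ι) : Submodule k (ι → k) where
  carrier := {y | ∀ i, i ∉ T → y i = 0}
  add_mem' := by
    intro a b ha hb i hi
    simp [ha i hi, hb i hi]
  zero_mem' := by intro i _; rfl
  smul_mem' := by
    intro c a ha i hi
    simp [ha i hi]

lemma perp_supported (T : Set ι) : perp (supported (k := k) T) = supported Tᶜ := by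
  classical
  ext w
  constructor
  · intro hw i hi
    have hi' : i ∈ T := not_not.mp hi
    have h1 : (Pi.single i (1:k) : ι → k) ∈ supported (k := k) T := by
      intro j hj
      have : j ≠ i := fun h => hj (h ▸ hi')
      simp [this]
    have := hw _ h1
    simpa [Pi.single_apply] using this
  · intro hw y hy
    refine Finset.sum_eq_zero (fun i _ => ?_)
    by_cases hi : i ∈ T
    · rw [hw i (fun h => h hi), zero_mul]
    · rw [hy i hi, mul_zero]

lemma perp_sup (L M : Submodule k (ι → k)) : perp (L ⊔ M) = perp L ⊓ perp M := by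
  apply le_antisymm
  · exact le_inf (perp_anti le_sup_left) (perp_anti le_sup_right)
  · rintro w ⟨h1, h2⟩ y hy
    obtain ⟨a, ha, b, hb, rfl⟩ := Submodule.mem_sup.mp hy
    simp only [Pi.add_apply, mul_add, Finset.sum_add_distrib]
    rw [h1 a ha, h2 b hb, add_zero]

lemma perp_inf (L M : Submodule k (ι → k)) : perp (L ⊓ M) = perp L ⊔ perp M := by
  have h := perp_sup (perp L) (perp M)
  rw [perp_perp, perp_perp] at h
  rw [← h, perp_perp]

/-- Duality: a linear form that vanishes on `{y ∈ L : y|_T = 0}` is, on `L`, a combination of the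
coordinates in `T`. -/
lemma duality (L : Submodule k (ι → k)) (T : Set ι) (c : ι → k)
    (h : ∀ y ∈ L, (∀ i ∈ T, y i = 0) → ∑ i, c i * y i = 0) :
    ∃ a : ι → k, (∀ i, i ∉ T → a i = 0) ∧ c - a ∈ perp L := by
  have h1 : c ∈ perp (L ⊓ supported Tᶜ) := by
    intro y hy
    exact h y hy.1 (fun i hi => hy.2 i (fun h => h hi))
  rw [perp_inf, perp_supported, compl_compl] at h1
  obtain ⟨b, hb, a, ha, hab⟩ := Submodule.mem_sup.mp h1
  refine ⟨a, ha, ?_⟩
  have : c - a = b := by rw [← hab]; simp
  rw [this]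
  exact hb

end LA

section val

universe u v w

variable {k : Type u} [Field k] {K : Type v} [Field K] [Algebra k K]

/-- The core contradiction. -/
theorem core {ι : Type w} [Fintype ι] [DecidableEq ι] (V : ValuationSubring K)
    (hk : ∀ c : k, algebraMap k K c ∈ V) (L : Submodule k (ι → k)) (x w : ι → K)
    (hx : InExt L x) (hw : InExt (perp L) w) (e j : ι) (s : ℕ)
    (hu : ∀ i, i ≠ e → i ≠ j → x i ^ s * w i ∈ V)
    (hind : ∀ p : MvPolynomial {i // i ≠ e ∧ i ≠ j} k, p ≠ 0 →
      V.valuation (MvPolynomial.aeval (fun i : {i // i ≠ e ∧ i ≠ j} => x i ^ s * w i) p) = 1)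
    (π : K) (hπ : π ≠ 0) (F T : Finset ι) (hF : F.Nonempty)
    (heF : e ∉ F) (hjF : j ∉ F)
    (h1 : ∀ i ∈ F, V.valuation (x i) = V.valuation π)
    (h2 : ∀ i ∈ T, V.valuation (x i) < V.valuation π)
    (h3 : ∀ i, i ∉ F → i ∉ T → i ≠ e → V.valuation (π ^ s * w i) < 1)
    (h4 : e ∈ T ∨ ∃ z ∈ L, (∀ i ∈ F, z i = 0) ∧ (∀ i ∈ T, z i = 0) ∧ z e = 1) : False := by
  classical
  obtain ⟨i₀, hi₀⟩ := hF
  set v := V.valuation with hv
  have hkv : ∀ c : k, v (algebraMap k K c) ≤ 1 := fun c => (V.valuation_le_one_iff _).mpr (hk c)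
  have hsmul : ∀ (c : k) (z : K), v (c • z) ≤ v z := by
    intro c z
    rw [Algebra.smul_def, map_mul]
    calc v (algebraMap k K c) * v z ≤ 1 * v z := mul_le_mul_left (hkv c) _
      _ = v z := one_mul _
  have hvπ : v π ≠ 0 := (Valuation.ne_zero_iff v).mpr hπ
  -- algebra structures
  let f0 : k →+* V := (algebraMap k K).codRestrict V.toSubring hk
  let algV : Algebra k V := f0.toAlgebra
  have towV : IsScalarTower k V K := IsScalarTower.of_algebraMap_eq (fun c => rfl)
  let κ := IsLocalRing.ResidueField V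
  let algκ : Algebra k κ := ((IsLocalRing.residue V).comp f0).toAlgebra
  have towκ : IsScalarTower k V κ := IsScalarTower.of_algebraMap_eq (fun c => rfl)
  let res : V →ₐ[k] κ := IsScalarTower.toAlgHom k V κ
  have hres : ∀ z : V, res z = 0 ↔ v (z : K) < 1 := by
    intro z
    have : res z = IsLocalRing.residue V z := rfl
    rw [this, IsLocalRing.residue_eq_zero_iff, ValuationSubring.valuation_lt_one_iff]
  have hsmulV : ∀ (c : k) (z : V), ((c • z : V) : K) = c • (z : K) := by
    intro c z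
    rw [Algebra.smul_def, Algebra.smul_def]
    rfl
  -- the subspace
  let N : Submodule k (F → k) := (L ⊓ supported ((T : Set ι)ᶜ)).map (LinearMap.funLeft k k (fun i : F => (i : ι)))
  -- the reduced vectors
  have hxV : ∀ i : F, π⁻¹ * x i ∈ V := by
    intro i
    rw [← V.valuation_le_one_iff, map_mul, map_inv₀, h1 i i.2]
    exact (inv_mul_cancel₀ hvπ).le
  have hwF : ∀ i ∈ F, v (π ^ s * w i) = v (x i ^ s * w i) := by
    intro i hi
    rw [map_mul, map_mul, map_pow, map_pow, h1 i hi]
  have hFe : ∀ i ∈ F, i ≠ e := fun i hi h => heF (h ▸ hi)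
  have hFj : ∀ i ∈ F, i ≠ j := fun i hi h => hjF (h ▸ hi)
  have hwV : ∀ i : F, π ^ s * w i ∈ V := by
    intro i
    rw [← V.valuation_le_one_iff]
    change v (π ^ s * w i) ≤ 1
    rw [hwF i i.2]
    exact (V.valuation_le_one_iff _).mpr (hu i (hFe i i.2) (hFj i i.2))
  let xb : F → κ := fun i => res ⟨π⁻¹ * x i, hxV i⟩
  let wb : F → κ := fun i => res ⟨π ^ s * w i, hwV i⟩
  -- `xb ∈ N ⊗ κ`
  have hxb : InExt N xb := by
    intro c hc
    -- extend `c` by zero
    let c' : ι → k := fun i => if h : i ∈ F then c ⟨i, h⟩ else 0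
    have hsum : ∀ y : ι → k, ∑ i, c' i * y i = ∑ i : F, c i * y i := by
      intro y
      rw [← Finset.sum_subset (Finset.subset_univ F)]
      · rw [← Finset.sum_attach]
        refine Finset.sum_congr rfl (fun i _ => ?_)
        simp [c', i.2]
      · intro i _ hi
        simp [c', hi]
    obtain ⟨a, ha, hca⟩ := duality L (T : Set ι) c' (by
      intro y hy hyT
      rw [hsum]
      apply hc
      refine ⟨y, ⟨hy, fun i hi => hyT i (not_not.mp hi)⟩, ?_⟩
      rfl)
    have hx1 := hx _ hca
    simp only [Pi.sub_apply, sub_smul, Finset.sum_sub_distrib] at hx1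
    have hsum2 : ∑ i, c' i • x i = ∑ i : F, c i • x i := by
      rw [← Finset.sum_subset (Finset.subset_univ F)]
      · rw [← Finset.sum_attach]
        refine Finset.sum_congr rfl (fun i _ => ?_)
        simp [c', i.2]
      · intro i _ hi
        simp [c', hi]
    rw [hsum2] at hx1
    have hx2 : ∑ i : F, c i • x i = ∑ i, a i • x i := sub_eq_zero.mp hx1
    have hlt : v (∑ i, a i • x i) < v π := by
      apply Valuation.map_sum_lt v hvπ
      intro i _
      by_cases hi : i ∈ T
      · exact lt_of_le_of_lt (hsmul _ _) (h2 i hi)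
      · rw [ha i (by simpa using hi), zero_smul, map_zero]
        exact zero_lt_iff.mpr hvπ
    have hzero : res (∑ i : F, c i • (⟨π⁻¹ * x i, hxV i⟩ : V)) = 0 := by
      rw [hres]
      have : ((∑ i : F, c i • (⟨π⁻¹ * x i, hxV i⟩ : V) : V) : K) = π⁻¹ * ∑ i : F, c i • x i := by
        push_cast
        rw [Finset.mul_sum]
        refine Finset.sum_congr rfl (fun i _ => ?_)
        rw [hsmulV, mul_smul_comm]
      rw [this, hx2, map_mul, map_inv₀]
      rw [inv_mul_lt_iff₀ (zero_lt_iff.mpr hvπ), mul_one]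
      exact hlt
    rw [← hzero, map_sum]
    refine Finset.sum_congr rfl (fun i _ => ?_)
    rw [map_smul]
  -- `wb ∈ N^⊥ ⊗ κ`
  have hwb : InExt (perp N) wb := by
    rw [inExt_perp]
    rintro y ⟨y', ⟨hy'L, hy'T⟩, rfl⟩
    -- modify `y'` to vanish at `e` (or `e ∈ T`)
    obtain ⟨y'', hy''L, hy''T, hy''F, hy''e⟩ : ∃ y'' ∈ L, (∀ i ∈ T, y'' i = 0) ∧
        (∀ i ∈ F, y'' i = y' i) ∧ y'' e = 0 := by
      rcases h4 with h4 | ⟨z, hzL, hzF, hzT, hze⟩
      · exact ⟨y', hy'L, fun i hi => hy'T i (fun h => h hi), fun i _ => rfl,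
          hy'T e (fun h => h h4)⟩
      · refine ⟨y' - y' e • z, L.sub_mem hy'L (L.smul_mem _ hzL), ?_, ?_, ?_⟩
        · intro i hi
          have : y' i = 0 := hy'T i (fun h => h hi)
          simp [this, hzT i hi]
        · intro i hi
          simp [hzF i hi]
        · simp [hze]
    have hsum := (inExt_perp.mp hw) y'' hy''L
    have hsplit : ∑ i : F, (y' i) • w i = -∑ i ∈ Fᶜ, y'' i • w i := by
      rw [← Finset.sum_add_sum_compl F] at hsum
      rw [eq_neg_iff_add_eq_zero, ← hsum]
      congr 1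
      rw [← Finset.sum_attach F]
      refine Finset.sum_congr rfl (fun i _ => ?_)
      rw [hy''F i i.2]
    have hzero : res (∑ i : F, (y' i) • (⟨π ^ s * w i, hwV i⟩ : V)) = 0 := by
      rw [hres]
      have : ((∑ i : F, (y' i) • (⟨π ^ s * w i, hwV i⟩ : V) : V) : K)
          = -∑ i ∈ Fᶜ, y'' i • (π ^ s * w i) := by
        have h5 : -∑ i ∈ Fᶜ, y'' i • (π ^ s * w i) = π ^ s * -∑ i ∈ Fᶜ, y'' i • w i := by
          rw [mul_neg, Finset.mul_sum]
          congr 1
          refine Finset.sum_congr rfl (fun i _ => ?_)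
          rw [mul_smul_comm]
        rw [h5, ← hsplit]
        push_cast
        rw [Finset.mul_sum]
        refine Finset.sum_congr rfl (fun i _ => ?_)
        rw [hsmulV, mul_smul_comm]
      rw [this, Valuation.map_neg]
      apply Valuation.map_sum_lt v one_ne_zero
      intro i hi
      have hiF : i ∉ F := Finset.mem_compl.mp hi
      by_cases hiT : i ∈ T
      · rw [hy''T i hiT, zero_smul, map_zero]
        exact zero_lt_one
      · by_cases hie : i = e
        · rw [hie, hy''e, zero_smul, map_zero]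
          exact zero_lt_one
        · exact lt_of_le_of_lt (hsmul _ _) (h3 i hiF hiT hie)
    rw [← hzero, map_sum]
    refine Finset.sum_congr rfl (fun i _ => ?_)
    rw [map_smul]
    rfl
  -- non-vanishing
  have hxb0 : xb ⟨i₀, hi₀⟩ ≠ 0 := by
    intro h
    have := (hres _).mp h
    change v (π⁻¹ * x i₀) < 1 at this
    rw [map_mul, map_inv₀] at this
    rw [show v (x i₀) = v π from h1 i₀ hi₀, inv_mul_cancel₀ hvπ] at this
    exact lt_irrefl _ this
  -- independence
  refine lemmaG N xb wb hxb hwb ⟨i₀, hi₀⟩ hxb0 s ?_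
  let g : F → {i // i ≠ e ∧ i ≠ j} := fun i => ⟨i, hFe i i.2, hFj i i.2⟩
  have hg : Function.Injective g := by
    intro a b hab
    exact Subtype.ext (congrArg (fun z : {i // i ≠ e ∧ i ≠ j} => (z : ι)) hab)
  have hall : AlgebraicIndependent k (fun i : {i // i ≠ e ∧ i ≠ j} =>
      res ⟨x i ^ s * w i, hu i i.2.1 i.2.2⟩) := by
    rw [algebraicIndependent_iff]
    intro p hp
    by_contra hne
    have h5 := hind p hne
    have h6 : MvPolynomial.aeval (fun i : {i // i ≠ e ∧ i ≠ j} => x i ^ s * w i) p =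
        ((MvPolynomial.aeval (fun i : {i // i ≠ e ∧ i ≠ j} =>
          (⟨x i ^ s * w i, hu i i.2.1 i.2.2⟩ : V)) p : V) : K) := by
      have h7 : (IsScalarTower.toAlgHom k V K).comp (MvPolynomial.aeval
          (fun i : {i // i ≠ e ∧ i ≠ j} => (⟨x i ^ s * w i, hu i i.2.1 i.2.2⟩ : V))) =
          MvPolynomial.aeval (fun i : {i // i ≠ e ∧ i ≠ j} => x i ^ s * w i) := by
        apply MvPolynomial.algHom_ext
        intro i
        simp
      exact (DFunLike.congr_fun h7 p).symm
    have h8 : res (MvPolynomial.aeval (fun i : {i // i ≠ e ∧ i ≠ j} =>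
          (⟨x i ^ s * w i, hu i i.2.1 i.2.2⟩ : V)) p) = 0 := by
      rw [← hp, ← AlgHom.comp_apply, MvPolynomial.comp_aeval]
    rw [hres, ← h6] at h8
    rw [h5] at h8
    exact lt_irrefl _ h8
  have h9 := hall.comp g hg
  suffices h10 : (fun i => xb i ^ s * wb i) = (fun i : {i // i ≠ e ∧ i ≠ j} =>
      res ⟨x i ^ s * w i, hu i i.2.1 i.2.2⟩) ∘ g by
    rw [h10]
    exact h9
  funext i
  change xb i ^ s * wb i = res ⟨x i ^ s * w i, hu i (hFe i i.2) (hFj i i.2)⟩
  rw [← map_pow, ← map_mul]
  congr 1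
  apply Subtype.ext
  change (π⁻¹ * x i) ^ s * (π ^ s * w i) = x i ^ s * w i
  rw [mul_pow, inv_pow]
  have : π ^ s ≠ 0 := pow_ne_zero _ hπ
  field_simp

/-- Either some vector of `L` vanishes on `T` and is `1` at `e`, or the coordinate `e` is, on `L`,
a combination of the coordinates in `T`. -/
lemma exists_or {ι : Type w} [Fintype ι] [DecidableEq ι] (L : Submodule k (ι → k)) (T : Set ι)
    (e : ι) : (∃ z ∈ L, (∀ i ∈ T, z i = 0) ∧ z e = 1) ∨
      ∃ a : ι → k, (∀ i, i ∉ T → a i = 0) ∧ Pi.single e 1 - a ∈ perp L := by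
  by_cases h : ∀ y ∈ L, (∀ i ∈ T, y i = 0) → y e = 0
  · right
    apply duality
    intro y hy hyT
    simpa [Pi.single_apply] using h y hy hyT
  · left
    push Not at h
    obtain ⟨y, hy, hyT, hye⟩ := h
    refine ⟨(y e)⁻¹ • y, L.smul_mem _ hy, ?_, ?_⟩
    · intro i hi
      simp [hyT i hi]
    · simp [hye]

lemma inExt_single {ι : Type w} [Fintype ι] [DecidableEq ι] {L : Submodule k (ι → k)} {x : ι → K}
    (hx : InExt L x) {e : ι} {a : ι → k} (h : Pi.single e 1 - a ∈ perp L) :
    x e = ∑ i, a i • x i := by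
  have := hx _ h
  simp only [Pi.sub_apply, sub_smul, Finset.sum_sub_distrib] at this
  have h2 : ∑ i, (Pi.single e (1:k) : ι → k) i • x i = x e := by
    rw [Finset.sum_eq_single e]
    · simp
    · intro i _ hi
      simp [hi]
    · simp
  rw [h2] at this
  exact sub_eq_zero.mp this

/-- **The valuation lemma.** -/
theorem valLemma {ι : Type w} [Fintype ι] [DecidableEq ι] (V : ValuationSubring K)
    (hk : ∀ c : k, algebraMap k K c ∈ V) (L : Submodule k (ι → k)) (x w : ι → K)
    (hx : InExt L x) (hw : InExt (perp L) w) (e j : ι) (hej : j ≠ e) (hxe : x e = 1)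
    (hx0 : ∀ i, x i ≠ 0) (s : ℕ) (hs : s ≠ 0)
    (hcol : Pi.single j 1 ∉ L)
    (huj : V.valuation (x j ^ s * w j) < 1)
    (hind : ∀ p : MvPolynomial {i // i ≠ e ∧ i ≠ j} k, p ≠ 0 →
      V.valuation (MvPolynomial.aeval (fun i : {i // i ≠ e ∧ i ≠ j} => x i ^ s * w i) p) = 1) :
    ∀ i, x i ∈ V ∧ w i ∈ V := by
  classical
  set v := V.valuation with hv
  have hkv : ∀ c : k, v (algebraMap k K c) ≤ 1 := fun c => (V.valuation_le_one_iff _).mpr (hk c)
  have hsmul : ∀ (c : k) (z : K), v (c • z) ≤ v z := by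
    intro c z
    rw [Algebra.smul_def, map_mul]
    calc v (algebraMap k K c) * v z ≤ 1 * v z := mul_le_mul_left (hkv c) _
      _ = v z := one_mul _
  have hkunit : ∀ c : k, c ≠ 0 → v (algebraMap k K c) = 1 := by
    intro c hc
    apply le_antisymm (hkv c)
    have h1 := hkv c⁻¹
    rw [map_inv₀, map_inv₀] at h1
    have hc' : v (algebraMap k K c) ≠ 0 :=
      (Valuation.ne_zero_iff v).mpr ((map_ne_zero (algebraMap k K)).mpr hc)
    rwa [inv_le_one₀ (zero_lt_iff.mpr hc')] at h1
  have hvx : ∀ i, v (x i) ≠ 0 := fun i => (Valuation.ne_zero_iff v).mpr (hx0 i)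
  have hvx' : ∀ i, 0 < v (x i) := fun i => zero_lt_iff.mpr (hvx i)
  have hu1 : ∀ i, i ≠ e → i ≠ j → v (x i ^ s * w i) = 1 := by
    intro i h1 h2
    have := hind (MvPolynomial.X ⟨i, h1, h2⟩) (MvPolynomial.X_ne_zero _)
    rwa [MvPolynomial.aeval_X] at this
  have hu : ∀ i, i ≠ e → i ≠ j → x i ^ s * w i ∈ V := by
    intro i h1 h2
    rw [← V.valuation_le_one_iff]
    exact (hu1 i h1 h2).le
  -- valuation of `π ^ s * w i`
  have hpiw : ∀ (π : K) i, v (π ^ s * w i) = v (x i ^ s * w i) * (v π / v (x i)) ^ s := by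
    intro π i
    rw [map_mul, map_mul, map_pow, map_pow, div_pow]
    have : v (x i) ^ s ≠ 0 := pow_ne_zero _ (hvx i)
    field_simp
  have hcore := core V hk L x w hx hw e j s hu hind
  have hve : v (x e) = 1 := by rw [hxe, map_one]
  -- `j` is a combination of the others
  obtain ⟨cj, hcjL, hcj1⟩ : ∃ c ∈ perp L, c j = 1 := by
    rcases exists_or (perp L) ∅ j with ⟨z, hz, _, hz1⟩ | ⟨a, ha, hm⟩
    · exact ⟨z, hz, hz1⟩
    · exfalso
      apply hcol
      have : a = 0 := funext (fun i => ha i (Set.notMem_empty i))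
      rw [this, sub_zero, perp_perp] at hm
      exact hm
  have hxj : x j = ∑ i ∈ Finset.univ.erase j, (-cj i) • x i := by
    have h1 := hx cj hcjL
    rw [← Finset.add_sum_erase _ _ (Finset.mem_univ j), hcj1, one_smul] at h1
    rw [eq_neg_of_add_eq_zero_left h1, ← Finset.sum_neg_distrib]
    exact Finset.sum_congr rfl (fun i _ => by rw [neg_smul])
  -- nonempty index set
  have hne : (Finset.univ.erase j : Finset ι).Nonempty := ⟨e, by simp [hej.symm]⟩
  -- Step I: minimal valuation
  have hI : ∀ i, i ≠ j → 1 ≤ v (x i) := by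
    by_contra hcon
    push Not at hcon
    obtain ⟨i₁, hi₁, hlt₁⟩ := hcon
    obtain ⟨i₀, hi₀, hmin⟩ := Finset.exists_min_image (Finset.univ.erase j)
      (fun i => v (x i)) hne
    have hi₀j : i₀ ≠ j := Finset.ne_of_mem_erase hi₀
    have hltπ : v (x i₀) < 1 :=
      lt_of_le_of_lt (hmin i₁ (Finset.mem_erase.mpr ⟨hi₁, Finset.mem_univ _⟩)) hlt₁
    set F : Finset ι := (Finset.univ.erase j).filter (fun i => v (x i) = v (x i₀)) with hFdef
    have hFmem : ∀ i, i ∈ F ↔ i ≠ j ∧ v (x i) = v (x i₀) := by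
      intro i
      simp [hFdef]
    have heF : e ∉ F := by
      intro h
      have := ((hFmem e).mp h).2
      rw [hve] at this
      rw [← this] at hltπ
      exact lt_irrefl _ hltπ
    have hjF : j ∉ F := fun h => ((hFmem j).mp h).1 rfl
    have hmin' : ∀ i, i ≠ j → i ∉ F → v (x i₀) < v (x i) := by
      intro i hij hiF
      refine lt_of_le_of_ne (hmin i (Finset.mem_erase.mpr ⟨hij, Finset.mem_univ _⟩)) ?_
      intro h
      exact hiF ((hFmem i).mpr ⟨hij, h.symm⟩)
    -- the vector `z`
    have hz : ∀ T : Finset ι, (∀ i ∈ T, v (x i) ≤ v (x i₀)) →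
        ∃ z ∈ L, (∀ i ∈ F, z i = 0) ∧ (∀ i ∈ T, z i = 0) ∧ z e = 1 := by
      intro T hT
      rcases exists_or L ((F ∪ T : Finset ι) : Set ι) e with ⟨z, hz, hz0, hz1⟩ | ⟨a, ha, hm⟩
      · exact ⟨z, hz, fun i hi => hz0 i (by simp [hi]), fun i hi => hz0 i (by simp [hi]), hz1⟩
      · exfalso
        have h1 := inExt_single hx hm
        have h2 : v (x e) ≤ v (x i₀) := by
          rw [h1]
          apply Valuation.map_sum_le
          intro i _
          by_cases hi : i ∈ (F ∪ T)
          · refine (hsmul _ _).trans ?_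
            rcases Finset.mem_union.mp hi with hi | hi
            · exact ((hFmem i).mp hi).2.le
            · exact hT i hi
          · rw [ha i (by simpa using hi), zero_smul, map_zero]
            exact zero_le
        rw [hve] at h2
        exact absurd hltπ (not_lt.mpr h2)
    by_cases hjc : v (x i₀) ≤ v (x j)
    · refine hcore (x i₀) (hx0 i₀) F ∅ ⟨i₀, (hFmem i₀).mpr ⟨hi₀j, rfl⟩⟩ heF hjF
        (fun i hi => ((hFmem i).mp hi).2) (by simp) ?_ (Or.inr (hz ∅ (by simp)))
      intro i hiF _ hie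
      rw [hpiw]
      by_cases hij : i = j
      · rw [hij]
        calc v (x j ^ s * w j) * (v (x i₀) / v (x j)) ^ s ≤ v (x j ^ s * w j) * 1 := by
              apply mul_le_mul_right
              exact pow_le_one' (div_le_one_of_le₀ hjc zero_le) s
          _ < 1 := by rw [mul_one]; exact huj
      · rw [hu1 i hie hij, one_mul]
        exact pow_lt_one' ((div_lt_one₀ (hvx' i)).mpr (hmin' i hij hiF)) hs
    · push Not at hjc
      refine hcore (x i₀) (hx0 i₀) F {j} ⟨i₀, (hFmem i₀).mpr ⟨hi₀j, rfl⟩⟩ heF hjF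
        (fun i hi => ((hFmem i).mp hi).2) (by simpa using hjc) ?_
        (Or.inr (hz {j} (by simpa using hjc.le)))
      intro i hiF hij hie
      have hij : i ≠ j := by simpa using hij
      rw [hpiw, hu1 i hie hij, one_mul]
      exact pow_lt_one' ((div_lt_one₀ (hvx' i)).mpr (hmin' i hij hiF)) hs
  -- Step II: maximal valuation
  have hII : ∀ i, i ≠ j → v (x i) ≤ 1 := by
    by_contra hcon
    push Not at hcon
    obtain ⟨i₁, hi₁, hlt₁⟩ := hcon
    obtain ⟨i₀, hi₀, hmax⟩ := Finset.exists_max_image (Finset.univ.erase j)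
      (fun i => v (x i)) hne
    have hi₀j : i₀ ≠ j := Finset.ne_of_mem_erase hi₀
    have hltπ : 1 < v (x i₀) :=
      lt_of_lt_of_le hlt₁ (hmax i₁ (Finset.mem_erase.mpr ⟨hi₁, Finset.mem_univ _⟩))
    set F : Finset ι := (Finset.univ.erase j).filter (fun i => v (x i) = v (x i₀)) with hFdef
    have hFmem : ∀ i, i ∈ F ↔ i ≠ j ∧ v (x i) = v (x i₀) := by
      intro i
      simp [hFdef]
    have heF : e ∉ F := by
      intro h
      have := ((hFmem e).mp h).2
      rw [hve] at this
      rw [← this] at hltπ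
      exact lt_irrefl _ hltπ
    have hjF : j ∉ F := fun h => ((hFmem j).mp h).1 rfl
    have hmax' : ∀ i, i ≠ j → i ∉ F → v (x i) < v (x i₀) := by
      intro i hij hiF
      refine lt_of_le_of_ne (hmax i (Finset.mem_erase.mpr ⟨hij, Finset.mem_univ _⟩)) ?_
      intro h
      exact hiF ((hFmem i).mpr ⟨hij, h⟩)
    have hjle : v (x j) ≤ v (x i₀) := by
      rw [hxj]
      apply Valuation.map_sum_le
      intro i hi
      exact (hsmul _ _).trans (hmax i hi)
    rcases hjle.lt_or_eq with hjlt | hjeq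
    · refine hcore (x i₀) (hx0 i₀) F Fᶜ ⟨i₀, (hFmem i₀).mpr ⟨hi₀j, rfl⟩⟩ heF hjF
        (fun i hi => ((hFmem i).mp hi).2) ?_ ?_ (Or.inl (Finset.mem_compl.mpr heF))
      · intro i hi
        by_cases hij : i = j
        · rw [hij]; exact hjlt
        · exact hmax' i hij (Finset.mem_compl.mp hi)
      · intro i hiF hiT
        exact absurd (Finset.mem_compl.mpr hiF) hiT
    · refine hcore (x i₀) (hx0 i₀) F (insert j F)ᶜ ⟨i₀, (hFmem i₀).mpr ⟨hi₀j, rfl⟩⟩ heF hjF
        (fun i hi => ((hFmem i).mp hi).2) ?_ ?_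
        (Or.inl (Finset.mem_compl.mpr (by simp [hej.symm, heF])))
      · intro i hi
        have hi' := Finset.mem_compl.mp hi
        rw [Finset.mem_insert, not_or] at hi'
        exact hmax' i hi'.1 hi'.2
      · intro i hiF hiT hie
        have hij : i = j := by
          by_contra hij
          exact hiT (Finset.mem_compl.mpr (by simp [hij, hiF]))
        rw [hpiw, hij, hjeq, div_self (hvx i₀), one_pow, mul_one]
        exact huj
  -- conclusion
  have hx1 : ∀ i, i ≠ j → v (x i) = 1 := fun i hi => le_antisymm (hII i hi) (hI i hi)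
  have hxj1 : v (x j) ≤ 1 := by
    rw [hxj]
    apply Valuation.map_sum_le
    intro i hi
    exact (hsmul _ _).trans (hx1 i (Finset.ne_of_mem_erase hi)).le
  have hw1 : ∀ i, i ≠ e → i ≠ j → v (w i) ≤ 1 := by
    intro i h1 h2
    have := hu1 i h1 h2
    rw [map_mul, map_pow, hx1 i h2, one_pow, one_mul] at this
    exact this.le
  have hwj : v (w j) ≤ 1 := by
    rcases exists_or L {e} j with ⟨z, hz, hz0, hz1⟩ | ⟨a, ha, hm⟩
    · have h1 := (inExt_perp.mp hw) z hz
      rw [← Finset.add_sum_erase _ _ (Finset.mem_univ j), hz1, one_smul] at h1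
      rw [eq_neg_of_add_eq_zero_left h1, Valuation.map_neg]
      apply Valuation.map_sum_le
      intro i hi
      by_cases hie : i = e
      · rw [hie, hz0 e rfl, zero_smul, map_zero]
        exact zero_le
      · exact (hsmul _ _).trans (hw1 i hie (Finset.ne_of_mem_erase hi))
    · have h1 := inExt_single hx hm
      have h2 : ∑ i, a i • x i = algebraMap k K (a e) := by
        rw [Finset.sum_eq_single e]
        · rw [hxe, Algebra.smul_def, mul_one]
        · intro i _ hi
          rw [ha i (by simpa using hi), zero_smul]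
        · simp
      rw [h2] at h1
      have h3 : a e ≠ 0 := by
        intro h
        rw [h, map_zero] at h1
        exact hx0 j h1
      have h4 : v (x j) = 1 := by rw [h1]; exact hkunit _ h3
      rw [map_mul, map_pow, h4, one_pow, one_mul] at huj
      exact huj.le
  have hwe : v (w e) ≤ 1 := by
    rcases exists_or L ∅ e with ⟨z, hz, hz0, hz1⟩ | ⟨a, ha, hm⟩
    · have h1 := (inExt_perp.mp hw) z hz
      rw [← Finset.add_sum_erase _ _ (Finset.mem_univ e), hz1, one_smul] at h1
      rw [eq_neg_of_add_eq_zero_left h1, Valuation.map_neg]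
      apply Valuation.map_sum_le
      intro i hi
      by_cases hij : i = j
      · rw [hij]
        exact (hsmul _ _).trans hwj
      · exact (hsmul _ _).trans (hw1 i (Finset.ne_of_mem_erase hi) hij)
    · exfalso
      have h1 := inExt_single hx hm
      have h2 : a = 0 := funext (fun i => ha i (Set.notMem_empty i))
      rw [h2, hxe] at h1
      simp at h1
  intro i
  constructor
  · rw [← V.valuation_le_one_iff]
    by_cases hij : i = j
    · rw [hij]; exact hxj1
    · exact (hx1 i hij).le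
  · rw [← V.valuation_le_one_iff]
    by_cases hij : i = j
    · rw [hij]; exact hwj
    · by_cases hie : i = e
      · rw [hie]; exact hwe
      · exact hw1 i hie hij

/-- **Second valuation lemma**: `w e` is integral over the other `x i ^ s * w i`. -/
theorem valLemma2 {ι : Type w} [Fintype ι] [DecidableEq ι] (V : ValuationSubring K)
    (hk : ∀ c : k, algebraMap k K c ∈ V) (L : Submodule k (ι → k)) (x w : ι → K)
    (hx : InExt L x) (hw : InExt (perp L) w) (e : ι) (hxe : x e = 1)
    (hx0 : ∀ i, x i ≠ 0) (s : ℕ)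
    (hu : ∀ i, i ≠ e → x i ^ s * w i ∈ V) : w e ∈ V := by
  classical
  set v := V.valuation with hv
  have hkv : ∀ c : k, v (algebraMap k K c) ≤ 1 := fun c => (V.valuation_le_one_iff _).mpr (hk c)
  have hsmul : ∀ (c : k) (z : K), v (c • z) ≤ v z := by
    intro c z
    rw [Algebra.smul_def, map_mul]
    calc v (algebraMap k K c) * v z ≤ 1 * v z := mul_le_mul_left (hkv c) _
      _ = v z := one_mul _
  have hvx : ∀ i, v (x i) ≠ 0 := fun i => (Valuation.ne_zero_iff v).mpr (hx0 i)
  have hvx' : ∀ i, 0 < v (x i) := fun i => zero_lt_iff.mpr (hvx i)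
  rcases exists_or L {i | v (x i) < 1} e with ⟨z, hz, hz0, hz1⟩ | ⟨a, ha, hm⟩
  · have h1 := (inExt_perp.mp hw) z hz
    rw [← Finset.add_sum_erase _ _ (Finset.mem_univ e), hz1, one_smul] at h1
    rw [← V.valuation_le_one_iff, eq_neg_of_add_eq_zero_left h1]
    change v _ ≤ 1
    rw [Valuation.map_neg]
    apply Valuation.map_sum_le
    intro i hi
    have hie : i ≠ e := Finset.ne_of_mem_erase hi
    by_cases hlt : v (x i) < 1
    · rw [hz0 i hlt, zero_smul, map_zero]
      exact zero_le
    · refine (hsmul _ _).trans ?_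
      have h2 : v (x i ^ s * w i) ≤ 1 := (V.valuation_le_one_iff _).mpr (hu i hie)
      rw [map_mul, map_pow] at h2
      have h3 : 1 ≤ v (x i) ^ s := one_le_pow₀ (not_lt.mp hlt)
      calc v (w i) = 1 * v (w i) := (one_mul _).symm
        _ ≤ v (x i) ^ s * v (w i) := mul_le_mul_left h3 _
        _ ≤ 1 := h2
  · exfalso
    have h1 := inExt_single hx hm
    have h2 : v (x e) < 1 := by
      rw [h1]
      apply Valuation.map_sum_lt v one_ne_zero
      intro i _
      by_cases hi : v (x i) < 1
      · exact lt_of_le_of_lt (hsmul _ _) hi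
      · rw [ha i hi, zero_smul, map_zero]
        exact zero_lt_one
    rw [hxe, map_one] at h2
    exact lt_irrefl _ h2

end val

end Pool.Agent.H24
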